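import Pool.Agent.H252.EL.Iface
import Pool.Graph.R_seed8.TH249.Lim

/-!
# Unitary matrices over the limit algebra are connected to the identity
-/

set_option autoImplicit false
set_option linter.unusedSectionVars false

noncomputable section

namespace Pool.Agent.H803.ELK1

open Filter Topology
open scoped Matrix.Norms.L2Operator
open Pool.Agent.H252.EL
open Pool.Agent.H188R3 (MA IsLim norm_map_inj)
open Pool.Agent.TH249 (toMA frMA norm_MA_le MA_map_inj approx_MA norm_pi_le toMA_inj)

section general

variable {B : Type} [CStarAlgebra B]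

/-- polar decomposition near the unitary elements -/
theorem polar (x : B) (h1 : ‖star x * x - 1‖ ≤ 1 / 2) (h2 : ‖x * star x - 1‖ < 1) :
    ∃ v : unitary B, ‖(v : B) - x‖ ≤ ‖x‖ * (1 / 2) := by
  set a : B := star x * x with ha
  have hsa : IsSelfAdjoint a := IsSelfAdjoint.star_mul_self x
  have hspec : ∀ t ∈ spectrum ℝ a, |t - 1| ≤ 1 / 2 := by
    intro t ht
    have h3 : t - 1 ∈ spectrum ℝ (a - 1) := by
      have h4 := spectrum.sub_singleton_eq (R := ℝ) a 1
      rw [map_one] at h4
      rw [← h4]
      exact Set.sub_mem_sub ht rfl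
    have h5 := spectrum.norm_le_norm_mul_of_mem h3
    rcases subsingleton_or_nontrivial B with hB | hB
    · rw [Subsingleton.elim (a - 1) 0, norm_zero, zero_mul] at h5
      rw [← Real.norm_eq_abs]
      linarith
    · rw [CStarRing.norm_one, mul_one] at h5
      rw [← Real.norm_eq_abs]
      exact h5.trans h1
  have hpos : ∀ t ∈ spectrum ℝ a, (4 / 9 : ℝ) ≤ t ∧ t ≤ 4 := by
    intro t ht
    have := abs_le.1 (hspec t ht)
    constructor <;> linarith [this.1, this.2]
  have hsq : ∀ t ∈ spectrum ℝ a, (2 / 3 : ℝ) ≤ √t ∧ √t ≤ 2 := by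
    intro t ht
    obtain ⟨h3, h4⟩ := hpos t ht
    constructor
    · apply Real.le_sqrt_of_sq_le
      norm_num
      linarith
    · rw [Real.sqrt_le_left (by norm_num)]
      norm_num
      exact h4
  have hcont : ContinuousOn (fun t : ℝ => (√t)⁻¹) (spectrum ℝ a) := by
    apply ContinuousOn.inv₀ (Real.continuous_sqrt.continuousOn)
    intro t ht
    have := (hsq t ht).1
    linarith
  set b : B := cfc (fun t : ℝ => (√t)⁻¹) a with hb
  have hbs : star b = b := (cfc_predicate (p := IsSelfAdjoint) (fun t : ℝ => (√t)⁻¹) a).star_eq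
  have hbab : b * a * b = 1 := by
    have h3 : b * a = cfc (fun t : ℝ => (√t)⁻¹ * t) a := by
      conv_lhs => rw [← cfc_id' ℝ a]
      rw [hb, ← cfc_mul (fun t : ℝ => (√t)⁻¹) (fun t : ℝ => t) a hcont continuousOn_id]
    rw [h3, hb, ← cfc_mul (fun t : ℝ => (√t)⁻¹ * t) (fun t : ℝ => (√t)⁻¹) a
      (hcont.mul continuousOn_id) hcont, ← cfc_one ℝ a]
    apply cfc_congr
    intro t ht
    have h4 := (hsq t ht).1
    have h5 := (hpos t ht).1
    have h6 : √t * √t = t := Real.mul_self_sqrt (by linarith)
    have h7 : √t ≠ 0 := by linarith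
    simp only [Pi.one_apply]
    field_simp
    nlinarith
  have hb1 : ‖b - 1‖ ≤ 1 / 2 := by
    have h3 : b - 1 = cfc (fun t : ℝ => (√t)⁻¹ - 1) a := by
      rw [cfc_sub (fun t : ℝ => (√t)⁻¹) (fun _ => 1) a hcont continuousOn_const, ← hb,
        cfc_const_one ℝ a]
    rw [h3]
    apply norm_cfc_le (by norm_num)
    intro t ht
    obtain ⟨h4, h5⟩ := hsq t ht
    rw [Real.norm_eq_abs, abs_le]
    have h6 : (√t)⁻¹ ≤ (2 / 3)⁻¹ := inv_anti₀ (by norm_num) h4
    have h7 : (2 : ℝ)⁻¹ ≤ (√t)⁻¹ := inv_anti₀ (by linarith) h5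
    norm_num at h6 h7
    constructor <;> linarith
  have hv1 : star (x * b) * (x * b) = 1 := by
    rw [star_mul, hbs]
    calc b * star x * (x * b) = b * (star x * x) * b := by noncomm_ring
      _ = 1 := hbab
  have hu1 : ∀ y : B, ‖y - 1‖ < 1 → IsUnit y := by
    intro y hy
    have h3 := (Units.oneSub (1 - y) (by rw [norm_sub_rev]; exact hy)).isUnit
    rwa [Units.val_oneSub, sub_sub_cancel] at h3
  obtain ⟨w, hw⟩ := hu1 (x * star x) h2
  have hr : x * b * (a * b * (star x * ↑w⁻¹)) = 1 := by
    calc x * b * (a * b * (star x * ↑w⁻¹)) = x * (b * a * b) * (star x * ↑w⁻¹) := by noncomm_ring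
      _ = (x * star x) * ↑w⁻¹ := by rw [hbab]; noncomm_ring
      _ = 1 := by rw [← hw]; exact w.mul_inv
  have hv2 : x * b * star (x * b) = 1 := by
    rw [left_inv_eq_right_inv hv1 hr]
    exact hr
  refine ⟨⟨x * b, Unitary.mem_iff.2 ⟨hv1, hv2⟩⟩, ?_⟩
  calc ‖x * b - x‖ = ‖x * (b - 1)‖ := by rw [mul_sub, mul_one]
    _ ≤ ‖x‖ * ‖b - 1‖ := norm_mul_le _ _
    _ ≤ ‖x‖ * (1 / 2) := by gcongr

/-- the unitary group of a finite dimensional algebra is connected -/
theorem fd [Module.Finite ℂ B] (w : unitary B) : Joined w 1 := by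
  rcases subsingleton_or_nontrivial B with hB | hB
  · have : w = 1 := Subtype.ext (Subsingleton.elim _ _)
    rw [this]
  · -- finite spectrum
    have hfin : (spectrum ℂ (w : B)).Finite := by
      have hint : IsIntegral ℂ (w : B) := Algebra.IsIntegral.isIntegral _
      have h1 : minpoly ℂ (w : B) ≠ 0 := minpoly.ne_zero hint
      refine ((minpoly ℂ (w : B)).rootSet_finite ℂ).subset ?_
      intro z hz
      have h2 := spectrum.subset_polynomial_aeval (w : B) (minpoly ℂ (w : B)) ⟨z, hz, rfl⟩
      rw [minpoly.aeval, spectrum.zero_eq, Set.mem_singleton_iff] at h2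
      rw [Polynomial.mem_rootSet]
      refine ⟨h1, ?_⟩
      rw [Polynomial.aeval_def, Algebra.algebraMap_self, Polynomial.eval₂_id]
      exact h2
    have hmem : ∀ θ : ℝ, Complex.exp (θ * Complex.I) • (w : B) ∈ unitary B := by
      intro θ
      have h1 : star (Complex.exp (θ * Complex.I)) * Complex.exp (θ * Complex.I) = 1 := by
        rw [Complex.star_def, ← Complex.exp_conj, ← Complex.exp_add, map_mul, Complex.conj_I,
          Complex.conj_ofReal]
        simp
      have h2 : Complex.exp (θ * Complex.I) * star (Complex.exp (θ * Complex.I)) = 1 := by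
        rw [mul_comm]; exact h1
      rw [Unitary.mem_iff]
      constructor
      · rw [star_smul, smul_mul_smul_comm, h1, one_smul]
        exact Unitary.star_mul_self_of_mem w.2
      · rw [star_smul, smul_mul_smul_comm, h2, one_smul]
        exact Unitary.mul_star_self_of_mem w.2
    let f : ℝ → unitary B := fun θ => ⟨Complex.exp (θ * Complex.I) • (w : B), hmem θ⟩
    have hf : Continuous f := by
      apply Continuous.subtype_mk
      fun_prop
    have hf0 : f 0 = w := by
      apply Subtype.ext
      simp [f]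
    obtain ⟨θ, hθ⟩ : ∃ θ : ℝ, (-1 : ℂ) ∉ spectrum ℂ (Complex.exp (θ * Complex.I) • (w : B)) := by
      by_contra hcon
      push Not at hcon
      have h1 : ∀ θ : ℝ, Complex.exp (θ * Complex.I) ∈
          (fun z : ℂ => -z⁻¹) '' (spectrum ℂ (w : B)) := by
        intro θ
        have h2 := hcon θ
        have hne : Complex.exp (θ * Complex.I) ≠ 0 := Complex.exp_ne_zero _
        have h3 : Complex.exp (θ * Complex.I) • (w : B) =
            (Units.mk0 _ hne : ℂˣ) • (w : B) := rfl
        rw [h3, spectrum.unit_smul_eq_smul] at h2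
        obtain ⟨z, hz, hz'⟩ := h2
        refine ⟨z, hz, ?_⟩
        have h4 : Complex.exp (θ * Complex.I) * z = -1 := hz'
        have hz0 : z ≠ 0 := by
          rintro rfl
          rw [mul_zero] at h4
          norm_num at h4
        simp only
        field_simp
        linear_combination -h4
      have h2 : (Set.Ioc (-Real.pi) Real.pi).Infinite :=
        Set.Ioc_infinite (by linarith [Real.pi_pos])
      have h3 : Set.InjOn (fun θ : ℝ => Complex.exp (θ * Complex.I)) (Set.Ioc (-Real.pi) Real.pi) := by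
        intro θ hθ θ' hθ' he
        have h4 := Complex.exp_inj_of_neg_pi_lt_of_le_pi (x := θ * Complex.I)
          (y := θ' * Complex.I) (by simpa using hθ.1) (by simpa using hθ.2)
          (by simpa using hθ'.1) (by simpa using hθ'.2) he
        have h5 := congrArg Complex.im h4
        simpa using h5
      refine (h2.image h3) (Set.Finite.subset (hfin.image (fun z : ℂ => -z⁻¹)) ?_)
      rintro _ ⟨θ, -, rfl⟩
      exact h1 θ
    have h1 : ‖((f θ : unitary B) : B) - 1‖ < 2 :=
      (Unitary.norm_sub_one_lt_two_iff (f θ).2).2 hθ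
    have h2 : Joined (1 : unitary B) (f θ) := Unitary.joined 1 (f θ) h1
    have h3 : Joined (f 0) (f θ) := (PathConnectedSpace.joined (0 : ℝ) θ).map hf
    rw [hf0] at h3
    exact h3.trans h2.symm

/-- images of connected unitary elements -/
theorem joined_map {C : Type} [CStarAlgebra C] (g : B →⋆ₐ[ℂ] C) {v : unitary B}
    (h : Joined v 1) {v' : unitary C} (hv' : (v' : C) = g v) : Joined v' 1 := by
  let F : unitary B → unitary C := fun w => ⟨g w, by
    rw [Unitary.mem_iff]
    constructor
    · rw [← map_star, ← map_mul, Unitary.star_mul_self_of_mem w.2, map_one]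
    · rw [← map_star, ← map_mul, Unitary.mul_star_self_of_mem w.2, map_one]⟩
  have hg : Continuous g := by
    refine AddMonoidHomClass.continuous_of_bound g 1 fun x => ?_
    rw [one_mul]
    exact Pool.Agent.H188R3.norm_map_le' g x
  have hF : Continuous F := (hg.comp continuous_subtype_val).subtype_mk _
  have h1 : F v = v' := Subtype.ext hv'.symm
  have h2 : F 1 = 1 := Subtype.ext (map_one g)
  rw [← h1, ← h2]
  exact h.map hF

end general

section mat

variable {I : Type} [Fintype I] [DecidableEq I] {A : Type} [CStarAlgebra A]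

/-- continuity in the matrix algebra is continuity of the entries -/
theorem continuous_of_en {T : Type*} [TopologicalSpace T] (γ : T → MA I A)
    (h : ∀ i j, Continuous fun t => (γ t).en i j) : Continuous γ := by
  rw [continuous_iff_continuousAt]
  intro t0
  rw [ContinuousAt, tendsto_iff_norm_sub_tendsto_zero]
  refine squeeze_zero (fun t => norm_nonneg _) (fun t => norm_MA_le _) ?_
  have h1 : Tendsto (fun t => ∑ i, ∑ j, ‖(γ t - γ t0).en i j‖) (𝓝 t0)
      (𝓝 (∑ _i : I, ∑ _j : I, (0 : ℝ))) := by
    refine tendsto_finsetSum _ fun i _ => tendsto_finsetSum _ fun j _ => ?_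
    have h2 := (h i j).continuousAt (x := t0)
    exact tendsto_iff_norm_sub_tendsto_zero.1 h2
  simpa using h1

theorem norm_en_le (x : MA I A) (i j : I) : ‖x.en i j‖ ≤ ‖x‖ := by
  letI : PartialOrder A := CStarAlgebra.spectralOrder A
  letI : StarOrderedRing A := CStarAlgebra.spectralOrderedRing A
  exact CStarMatrix.norm_entry_le_norm

theorem continuous_en (i j : I) : Continuous fun x : MA I A => x.en i j := by
  rw [continuous_iff_continuousAt]
  intro x0
  rw [ContinuousAt, tendsto_iff_norm_sub_tendsto_zero]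
  refine squeeze_zero (fun t => norm_nonneg _)
    (fun t => (norm_en_le (t - x0) i j : ‖t.en i j - x0.en i j‖ ≤ ‖t - x0‖)) ?_
  exact tendsto_iff_norm_sub_tendsto_zero.1 tendsto_id

instance [Module.Finite ℂ A] : Module.Finite ℂ (MA I A) := by
  let f : MA I A →ₗ[ℂ] (I → I → A) :=
    { toFun := fun x i j => x.en i j
      map_add' := fun _ _ => rfl
      map_smul' := fun _ _ => rfl }
  exact Module.Finite.of_injective f fun x y h =>
    MA.ext fun i j => congrFun (congrFun h i) j

end mat

section block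

variable {d : Bool → ℕ} {N : ℕ}

/-- the contraction of the cubes -/
def HH (d : Bool → ℕ) : C(unitInterval × ZZ d, ZZ d) :=
  ⟨fun p => ⟨p.2.1, fun a => p.1 * p.2.2 a⟩, by
    have h1 : Continuous fun q : (Σ b : Bool, Cb (d b) × unitInterval) =>
        (⟨q.1, fun a => q.2.2 * q.2.1 a⟩ : ZZ d) := by
      refine continuous_sigma fun b => ?_
      have h2 : Continuous fun q : Cb (d b) × unitInterval =>
          (fun a => q.2 * q.1 a : Cb (d b)) := by
        refine continuous_pi fun a => ?_
        exact continuous_snd.mul ((continuous_apply a).comp continuous_fst)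
      exact continuous_sigmaMk.comp h2
    exact (h1.comp (Homeomorph.sigmaProdDistrib).continuous).comp continuous_swap⟩

/-- the component of a point -/
def cpt (d : Bool → ℕ) : C(ZZ d, Bool) :=
  ⟨fun z => z.1, continuous_sigma fun _ => continuous_const⟩

/-- the vertex of a component -/
def vtx (d : Bool → ℕ) : C(Bool, ZZ d) := ⟨fun b => ⟨b, fun _ => 0⟩, continuous_of_discreteTopology⟩

theorem HH_one (z : ZZ d) : HH d (1, z) = z := by
  rcases z with ⟨b, y⟩
  change (⟨b, fun a => 1 * y a⟩ : ZZ d) = ⟨b, y⟩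
  simp

theorem HH_zero (z : ZZ d) : HH d (0, z) = vtx d (cpt d z) := by
  rcases z with ⟨b, y⟩
  change (⟨b, fun a => 0 * y a⟩ : ZZ d) = ⟨b, fun _ => 0⟩
  simp

instance : Module.Finite ℂ (BB Bool N) :=
  Module.Finite.of_injective (ContinuousMap.coeFnLinearMap ℂ :
    C(Bool, Matrix (Fin N) (Fin N) ℂ) →ₗ[ℂ] (Bool → Matrix (Fin N) (Fin N) ℂ))
    fun _ _ h => ContinuousMap.ext fun b => congrFun h b

/-- the unitary matrices over the blocks are connected to the identity -/
theorem block {I : Type} [Fintype I] [DecidableEq I] (v : unitary (MA I (BB (ZZ d) N))) :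
    Joined v 1 := by
  let H : unitInterval → C(ZZ d, ZZ d) := fun s => ⟨fun z => HH d (s, z), by fun_prop⟩
  let c : ∀ s : unitInterval, BB (ZZ d) N →⋆ₐ[ℂ] BB (ZZ d) N := fun s =>
    ContinuousMap.compStarAlgHom' ℂ (Matrix (Fin N) (Fin N) ℂ) (H s)
  let γ : unitInterval → unitary (MA I (BB (ZZ d) N)) := fun s => ⟨MA.map (c s) v, by
    rw [Unitary.mem_iff]
    constructor
    · rw [← map_star, ← map_mul, Unitary.star_mul_self_of_mem v.2, map_one]
    · rw [← map_star, ← map_mul, Unitary.mul_star_self_of_mem v.2, map_one]⟩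
  have hγ : Continuous γ := by
    refine Continuous.subtype_mk ?_ _
    refine continuous_of_en _ fun i j => ?_
    exact (((v : MA I (BB (ZZ d) N)).en i j).comp (HH d)).curry.continuous
  have h1 : γ 1 = v := by
    apply Subtype.ext
    refine MA.ext fun i j => ContinuousMap.ext fun z => ?_
    change ((v : MA I (BB (ZZ d) N)).en i j) (HH d (1, z)) = _
    rw [HH_one]
  have h2' : Joined (γ 0) (γ 1) := ⟨⟨⟨γ, hγ⟩, rfl, rfl⟩⟩
  have h2 : Joined (γ 1) (γ 0) := h2'.symm
  rw [h1] at h2
  refine h2.trans ?_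
  let ev : BB (ZZ d) N →⋆ₐ[ℂ] BB Bool N :=
    ContinuousMap.compStarAlgHom' ℂ (Matrix (Fin N) (Fin N) ℂ) (vtx d)
  let inc : BB Bool N →⋆ₐ[ℂ] BB (ZZ d) N :=
    ContinuousMap.compStarAlgHom' ℂ (Matrix (Fin N) (Fin N) ℂ) (cpt d)
  have hw : MA.map ev (v : MA I (BB (ZZ d) N)) ∈ unitary (MA I (BB Bool N)) := by
    rw [Unitary.mem_iff]
    constructor
    · rw [← map_star, ← map_mul, Unitary.star_mul_self_of_mem v.2, map_one]
    · rw [← map_star, ← map_mul, Unitary.mul_star_self_of_mem v.2, map_one]
  refine joined_map (MA.map inc) (fd ⟨_, hw⟩) ?_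
  refine MA.ext fun i j => ContinuousMap.ext fun z => ?_
  change ((v : MA I (BB (ZZ d) N)).en i j) (HH d (0, z)) =
    ((v : MA I (BB (ZZ d) N)).en i j) (vtx d (cpt d z))
  rw [HH_zero]

end block

theorem n_pos (D : Sys) (hD : D.Good) (i : ℕ) : 0 < D.n i := by
  induction i with
  | zero => exact Nat.one_pos
  | succ i ih =>
    rw [D.n_succ]
    have := hD.lt i
    exact Nat.mul_pos ih (by omega)

theorem nontriv (D : Sys) (hD : D.Good) (i : ℕ) : Nontrivial (D.A i) := by
  have h1 := n_pos D hD i
  refine ⟨0, 1, fun h => ?_⟩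
  have h2 := congrArg (fun f : D.A i => f ⟨true, fun _ => 0⟩ ⟨0, h1⟩ ⟨0, h1⟩) h
  simp at h2

theorem s_K1 : S_K1 := by
  intro D hD L _ j hL n u hu1 hu2
  haveI : ∀ i, Nontrivial (D.A i) := nontriv D hD
  have hU1 : star (toMA u) * toMA u = 1 := congrArg toMA hu1
  have hU2 : toMA u * star (toMA u) = 1 := congrArg toMA hu2
  let U : unitary (MA (Fin n) L) := ⟨toMA u, Unitary.mem_iff.2 ⟨hU1, hU2⟩⟩
  have key : Joined U 1 := by
    obtain ⟨i, hi⟩ := approx_MA hL (toMA u) (ε := 1 / 8) (by norm_num)
    obtain ⟨x, hx⟩ := hi i le_rfl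
    set J : MA (Fin n) (D.A i) →⋆ₐ[ℂ] MA (Fin n) L := MA.map (j i) with hJ
    have hinj : Function.Injective J := MA_map_inj _ (hL.inj i)
    have hun : ‖toMA u‖ ≤ 1 := norm_pi_le (IsStarProjection.one (R := MA (Fin n) L)) hU1
    have hxn : ‖J x‖ ≤ 9 / 8 := by
      calc ‖J x‖ = ‖toMA u - (toMA u - J x)‖ := by congr 1; abel
        _ ≤ ‖toMA u‖ + ‖toMA u - J x‖ := norm_sub_le _ _
        _ ≤ 9 / 8 := by linarith
    have h1 : ‖star x * x - 1‖ ≤ 1 / 2 := by
      rw [← norm_map_inj J hinj, map_sub, map_mul, map_star, map_one, ← hU1]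
      have h2 : star (J x) * J x - star (toMA u) * toMA u =
          -(star (J x) * (toMA u - J x)) - star (toMA u - J x) * toMA u := by
        rw [star_sub]; noncomm_ring
      rw [h2]
      calc ‖-(star (J x) * (toMA u - J x)) - star (toMA u - J x) * toMA u‖
          ≤ ‖star (J x) * (toMA u - J x)‖ + ‖star (toMA u - J x) * toMA u‖ := by
            refine (norm_sub_le _ _).trans ?_
            rw [norm_neg]
        _ ≤ ‖J x‖ * ‖toMA u - J x‖ + ‖toMA u - J x‖ * ‖toMA u‖ := by
            refine add_le_add ?_ ?_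
            · refine (norm_mul_le _ _).trans ?_
              rw [norm_star]
            · refine (norm_mul_le _ _).trans ?_
              rw [norm_star]
        _ ≤ 9 / 8 * (1 / 8) + 1 / 8 * 1 := by gcongr
        _ ≤ 1 / 2 := by norm_num
    have h1' : ‖x * star x - 1‖ < 1 := by
      rw [← norm_map_inj J hinj, map_sub, map_mul, map_star, map_one, ← hU2]
      have h2 : J x * star (J x) - toMA u * star (toMA u) =
          -((toMA u - J x) * star (J x)) - toMA u * star (toMA u - J x) := by
        rw [star_sub]; noncomm_ring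
      rw [h2]
      calc ‖-((toMA u - J x) * star (J x)) - toMA u * star (toMA u - J x)‖
          ≤ ‖(toMA u - J x) * star (J x)‖ + ‖toMA u * star (toMA u - J x)‖ := by
            refine (norm_sub_le _ _).trans ?_
            rw [norm_neg]
        _ ≤ ‖toMA u - J x‖ * ‖J x‖ + ‖toMA u‖ * ‖toMA u - J x‖ := by
            refine add_le_add ?_ ?_
            · refine (norm_mul_le _ _).trans ?_
              rw [norm_star]
            · refine (norm_mul_le _ _).trans ?_
              rw [norm_star]
        _ ≤ 1 / 8 * (9 / 8) + 1 * (1 / 8) := by gcongr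
        _ < 1 := by norm_num
    obtain ⟨v, hv⟩ := polar x h1 h1'
    have hxn' : ‖x‖ ≤ 9 / 8 := by rw [← norm_map_inj J hinj]; exact hxn
    have hJv : J (v : MA (Fin n) (D.A i)) ∈ unitary (MA (Fin n) L) := by
      rw [Unitary.mem_iff]
      constructor
      · rw [← map_star, ← map_mul, Unitary.star_mul_self_of_mem v.2, map_one]
      · rw [← map_star, ← map_mul, Unitary.mul_star_self_of_mem v.2, map_one]
    have h3 : Joined (⟨J v, hJv⟩ : unitary (MA (Fin n) L)) 1 := joined_map J (block v) rfl
    have h4 : ‖J v - toMA u‖ < 2 := by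
      calc ‖J v - toMA u‖ = ‖J ((v : MA (Fin n) (D.A i)) - x) - (toMA u - J x)‖ := by
            rw [map_sub]; congr 1; abel
        _ ≤ ‖J ((v : MA (Fin n) (D.A i)) - x)‖ + ‖toMA u - J x‖ := norm_sub_le _ _
        _ ≤ 9 / 8 * (1 / 2) + 1 / 8 := by
            rw [norm_map_inj J hinj]
            refine add_le_add (hv.trans ?_) hx.le
            gcongr
        _ < 2 := by norm_num
    exact (Unitary.joined U ⟨J v, hJv⟩ h4).trans h3
  obtain ⟨p⟩ := key
  refine ⟨fun t => frMA (p.extend t : MA (Fin n) L), ?_, ?_, ?_, fun t => ?_⟩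
  · refine continuous_matrix fun a b => ?_
    exact (continuous_en a b).comp (continuous_subtype_val.comp p.continuous_extend)
  · change frMA (p.extend 0 : MA (Fin n) L) = u
    rw [p.extend_zero]
    rfl
  · change frMA (p.extend 1 : MA (Fin n) L) = 1
    rw [p.extend_one]
    rfl
  · constructor
    · apply toMA_inj
      exact Unitary.star_mul_self_of_mem (p.extend t).2
    · apply toMA_inj
      exact Unitary.mul_star_self_of_mem (p.extend t).2

end Pool.Agent.H803.ELK1
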