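import Pool.Agent.H465.OC.StmB

/-!
# Project OC, task B5: the sequence `P_{n p^l}`
-/

set_option autoImplicit false

namespace Pool.Agent.H803.OCSeq

open Polynomial Pool.Agent.H465.OC Pool.Agent.Q279.SC

noncomputable section

theorem natCast_mul_coeff {R : Type} [CommRing R] (a : ℕ) (s : LaurentSeries R) (n : ℤ) :
    ((a : LaurentSeries R) * s).coeff n = (a : R) * s.coeff n := by
  rw [← nsmul_eq_mul, HahnSeries.coeff_nsmul, Pi.smul_apply, nsmul_eq_mul]

theorem UU_coeff (p : ℕ) [Fact p.Prime] {R : Type} [CommRing R] (s : LaurentSeries R) (n : ℤ) :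
    (UU p R s).coeff n = s.coeff (p * n) := rfl

theorem UU_add (p : ℕ) [Fact p.Prime] {R : Type} [CommRing R] (s t : LaurentSeries R) :
    UU p R (s + t) = UU p R s + UU p R t := by
  ext n
  rw [HahnSeries.coeff_add, UU_coeff, UU_coeff, UU_coeff, HahnSeries.coeff_add]

theorem UU_natCast_mul (p : ℕ) [Fact p.Prime] {R : Type} [CommRing R] (a : ℕ)
    (s : LaurentSeries R) : UU p R ((a : LaurentSeries R) * s) = (a : LaurentSeries R) * UU p R s := by
  ext n
  rw [natCast_mul_coeff, UU_coeff, UU_coeff, natCast_mul_coeff]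

theorem main : LSBasic → HeckeZ → Basis → Seq := by
  intro hLS hHe hBa p hp i hi P hP L hL n l hn
  obtain ⟨hV1, hV2, -, hqD, hq4, hq6, -, hUV, -⟩ := hLS p ℤ_[p]
  have hp0 : 0 < p := hp.out.pos
  have hr : rr i < 12 := by
    fin_cases i <;> simp_all [rr]
  set A : LaurentSeries ℤ_[p] := ls (bb ℤ_[p] i) * Di ℤ_[p] with hA
  set K : ℕ := 12 * 1 + 1 - rr i with hK
  have hK1 : 1 ≤ K := by omega
  let f : ℕ → LaurentSeries ℤ_[p] := fun m => A * aeval (jj ℤ_[p]) (P m)
  let Pd : ℕ → ℤ_[p][X] := fun m => if p ∣ m then P (m / p) else 0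
  let G : ℕ → LaurentSeries ℤ_[p] := fun m =>
    UU p ℤ_[p] (f m) - A * aeval (jj ℤ_[p]) (Pd m)
  have hf : ∀ m, 1 ≤ m → ∀ n : ℤ, n < 0 → (f m).coeff n = if n = -(m : ℤ) then 1 else 0 :=
    fun m hm => hP m hm
  have hu := (hBa ℤ_[p] i hi).2
  have hkey : ∀ m, 1 ≤ m → f (p * m) - VV p ℤ_[p] (f m) = (p : LaurentSeries ℤ_[p]) ^ K * G m := by
    intro m hm
    obtain ⟨Q, hQ⟩ := hHe p ℤ_[p] i 1 (by omega) (P m)
    rw [pow_one, ← hA, ← hK] at hQ
    have hQ' : VV p ℤ_[p] (f m) + (p : LaurentSeries ℤ_[p]) ^ K * UU p ℤ_[p] (f m) =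
        A * aeval (jj ℤ_[p]) Q := hQ
    have h1 : Q - P (p * m) - (p : ℤ_[p][X]) ^ K * Pd m = 0 := by
      apply hu
      intro n hn
      have h2 : A * aeval (jj ℤ_[p]) (Q - P (p * m) - (p : ℤ_[p][X]) ^ K * Pd m) =
          VV p ℤ_[p] (f m) - f (p * m) + ((p ^ K : ℕ) : LaurentSeries ℤ_[p]) * G m := by
        rw [map_sub, map_sub, map_mul, map_pow, map_natCast, Nat.cast_pow]
        show _ = VV p ℤ_[p] (f m) - A * aeval (jj ℤ_[p]) (P (p * m)) +
          (p : LaurentSeries ℤ_[p]) ^ K *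
            (UU p ℤ_[p] (f m) - A * aeval (jj ℤ_[p]) (Pd m))
        linear_combination -hQ'
      rw [h2, HahnSeries.coeff_add, HahnSeries.coeff_sub, natCast_mul_coeff]
      have h3 : (VV p ℤ_[p] (f m)).coeff n = (f (p * m)).coeff n := by
        rw [hf (p * m) (Nat.one_le_iff_ne_zero.2 (by positivity)) n hn]
        by_cases hd : (p : ℤ) ∣ n
        · obtain ⟨n', rfl⟩ := hd
          have hn' : n' < 0 := by
            by_contra h
            push Not at h
            have : (0 : ℤ) ≤ p * n' := by positivity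
            linarith
          rw [hV1, hf m hm n' hn']
          have hiff : ((p : ℤ) * n' = -((p * m : ℕ) : ℤ)) ↔ n' = -(m : ℤ) := by
            have hp1 : (p : ℤ) ≠ 0 := by exact_mod_cast hp0.ne'
            push_cast
            constructor
            · intro h
              apply mul_left_cancel₀ hp1
              rw [h]
              ring
            · rintro rfl
              ring
          simp only [hiff]
        · rw [hV2 _ _ hd, if_neg]
          intro h
          apply hd
          rw [h]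
          exact ⟨-(m : ℤ), by push_cast; ring⟩
      have h4 : (G m).coeff n = 0 := by
        show (UU p ℤ_[p] (f m) - A * aeval (jj ℤ_[p]) (Pd m)).coeff n = 0
        have hpn : (p : ℤ) * n < 0 := by
          have : (0 : ℤ) < p := by exact_mod_cast hp0
          exact mul_neg_of_pos_of_neg this hn
        rw [HahnSeries.coeff_sub, UU_coeff, hf m hm _ hpn]
        by_cases hd : p ∣ m
        · obtain ⟨m', rfl⟩ := hd
          have e1 : Pd (p * m') = P m' := by
            show (if p ∣ p * m' then P (p * m' / p) else 0) = P m'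
            rw [if_pos (dvd_mul_right _ _), Nat.mul_div_cancel_left _ hp0]
          have hm' : 1 ≤ m' := by
            rcases Nat.eq_zero_or_pos m' with h | h
            · rw [h, mul_zero] at hm
              omega
            · exact h
          rw [e1]
          have e2 : (A * aeval (jj ℤ_[p]) (P m')).coeff n = if n = -(m' : ℤ) then 1 else 0 :=
            hf m' hm' n hn
          rw [e2]
          have hiff : ((p : ℤ) * n = -((p * m' : ℕ) : ℤ)) ↔ n = -(m' : ℤ) := by
            have hp1 : (p : ℤ) ≠ 0 := by exact_mod_cast hp0.ne'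
            push_cast
            constructor
            · intro h
              apply mul_left_cancel₀ hp1
              rw [h]
              ring
            · rintro rfl
              ring
          simp only [hiff, sub_self]
        · have e1 : Pd m = 0 := if_neg hd
          rw [e1, map_zero, mul_zero, HahnSeries.coeff_zero, sub_zero, if_neg]
          intro h
          apply hd
          have : (p : ℤ) ∣ (m : ℤ) := ⟨-n, by linarith⟩
          exact_mod_cast this
      rw [h3, h4, sub_self, mul_zero, add_zero]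
    have h2 : A * aeval (jj ℤ_[p]) Q = f (p * m) + (p : LaurentSeries ℤ_[p]) ^ K *
        (A * aeval (jj ℤ_[p]) (Pd m)) := by
      have h3 : Q = P (p * m) + (p : ℤ_[p][X]) ^ K * Pd m := by
        linear_combination h1
      rw [h3, map_add, map_mul, map_pow, map_natCast]
      show _ = A * aeval (jj ℤ_[p]) (P (p * m)) + _
      ring
    show f (p * m) - VV p ℤ_[p] (f m) = (p : LaurentSeries ℤ_[p]) ^ K *
      (UU p ℤ_[p] (f m) - A * aeval (jj ℤ_[p]) (Pd m))
    linear_combination -hQ' - h2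
  have hstep : ∀ m, 1 ≤ m → G (p * m) = (p : LaurentSeries ℤ_[p]) ^ K * UU p ℤ_[p] (G m) := by
    intro m hm
    have e1 : Pd (p * m) = P m := by
      show (if p ∣ p * m then P (p * m / p) else 0) = P m
      rw [if_pos (dvd_mul_right _ _), Nat.mul_div_cancel_left _ hp0]
    have e2 : f (p * m) = VV p ℤ_[p] (f m) + ((p ^ K : ℕ) : LaurentSeries ℤ_[p]) * G m := by
      rw [Nat.cast_pow, ← hkey m hm]
      ring
    show UU p ℤ_[p] (f (p * m)) - A * aeval (jj ℤ_[p]) (Pd (p * m)) = _
    rw [e1, e2, UU_add, hUV, UU_natCast_mul, Nat.cast_pow]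
    show f m + _ - f m = _
    ring
  have hG : ∀ l : ℕ, ∃ e : LaurentSeries ℤ_[p],
      G (n * p ^ l) = (p : LaurentSeries ℤ_[p]) ^ (K * l) * e := by
    intro l
    induction l with
    | zero =>
      refine ⟨G (n * p ^ 0), ?_⟩
      have h0 : (p : LaurentSeries ℤ_[p]) ^ (K * 0) = 1 := by rw [mul_zero]; exact pow_zero _
      rw [h0, one_mul]
    | succ l ih =>
      obtain ⟨e, he⟩ := ih
      refine ⟨UU p ℤ_[p] e, ?_⟩
      have h1 : n * p ^ (l + 1) = p * (n * p ^ l) := by ring
      have h2 : 1 ≤ n * p ^ l := Nat.one_le_iff_ne_zero.2 (by positivity)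
      rw [h1, hstep _ h2, he]
      have h3 : (p : LaurentSeries ℤ_[p]) ^ (K * l) = ((p ^ (K * l) : ℕ) : LaurentSeries ℤ_[p]) := by
        rw [Nat.cast_pow]
      rw [h3, UU_natCast_mul, ← h3]
      ring
  obtain ⟨e, he⟩ := hG l
  have h2 : 1 ≤ n * p ^ l := Nat.one_le_iff_ne_zero.2 (by positivity)
  have h1 : n * p ^ (l + 1) = p * (n * p ^ l) := by ring
  have h3 := hkey _ h2
  rw [he] at h3
  -- the unit
  have hAu : ∃ B : LaurentSeries ℤ_[p], B * A = 1 := by
    have u4 : IsUnit (ls (q4 ℤ_[p])) := IsUnit.of_mul_eq_one _ hq4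
    have u6 : IsUnit (ls (q6 ℤ_[p])) := IsUnit.of_mul_eq_one _ hq6
    have uD : IsUnit (Di ℤ_[p]) := IsUnit.of_mul_eq_one_right _ hqD
    have hmul : ∀ a b : PowerSeries ℤ_[p], ls (a * b) = ls a * ls b := fun a b => map_mul _ a b
    have hone : ls (1 : PowerSeries ℤ_[p]) = 1 := map_one _
    have ub : IsUnit (ls (bb ℤ_[p] i)) := by
      have hall : ∀ j : Fin 6, IsUnit (ls (bb ℤ_[p] j)) := by
        intro j
        fin_cases j
        · show IsUnit (ls 1)
          rw [hone]
          exact isUnit_one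
        · exact u4
        · exact u6
        · show IsUnit (ls (q4 ℤ_[p] ^ 2))
          rw [pow_two, hmul]
          exact u4.mul u4
        · show IsUnit (ls (q4 ℤ_[p] * q6 ℤ_[p]))
          rw [hmul]
          exact u4.mul u6
        · show IsUnit (ls (q4 ℤ_[p] ^ 2 * q6 ℤ_[p]))
          rw [pow_two, hmul, hmul]
          exact (u4.mul u4).mul u6
      exact hall i
    obtain ⟨B, hB⟩ := (ub.mul uD).exists_left_inv
    exact ⟨B, hB⟩
  obtain ⟨B, hB⟩ := hAu
  refine ⟨B * ((p : LaurentSeries ℤ_[p]) ^ ((K - 1) * (l + 1)) * e), ?_⟩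
  have h4 : (p : LaurentSeries ℤ_[p]) ^ K * ((p : LaurentSeries ℤ_[p]) ^ (K * l) * e) =
      (p : LaurentSeries ℤ_[p]) ^ (l + 1) *
        ((p : LaurentSeries ℤ_[p]) ^ ((K - 1) * (l + 1)) * e) := by
    rw [← mul_assoc, ← mul_assoc, ← pow_add, ← pow_add]
    congr 2
    obtain ⟨k, hk⟩ : ∃ k, K = k + 1 := ⟨K - 1, by omega⟩
    rw [hk, Nat.add_sub_cancel]
    ring
  rw [h4] at h3
  have h5 : VV p ℤ_[p] (f (n * p ^ l)) = L * A * VV p ℤ_[p] (aeval (jj ℤ_[p]) (P (n * p ^ l))) := by
    show VV p ℤ_[p] (A * aeval (jj ℤ_[p]) (P (n * p ^ l))) = _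
    rw [map_mul, ← hL]
  rw [h5] at h3
  have h6 : f (p * (n * p ^ l)) = A * aeval (jj ℤ_[p]) (P (n * p ^ (l + 1))) := by
    rw [h1]
  rw [h6] at h3
  linear_combination B * h3 + (-aeval (jj ℤ_[p]) (P (n * p ^ (l + 1))) +
    L * VV p ℤ_[p] (aeval (jj ℤ_[p]) (P (n * p ^ l)))) * hB

end

end Pool.Agent.H803.OCSeq
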