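import Pool.Agent.H465.OC.StmC
import Pool.Graph.R_pool_sql_team_seeded_3997aac3.Q237.SX.Hecke

/-!
# Project OC, task C2: the structure of weakly holomorphic forms with rational coefficients
-/

set_option autoImplicit false

noncomputable section

open UpperHalfPlane hiding I
open ModularForm MatrixGroups EisensteinSeries
open Pool.Agent.Q279.SC Pool.Agent.Q237.SX Pool.Agent.H465.OC

namespace Pool.Agent.H803.OCWHol

open Polynomial (aeval)

/-- exponents of `E_4` -/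
def al : Fin 6 → ℕ := ![0, 1, 0, 2, 1, 2]

/-- exponents of `E_6` -/
def be : Fin 6 → ℕ := ![0, 0, 1, 0, 1, 1]

theorem rr_eq (i : Fin 6) : rr i = 4 * al i + 6 * be i := by
  fin_cases i <;> rfl

theorem bb_eq (R : Type) [CommRing R] (i : Fin 6) : bb R i = q4 R ^ al i * q6 R ^ be i := by
  fin_cases i
  · show (1 : PowerSeries R) = q4 R ^ 0 * q6 R ^ 0
    ring
  · show q4 R = q4 R ^ 1 * q6 R ^ 0
    ring
  · show q6 R = q4 R ^ 0 * q6 R ^ 1
    ring
  · show q4 R ^ 2 = q4 R ^ 2 * q6 R ^ 0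
    ring
  · show q4 R * q6 R = q4 R ^ 1 * q6 R ^ 1
    ring
  · show q4 R ^ 2 * q6 R = q4 R ^ 2 * q6 R ^ 1
    ring

theorem bC_eq (i : Fin 6) (τ : ℍ) : bC i τ = E₄ τ ^ al i * E₆ τ ^ be i := by
  fin_cases i
  · show (1 : ℂ) = E₄ τ ^ 0 * E₆ τ ^ 0
    ring
  · show E₄ τ = E₄ τ ^ 1 * E₆ τ ^ 0
    ring
  · show E₆ τ = E₄ τ ^ 0 * E₆ τ ^ 1
    ring
  · show E₄ τ ^ 2 = E₄ τ ^ 2 * E₆ τ ^ 0
    ring
  · show E₄ τ * E₆ τ = E₄ τ ^ 1 * E₆ τ ^ 1
    ring
  · show E₄ τ ^ 2 * E₆ τ = E₄ τ ^ 2 * E₆ τ ^ 1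
    ring

/-- rational power series as complex power series -/
abbrev mp : PowerSeries ℚ →+* PowerSeries ℂ := PowerSeries.map (algebraMap ℚ ℂ)

theorem mp_int (f : PowerSeries ℤ) : mp (PowerSeries.map (Int.castRingHom ℚ) f) =
    PowerSeries.map (Int.castRingHom ℂ) f := by
  ext m
  rw [PowerSeries.coeff_map, PowerSeries.coeff_map, PowerSeries.coeff_map]
  simp

theorem mp_q4 : mp (q4 ℚ) = q4 ℂ := mp_int _

theorem mp_q6 : mp (q6 ℚ) = q6 ℂ := mp_int _

theorem mp_qD : mp (qD ℚ) = qD ℂ := mp_int _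

theorem mp_qd : mp (qd ℚ) = qd ℂ := mp_int _

theorem coeff0_q4 : PowerSeries.coeff 0 (q4 ℂ) = 1 := by rw [coeff_q4, if_pos rfl]

theorem coeff0_q6 : PowerSeries.coeff 0 (q6 ℂ) = 1 := by rw [coeff_q6, if_pos rfl]

theorem of_coeff0 {f : PowerSeries ℚ} (h : PowerSeries.coeff 0 (mp f) = 1) :
    PowerSeries.constantCoeff f = 1 := by
  rw [PowerSeries.coeff_map] at h
  rw [← PowerSeries.coeff_zero_eq_constantCoeff_apply]
  apply (algebraMap ℚ ℂ).injective
  rw [h, map_one]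

theorem c0_prod (i : Fin 6) (n : ℕ) : PowerSeries.coeff 0 (bb ℚ i * q4 ℚ ^ n) = 1 := by
  have h4 := of_coeff0 (f := q4 ℚ) (by rw [mp_q4, coeff0_q4])
  have h6 := of_coeff0 (f := q6 ℚ) (by rw [mp_q6, coeff0_q6])
  rw [bb_eq, PowerSeries.coeff_zero_eq_constantCoeff_apply, map_mul, map_mul, map_pow, map_pow,
    map_pow, h4, h6]
  ring

/-- division by `Δ` -/
theorem div_delta (k : ℤ) (F : ModularForm 𝒮ℒ k) (a : PowerSeries ℚ) (hF : HQ F (mp a))
    (h0 : PowerSeries.coeff 0 a = 0) : ∃ (G : ModularForm 𝒮ℒ (k - 12)) (b : PowerSeries ℚ),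
    HQ G (mp b) ∧ ∀ τ, F τ = ModularForm.discriminant τ * G τ := by
  have hqF : qExpansion 1 F = mp a := (HQ.of_mf F).unique hF
  have hcusp : (qExpansion 1 F).coeff 0 = 0 := by
    rw [hqF, PowerSeries.coeff_map, h0, map_zero]
  set G : ModularForm 𝒮ℒ (k - 12) := CuspForm.discriminantEquiv (toCuspForm F hcusp) with hG
  have hFG : ∀ τ, ModularForm.discriminant τ * G τ = F τ := fun τ =>
    discriminant_mul_discriminantEquiv_apply (toCuspForm F hcusp) τ
  have hGq : HQ G (qExpansion 1 G) := HQ.of_mf G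
  have hprod : mp a = qD ℂ * qExpansion 1 G := hF.unique ((hqD.mul hGq).congr hFG)
  obtain ⟨u, hu⟩ := zd_unit
  have huC : qd ℂ * PowerSeries.map (Int.castRingHom ℂ) u = 1 := by
    unfold qd
    rw [← map_mul, hu, map_one]
  obtain ⟨a₁, ha₁⟩ := PowerSeries.X_dvd_iff.2
    (show PowerSeries.constantCoeff a = 0 by
      rw [← PowerSeries.coeff_zero_eq_constantCoeff_apply, h0])
  refine ⟨G, a₁ * PowerSeries.map (Int.castRingHom ℚ) u, ?_, fun τ => (hFG τ).symm⟩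
  have h1 : mp (a₁ * PowerSeries.map (Int.castRingHom ℚ) u) = qExpansion 1 G := by
    rw [map_mul, mp_int]
    apply mul_left_cancel₀ (PowerSeries.X_ne_zero (R := ℂ))
    have h2 : PowerSeries.X * mp a₁ = mp a := by
      rw [ha₁, map_mul, PowerSeries.map_X]
    rw [← mul_assoc, h2, hprod, qD_X]
    linear_combination (PowerSeries.X * qExpansion 1 G) * huC
  rw [h1]
  exact hGq

/-- `b_i E_4^(3 m)` -/
theorem exists_mm (i : Fin 6) (m : ℕ) : ∃ M : ModularForm 𝒮ℒ ((rr i + 12 * m : ℕ) : ℤ),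
    (∀ τ, M τ = bC i τ * E₄ τ ^ (3 * m)) ∧ HQ M (mp (bb ℚ i * q4 ℚ ^ (3 * m))) := by
  have hwt : ((al i + 3 * m : ℕ) : ℤ) * 4 + ((be i : ℕ) : ℤ) * 6 = ((rr i + 12 * m : ℕ) : ℤ) := by
    rw [rr_eq]
    push_cast
    ring
  set M : ModularForm 𝒮ℒ ((rr i + 12 * m : ℕ) : ℤ) := ModularForm.mcast hwt
    ((E₄.pow (al i + 3 * m)).mul (E₆.pow (be i))) with hM
  have h1 : ∀ τ, M τ = bC i τ * E₄ τ ^ (3 * m) := by
    intro τ
    change (⇑(E₄.pow (al i + 3 * m)) * ⇑(E₆.pow (be i))) τ = _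
    rw [ModularForm.coe_pow, ModularForm.coe_pow, bC_eq]
    change E₄ τ ^ (al i + 3 * m) * E₆ τ ^ be i = _
    ring
  refine ⟨M, h1, ?_⟩
  have h2 : mp (bb ℚ i * q4 ℚ ^ (3 * m)) = q4 ℂ ^ al i * q6 ℂ ^ be i * q4 ℂ ^ (3 * m) := by
    rw [bb_eq, map_mul, map_mul, map_pow, map_pow, map_pow, mp_q4, mp_q6]
  rw [h2]
  refine (((hq4.pow (al i)).mul (hq6.pow (be i))).mul (hq4.pow (3 * m))).congr fun τ => ?_
  rw [h1, bC_eq]

/-- a form of weight `rr i - 12` vanishes -/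
theorem neg_zero (i : Fin 6) (G : ModularForm 𝒮ℒ (((rr i + 12 * 0 : ℕ) : ℤ) - 12)) (τ : ℍ) :
    G τ = 0 := by
  by_cases hi : rr i < 12
  · have h1 : (((rr i + 12 * 0 : ℕ) : ℤ) - 12) < 0 := by push_cast; omega
    have h2 : (G : ℍ → ℂ) = 0 := ModularFormClass.levelOne_neg_weight_eq_zero h1 G
    rw [h2]
    rfl
  · have h14 : rr i = 14 := by
      revert hi
      fin_cases i <;> simp [rr]
    have h1 : ModularForm.mcast (b := 2) (by rw [h14]; norm_num) G = 0 :=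
      rank_zero_iff_forall_zero.mp ModularForm.levelOne_weight_two_rank_zero _
    have h3 := congrArg (fun f : ModularForm 𝒮ℒ 2 => f τ) h1
    exact h3

theorem j_pow (i : Fin 6) (m : ℕ) (τ : ℍ) :
    bC i τ * E₄ τ ^ (3 * m) = bC i τ * ModularForm.discriminant τ ^ m * jC τ ^ m := by
  have hz := discriminant_ne_zero τ
  unfold jC
  rw [div_pow, ← pow_mul]
  field_simp

/-- the main induction -/
theorem aux (i : Fin 6) (m : ℕ) : ∀ (F : ModularForm 𝒮ℒ ((rr i + 12 * m : ℕ) : ℤ))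
    (a : PowerSeries ℚ), HQ F (mp a) →
    ∃ Q : Polynomial ℚ, ∀ τ, F τ = bC i τ * ModularForm.discriminant τ ^ m * aeval (jC τ) Q := by
  induction m with
  | zero =>
    intro F a hF
    obtain ⟨M, hM1, hM2⟩ := exists_mm i 0
    set c₀ : ℚ := PowerSeries.coeff 0 a with hc₀
    have hF' : HQ (⇑(F - (c₀ : ℂ) • M)) (mp (a - PowerSeries.C c₀ * (bb ℚ i * q4 ℚ ^ (3 * 0)))) := by
      have h1 : mp (a - PowerSeries.C c₀ * (bb ℚ i * q4 ℚ ^ (3 * 0))) =
          mp a - PowerSeries.C (c₀ : ℂ) * mp (bb ℚ i * q4 ℚ ^ (3 * 0)) := by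
        rw [map_sub, map_mul, PowerSeries.map_C]
        rfl
      rw [h1]
      exact (hF.sub (hM2.smul _)).congr fun τ => rfl
    have h0 : PowerSeries.coeff 0 (a - PowerSeries.C c₀ * (bb ℚ i * q4 ℚ ^ (3 * 0))) = 0 := by
      rw [map_sub, PowerSeries.coeff_C_mul, c0_prod, mul_one, sub_self]
    obtain ⟨G, b, -, hG⟩ := div_delta _ _ _ hF' h0
    refine ⟨Polynomial.C c₀, fun τ => ?_⟩
    have h1 := neg_zero i G τ
    have h2 : F τ - (c₀ : ℂ) * M τ = ModularForm.discriminant τ * G τ := hG τ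
    rw [hM1, j_pow] at h2
    rw [Polynomial.aeval_C]
    have h3 : algebraMap ℚ ℂ c₀ = (c₀ : ℂ) := rfl
    rw [h3]
    linear_combination h2 + ModularForm.discriminant τ * h1
  | succ m ih =>
    intro F a hF
    obtain ⟨M, hM1, hM2⟩ := exists_mm i (m + 1)
    set c₀ : ℚ := PowerSeries.coeff 0 a with hc₀
    have hF' : HQ (⇑(F - (c₀ : ℂ) • M))
        (mp (a - PowerSeries.C c₀ * (bb ℚ i * q4 ℚ ^ (3 * (m + 1))))) := by
      have h1 : mp (a - PowerSeries.C c₀ * (bb ℚ i * q4 ℚ ^ (3 * (m + 1)))) =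
          mp a - PowerSeries.C (c₀ : ℂ) * mp (bb ℚ i * q4 ℚ ^ (3 * (m + 1))) := by
        rw [map_sub, map_mul, PowerSeries.map_C]
        rfl
      rw [h1]
      exact (hF.sub (hM2.smul _)).congr fun τ => rfl
    have h0 : PowerSeries.coeff 0
        (a - PowerSeries.C c₀ * (bb ℚ i * q4 ℚ ^ (3 * (m + 1)))) = 0 := by
      rw [map_sub, PowerSeries.coeff_C_mul, c0_prod, mul_one, sub_self]
    obtain ⟨G, b, hGb, hG⟩ := div_delta _ _ _ hF' h0
    have hkk : ((rr i + 12 * (m + 1) : ℕ) : ℤ) - 12 = ((rr i + 12 * m : ℕ) : ℤ) := by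
      push_cast
      ring
    obtain ⟨Q, hQ⟩ := ih (ModularForm.mcast hkk G) b (hGb.congr fun τ => rfl)
    refine ⟨Polynomial.C c₀ * Polynomial.X ^ (m + 1) + Q, fun τ => ?_⟩
    have h1 := hG τ
    have h2 : F τ - (c₀ : ℂ) * M τ = ModularForm.discriminant τ * G τ := h1
    have h4 : G τ = bC i τ * ModularForm.discriminant τ ^ m * aeval (jC τ) Q := hQ τ
    rw [hM1, j_pow, h4] at h2
    rw [map_add, map_mul, map_pow, Polynomial.aeval_C, Polynomial.aeval_X]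
    have h3 : algebraMap ℚ ℂ c₀ = (c₀ : ℂ) := rfl
    rw [h3]
    linear_combination h2

theorem lmap_coeff {R S : Type} [CommRing R] [CommRing S] (φ : R →+* S) (s : LaurentSeries R)
    (n : ℤ) : (lmap φ s).coeff n = φ (s.coeff n) := rfl

theorem lmap_inj {s t : LaurentSeries ℚ}
    (h : lmap (algebraMap ℚ ℂ) s = lmap (algebraMap ℚ ℂ) t) : s = t := by
  ext n
  apply (algebraMap ℚ ℂ).injective
  rw [← lmap_coeff, ← lmap_coeff, h]

theorem single_mul_ls_coeff {R : Type} [CommRing R] (n : ℕ) (a : PowerSeries R) (m : ℕ) :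
    (HahnSeries.single (-(n : ℤ)) (1 : R) * ls a).coeff ((m : ℤ) - n) =
      PowerSeries.coeff m a := by
  have h1 : (m : ℤ) - n = m + -(n : ℤ) := by ring
  rw [h1, HahnSeries.coeff_single_mul_add, one_mul]
  exact HahnSeries.ofPowerSeries_apply_coeff a m

theorem main : HLB → WHol := by
  intro hB i s F x hInv hHL
  obtain ⟨hU, -, -, -, hfC⟩ := hB
  obtain ⟨n, a, hx, hF⟩ := hHL
  set aQ : PowerSeries ℚ := PowerSeries.mk fun m => x.coeff ((m : ℤ) - n) with haQ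
  have ha : mp aQ = a := by
    ext m
    rw [PowerSeries.coeff_map, haQ, PowerSeries.coeff_mk, ← lmap_coeff, hx, single_mul_ls_coeff]
  set t : ℕ := s.natAbs with ht
  set N : ℕ := n + t with hN
  obtain ⟨m, hm⟩ : ∃ m : ℕ, (m : ℤ) = s + N := ⟨(s + N).toNat, by omega⟩
  -- the modular form
  have hdivX : HQ (fun τ => ModularForm.discriminant τ / qq τ) (qd ℂ) := by
    apply HQ.divX
    rw [← qD_X]
    exact hqD
  have hG : HQ (fun τ => F τ * ModularForm.discriminant τ ^ N) (mp (aQ * qd ℚ ^ n * qD ℚ ^ t)) := by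
    rw [map_mul, map_mul, map_pow, map_pow, ha, mp_qd, mp_qD]
    refine ((hF.mul (hdivX.pow n)).mul (hqD.pow t)).congr fun τ => ?_
    have hq := qq_ne τ
    rw [hN, pow_add, div_pow]
    field_simp
  have hS : (fun τ => F τ * ModularForm.discriminant τ ^ N) ∣[((rr i + 12 * m : ℕ) : ℤ)]
      ModularGroup.S = (fun τ => F τ * ModularForm.discriminant τ ^ N) := by
    funext τ
    rw [ModularForm.SL_slash_apply]
    have hτ : (τ : ℂ) ≠ 0 := ne_zero τ
    have hd : denom ModularGroup.S τ = (τ : ℂ) := by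
      rw [ModularGroup.denom_S]
    rw [hd]
    have hmove : ((ModularGroup.S • τ : ℍ) : ℂ) * (((1 : ℤ) : ℂ) * τ + ((0 : ℤ) : ℂ)) =
        ((0 : ℤ) : ℂ) * τ + ((-1 : ℤ) : ℂ) := by
      rw [coe_S]
      push_cast
      field_simp
      ring
    obtain ⟨h3, -⟩ := mf_move (k := 12) CuspForm.discriminant 0 (-1) 1 0 (by norm_num) τ
      (ModularGroup.S • τ) hmove
    have h4 := hInv 0 (-1) 1 0 (by norm_num) τ (ModularGroup.S • τ) hmove
    rw [CuspForm.coe_discriminant] at h3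
    have h5 : ((1 : ℤ) : ℂ) * (τ : ℂ) + ((0 : ℤ) : ℂ) = τ := by
      push_cast
      ring
    rw [h5] at h3 h4
    show F (ModularGroup.S • τ) * ModularForm.discriminant (ModularGroup.S • τ) ^ N *
      (τ : ℂ) ^ (-((rr i + 12 * m : ℕ) : ℤ)) = _
    rw [h3, h4]
    have h6 : ((rr i + 12 * m : ℕ) : ℤ) = wt i s + 12 * (N : ℤ) := by
      unfold wt
      push_cast
      rw [hm]
      ring
    rw [h6, zpow_neg, zpow_add₀ hτ, mul_pow, ← zpow_natCast ((τ : ℂ) ^ (12 : ℤ)) N, ← zpow_mul]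
    have h7 : (τ : ℂ) ^ wt i s ≠ 0 := zpow_ne_zero _ hτ
    have h8 : (τ : ℂ) ^ (12 * (N : ℤ)) ≠ 0 := zpow_ne_zero _ hτ
    field_simp
  obtain ⟨Q, hQ⟩ := aux i m (hG.toMF _ hS) _ (hG.congr fun τ => rfl)
  have hFQ : ∀ τ, F τ = fC i s Q τ := by
    intro τ
    have h1 : F τ * ModularForm.discriminant τ ^ N =
        bC i τ * ModularForm.discriminant τ ^ m * aeval (jC τ) Q := hQ τ
    have hz := discriminant_ne_zero τ
    have h2 : ModularForm.discriminant τ ^ m =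
        ModularForm.discriminant τ ^ s * ModularForm.discriminant τ ^ N := by
      rw [← zpow_natCast, hm, zpow_add₀ hz, zpow_natCast]
    rw [h2] at h1
    unfold fC
    apply mul_right_cancel₀ (pow_ne_zero N hz)
    rw [h1]
    ring
  refine ⟨Q, ?_, hFQ⟩
  apply lmap_inj
  have h1 := (hfC i s Q).2
  have h2 : F = fC i s Q := funext hFQ
  rw [← h2] at h1
  exact hU F _ _ ⟨n, a, hx, hF⟩ h1

end Pool.Agent.H803.OCWHol
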