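import Pool.Agent.H546.APStm

/-!
# The differential equation of an explicit hypergeometric polynomial
-/

set_option autoImplicit false

namespace Pool.Agent.H803.AP3

open Polynomial Finset
open Pool.Agent.H546.AP (bq S_bode)

/-- the coefficients -/
def aa (e m : ℕ) : ℕ := e.choose (2 * m) * (2 * m).choose m * 2 ^ (e - 2 * m)

theorem aa_succ (e m : ℕ) :
    4 * ((m : ℤ) + 1) ^ 2 * aa e (m + 1) = ((e : ℤ) - 2 * m) * (e - 2 * m - 1) * aa e m := by
  rcases lt_or_ge e (2 * m + 2) with h | h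
  · have h1 : aa e (m + 1) = 0 := by
      unfold aa
      rw [Nat.choose_eq_zero_of_lt (by omega : e < 2 * (m + 1))]
      simp
    rw [h1]
    rcases lt_or_ge e (2 * m) with h2 | h2
    · have h3 : aa e m = 0 := by
        unfold aa
        rw [Nat.choose_eq_zero_of_lt h2]
        simp
      rw [h3]
      simp
    · obtain rfl | rfl : e = 2 * m ∨ e = 2 * m + 1 := by omega
      · push_cast
        ring
      · push_cast
        ring
  · obtain ⟨k, rfl⟩ : ∃ k, e = 2 * m + 2 + k := ⟨e - (2 * m + 2), by omega⟩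
    have h1 := Nat.choose_succ_right_eq (2 * m + 2 + k) (2 * m)
    have h2 := Nat.choose_succ_right_eq (2 * m + 2 + k) (2 * m + 1)
    have h3 := Nat.succ_mul_centralBinom_succ m
    rw [Nat.centralBinom_eq_two_mul_choose, Nat.centralBinom_eq_two_mul_choose] at h3
    have e1 : 2 * m + 2 + k - 2 * m = k + 2 := by omega
    have e2 : 2 * m + 2 + k - (2 * m + 1) = k + 1 := by omega
    have e3 : 2 * m + 2 + k - 2 * (m + 1) = k := by omega
    have e4 : 2 * m + 1 + 1 = 2 * (m + 1) := by ring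
    rw [e1] at h1
    rw [e2, e4] at h2
    unfold aa
    rw [e1, e3]
    zify at h1 h2 h3
    push_cast
    generalize (((2 * m + 2 + k).choose (2 * (m + 1)) : ℕ) : ℤ) = x2 at h2 ⊢
    generalize (((2 * m + 2 + k).choose (2 * m + 1) : ℕ) : ℤ) = x1 at h1 h2
    generalize (((2 * m + 2 + k).choose (2 * m) : ℕ) : ℤ) = x0 at h1 ⊢
    generalize (((2 * (m + 1)).choose (m + 1) : ℕ) : ℤ) = c1 at h3 ⊢
    generalize (((2 * m).choose m : ℕ) : ℤ) = c0 at h3 ⊢
    rw [pow_add]
    have h4 : (2 * (m : ℤ) + 1) * (2 * (m + 1)) * x2 = (k + 1) * (k + 2) * x0 := by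
      linear_combination (2 * (m : ℤ) + 1) * h2 + (k + 1) * h1
    have h5 : ((m : ℤ) + 1) * c1 = 2 * (2 * m + 1) * c0 := h3
    linear_combination (4 * ((m : ℤ) + 1) * x2 * 2 ^ k) * h5 + 4 * 2 ^ k * c0 * h4

variable {A : Type} [CommRing A]

/-- the differential operator -/
noncomputable def LL (p : A[X]) (y : A[X]) : A[X] :=
  16 * X * (1 - X) * derivative (derivative y) + 16 * (1 - 2 * X) * derivative y - 3 * y -
    (8 * p * (1 - X) * derivative y - 4 * p * y + p ^ 2 * y)

theorem LL_add (p y z : A[X]) : LL p (y + z) = LL p y + LL p z := by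
  unfold LL
  simp only [map_add]
  ring

theorem LL_C_mul (p : A[X]) (c : A) (y : A[X]) : LL p (C c * y) = C c * LL p y := by
  unfold LL
  simp only [derivative_C_mul]
  ring

theorem LL_pow (p : A[X]) (m : ℕ) :
    LL p ((1 - X) ^ m) = 16 * (m : A[X]) ^ 2 * (1 - X) ^ (m - 1) -
      (16 * (m : A[X]) ^ 2 + 16 * (m : A[X]) + 3 - 8 * p * (m : A[X]) - 4 * p + p ^ 2) * (1 - X) ^ m := by
  unfold LL
  have hd : derivative (1 - X : A[X]) = -1 := by simp
  have hd2 : ∀ n : ℕ, derivative ((1 - X : A[X]) ^ (n + 1)) =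
      -((n + 1 : ℕ) : A[X]) * (1 - X) ^ n := by
    intro n
    rw [derivative_pow, hd, Nat.add_sub_cancel]
    simp only [map_natCast]
    ring
  rcases m with _ | _ | n
  · simp
    ring
  · rw [hd2]
    simp
    ring
  · rw [hd2, derivative_mul, hd2]
    have h1 : derivative (-((n + 1 + 1 : ℕ) : A[X])) = 0 := by
      rw [derivative_neg, derivative_natCast, neg_zero]
    rw [h1, Nat.add_sub_cancel]
    push_cast
    ring

theorem LL_sum (e M : ℕ) :
    LL (((2 * e + 1 : ℕ)) : A[X]) (∑ m ∈ range M, C ((aa e m : ℕ) : A) * (1 - X) ^ m) =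
      -(16 * (M : A[X]) ^ 2 * (C ((aa e M : ℕ) : A)) * (1 - X) ^ (M - 1)) := by
  induction M with
  | zero => simp [LL]
  | succ M ih =>
    rw [sum_range_succ, LL_add, LL_C_mul, ih, LL_pow, Nat.add_sub_cancel]
    have h1 := congrArg (fun z : ℤ => (z : A[X])) (aa_succ e M)
    push_cast at h1
    have h2 : (C ((aa e M : ℕ) : A) : A[X]) = ((aa e M : ℕ) : A[X]) := by simp
    have h3 : (C ((aa e (M + 1) : ℕ) : A) : A[X]) = ((aa e (M + 1) : ℕ) : A[X]) := by simp
    rw [h2, h3]
    push_cast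
    linear_combination (4 * (1 - X : A[X]) ^ M) * h1

theorem h_S_bode : S_bode := by
  intro A _ p e hp
  have h1 := LL_sum (A := A) e (e / 2 + 1)
  have h2 : aa e (e / 2 + 1) = 0 := by
    unfold aa
    rw [Nat.choose_eq_zero_of_lt (by omega : e < 2 * (e / 2 + 1))]
    simp
  rw [h2, Nat.cast_zero, map_zero, mul_zero, zero_mul, neg_zero, ← hp] at h1
  have h3 : (∑ m ∈ range (e / 2 + 1), C ((aa e m : ℕ) : A) * (1 - X) ^ m) = bq A e := rfl
  rw [h3] at h1
  unfold LL at h1
  exact sub_eq_zero.1 h1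

end Pool.Agent.H803.AP3
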