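import Pool.Agent.H803.Prof

set_option autoImplicit false

/-!
The angular profiles.
-/

namespace Pool.Agent.H803

open Real Filter Topology Set
open scoped ContDiff

/-- antiperiodic spike near `s = 0` (mod `π`) -/
noncomputable def spk (d s : ℝ) : ℝ := d * (stp (cos s) * chi (sin (2 * s) / (2 * d)))
/-- its derivative -/
noncomputable def spk1 (d s : ℝ) : ℝ :=
  stp (cos s) * (deriv chi (sin (2 * s) / (2 * d)) * cos (2 * s))
/-- its second derivative -/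
noncomputable def spk2 (d s : ℝ) : ℝ :=
  stp (cos s) * (deriv (deriv chi) (sin (2 * s) / (2 * d)) * cos (2 * s) ^ 2 / d
    - 2 * deriv chi (sin (2 * s) / (2 * d)) * sin (2 * s))

lemma one_le_xi {d s : ℝ} (hd : 0 < d) (hd' : d ≤ 1 / 4) (h : 1 / 4 ≤ 4 * (sin s ^ 2 * cos s ^ 2)) :
    1 ≤ |sin (2 * s) / (2 * d)| := by
  rw [abs_div, abs_of_pos (show (0:ℝ) < 2 * d by positivity), le_div_iff₀ (by positivity), one_mul]
  have h1 : 1 / 4 ≤ sin (2 * s) ^ 2 := by rw [sin_two_mul]; nlinarith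
  have h2 : 1 / 2 ≤ |sin (2 * s)| := by
    apply le_of_sq_le_sq _ (abs_nonneg _)
    rw [sq_abs]; linarith
  linarith

lemma supp1 {d s : ℝ} (hd : 0 < d) (hd' : d ≤ 1 / 4) (h : deriv stp (cos s) ≠ 0) :
    1 ≤ |sin (2 * s) / (2 * d)| := by
  apply one_le_xi hd hd'
  have h1 : 1 / 2 < |cos s| := by
    by_contra h1
    exact h (dstp_zero (not_lt.1 h1))
  have h2 : |cos s| < 3 / 4 := by
    by_contra h2
    exact h (dstp_abs (not_lt.1 h2))
  have h3 : 1 / 4 ≤ cos s ^ 2 := by rw [← sq_abs]; nlinarith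
  have h4 : cos s ^ 2 ≤ 9 / 16 := by rw [← sq_abs]; nlinarith [abs_nonneg (cos s)]
  have h5 : sin s ^ 2 = 1 - cos s ^ 2 := sin_sq s
  rw [h5]
  nlinarith

lemma supp2 {d s : ℝ} (hd : 0 < d) (hd' : d ≤ 1 / 4) (h : 1 / 2 ≤ |sin s|) :
    stp (cos s) = 0 ∨ 1 ≤ |sin (2 * s) / (2 * d)| := by
  rcases le_or_gt |cos s| (1 / 2) with h1 | h1
  · exact Or.inl (stp_zero h1)
  · right
    apply one_le_xi hd hd'
    have h3 : 1 / 4 ≤ cos s ^ 2 := by rw [← sq_abs]; nlinarith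
    have h4 : 1 / 4 ≤ sin s ^ 2 := by rw [← sq_abs]; nlinarith
    nlinarith

lemma spk_has {d : ℝ} (hd : 0 < d) (hd' : d ≤ 1 / 4) (s : ℝ) : HasDerivAt (spk d) (spk1 d s) s := by
  have h1 : HasDerivAt (fun s => stp (cos s)) (deriv stp (cos s) * (-sin s)) s :=
    HasDerivAt.comp s (cd_has stp_cd (cos s)) (hasDerivAt_cos s)
  have h0 : HasDerivAt (fun s : ℝ => 2 * s) 2 s := by simpa using (hasDerivAt_id s).const_mul 2
  have h2 : HasDerivAt (fun s => sin (2 * s) / (2 * d)) (cos (2 * s) * 2 / (2 * d)) s :=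
    (h0.sin).div_const _
  have h3 : HasDerivAt (fun s => chi (sin (2 * s) / (2 * d)))
      (deriv chi (sin (2 * s) / (2 * d)) * (cos (2 * s) * 2 / (2 * d))) s :=
    HasDerivAt.comp s (cd_has chi_cd _) h2
  have h4 : HasDerivAt (spk d) _ s := (h1.mul h3).const_mul d
  refine h4.congr_deriv ?_
  have h5 : deriv stp (cos s) * chi (sin (2 * s) / (2 * d)) = 0 := by
    by_cases h : deriv stp (cos s) = 0
    · rw [h, zero_mul]
    · rw [chi_zero (supp1 hd hd' h), mul_zero]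
  unfold spk1
  have h6 : d * (cos (2 * s) * 2 / (2 * d)) = cos (2 * s) := by field_simp
  linear_combination (-d * sin s) * h5 + (stp (cos s) * deriv chi (sin (2 * s) / (2 * d))) * h6

lemma spk1_has {d : ℝ} (hd : 0 < d) (hd' : d ≤ 1 / 4) (s : ℝ) : HasDerivAt (spk1 d) (spk2 d s) s := by
  have h1 : HasDerivAt (fun s => stp (cos s)) (deriv stp (cos s) * (-sin s)) s :=
    HasDerivAt.comp s (cd_has stp_cd (cos s)) (hasDerivAt_cos s)
  have h0 : HasDerivAt (fun s : ℝ => 2 * s) 2 s := by simpa using (hasDerivAt_id s).const_mul 2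
  have h2 : HasDerivAt (fun s => sin (2 * s) / (2 * d)) (cos (2 * s) * 2 / (2 * d)) s :=
    (h0.sin).div_const _
  have h3 : HasDerivAt (fun s => deriv chi (sin (2 * s) / (2 * d)))
      (deriv (deriv chi) (sin (2 * s) / (2 * d)) * (cos (2 * s) * 2 / (2 * d))) s :=
    HasDerivAt.comp s (cd_has (cd_deriv chi_cd) _) h2
  have h4 : HasDerivAt (spk1 d) _ s := (h1.mul (h3.mul h0.cos))
  refine h4.congr_deriv ?_
  have h5 : deriv stp (cos s) * deriv chi (sin (2 * s) / (2 * d)) = 0 := by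
    by_cases h : deriv stp (cos s) = 0
    · rw [h, zero_mul]
    · rw [dchi_zero (supp1 hd hd' h), mul_zero]
  unfold spk2
  have h6 : (cos (2 * s) * 2 / (2 * d)) = cos (2 * s) / d := by field_simp
  rw [h6]
  linear_combination (-sin s * cos (2 * s)) * h5

lemma spk_zero {d s : ℝ} (hd : 0 < d) (hd' : d ≤ 1 / 4) (h : 1 / 2 ≤ |sin s|) :
    spk d s = 0 ∧ spk1 d s = 0 ∧ spk2 d s = 0 := by
  unfold spk spk1 spk2
  rcases supp2 hd hd' h with h1 | h1
  · rw [h1]; simp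
  · rw [chi_zero h1, dchi_zero h1, ddchi_zero h1]; simp

lemma spk_anti {d : ℝ} (s : ℝ) : spk d (s + π) = - spk d s ∧ spk1 d (s + π) = - spk1 d s ∧
    spk2 d (s + π) = - spk2 d s := by
  have e : 2 * (s + π) = 2 * s + 2 * π := by ring
  unfold spk spk1 spk2
  rw [e, sin_add_two_pi, cos_add_two_pi, cos_add_pi, stp_neg]
  refine ⟨by ring, by ring, by ring⟩

/-- the angular profile -/
noncomputable def psi (M κ d φ : ℝ) : ℝ := cos φ + M * stp (cos (φ - π / 6)) + κ * spk d (φ - π / 3)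
noncomputable def psi1 (M κ d φ : ℝ) : ℝ :=
  -sin φ - M * (deriv stp (cos (φ - π / 6)) * sin (φ - π / 6)) + κ * spk1 d (φ - π / 3)
noncomputable def psi2 (M κ d φ : ℝ) : ℝ :=
  -cos φ + M * (deriv (deriv stp) (cos (φ - π / 6)) * sin (φ - π / 6) ^ 2
    - deriv stp (cos (φ - π / 6)) * cos (φ - π / 6)) + κ * spk2 d (φ - π / 3)
/-- `P = M ψ'' + ψ` -/
noncomputable def pp (M κ d φ : ℝ) : ℝ := M * psi2 M κ d φ + psi M κ d φ

lemma psi_has (M κ : ℝ) {d : ℝ} (hd : 0 < d) (hd' : d ≤ 1 / 4) (φ : ℝ) :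
    HasDerivAt (psi M κ d) (psi1 M κ d φ) φ := by
  have h6 : HasDerivAt (fun φ : ℝ => φ - π / 6) 1 φ := (hasDerivAt_id φ).sub_const _
  have a1 : HasDerivAt (fun φ => stp (cos (φ - π / 6))) (deriv stp (cos (φ - π / 6)) * (-sin (φ - π / 6) * 1)) φ :=
    HasDerivAt.comp φ (cd_has stp_cd _) h6.cos
  have a2 : HasDerivAt (fun φ => spk d (φ - π / 3)) (spk1 d (φ - π / 3)) φ :=
    HasDerivAt.comp_sub_const φ (π / 3) (spk_has hd hd' (φ - π / 3))
  have a3 : HasDerivAt (psi M κ d) _ φ := ((hasDerivAt_cos φ).add (a1.const_mul M)).add (a2.const_mul κ)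
  refine a3.congr_deriv ?_
  unfold psi1
  ring

lemma psi1_has (M κ : ℝ) {d : ℝ} (hd : 0 < d) (hd' : d ≤ 1 / 4) (φ : ℝ) :
    HasDerivAt (psi1 M κ d) (psi2 M κ d φ) φ := by
  have h6 : HasDerivAt (fun φ : ℝ => φ - π / 6) 1 φ := (hasDerivAt_id φ).sub_const _
  have a1 : HasDerivAt (fun φ => deriv stp (cos (φ - π / 6)))
      (deriv (deriv stp) (cos (φ - π / 6)) * (-sin (φ - π / 6) * 1)) φ :=
    HasDerivAt.comp φ (cd_has (cd_deriv stp_cd) _) h6.cos
  have a2 : HasDerivAt (fun φ => spk1 d (φ - π / 3)) (spk2 d (φ - π / 3)) φ :=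
    HasDerivAt.comp_sub_const φ (π / 3) (spk1_has hd hd' (φ - π / 3))
  have a3 : HasDerivAt (psi1 M κ d) _ φ :=
    ((hasDerivAt_sin φ).neg.sub ((a1.mul h6.sin).const_mul M)).add (a2.const_mul κ)
  refine a3.congr_deriv ?_
  unfold psi2
  ring

lemma psi_anti (M κ d φ : ℝ) : psi M κ d (φ + π) = - psi M κ d φ ∧ psi1 M κ d (φ + π) = - psi1 M κ d φ ∧
    psi2 M κ d (φ + π) = - psi2 M κ d φ := by
  have e6 : φ + π - π / 6 = (φ - π / 6) + π := by ring
  have e3 : φ + π - π / 3 = (φ - π / 3) + π := by ring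
  obtain ⟨s0, s1, s2⟩ := spk_anti (d := d) (φ - π / 3)
  unfold psi psi1 psi2
  rw [e6, e3, s0, s1, s2]
  simp only [cos_add_pi, sin_add_pi, stp_neg, dstp_neg, ddstp_neg]
  refine ⟨by ring, by ring, by ring⟩

lemma pp_anti (M κ d φ : ℝ) : pp M κ d (φ + π) = - pp M κ d φ := by
  obtain ⟨s0, s1, s2⟩ := psi_anti M κ d φ
  unfold pp
  rw [s0, s2]; ring

end Pool.Agent.H803
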