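import Mathlib

set_option autoImplicit false

/-!
The Hessian form in logarithmic polar coordinates.
-/

namespace Pool.Agent.H803

open Filter Topology Set
open scoped ContDiff ComplexConjugate

/-- the complex function whose zeros are the umbilics: `f_xx - f_yy + 2 i f_xy` -/
noncomputable def Qf (f : ℂ → ℝ) (z : ℂ) : ℂ :=
  ((iteratedFDeriv ℝ 2 f z ![(1 : ℂ), 1] - iteratedFDeriv ℝ 2 f z ![Complex.I, Complex.I] : ℝ) : ℂ)
    + 2 * ((iteratedFDeriv ℝ 2 f z ![(1 : ℂ), Complex.I] : ℝ) : ℂ) * Complex.I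

/-- second derivative as a bilinear map -/
noncomputable abbrev D2 (f : ℂ → ℝ) (z : ℂ) : ℂ →L[ℝ] ℂ →L[ℝ] ℝ := fderiv ℝ (fderiv ℝ f) z

lemma D2_symm {f : ℂ → ℝ} (hf : ContDiff ℝ ∞ f) (z v w : ℂ) : D2 f z v w = D2 f z w v := by
  have h : IsSymmSndFDerivAt ℝ f z := by
    apply ContDiffAt.isSymmSndFDerivAt (n := ∞) hf.contDiffAt
    simp only [minSmoothness_of_isRCLikeNormedField]
    exact ENat.LEInfty.out
  exact h v w

lemma bil_expand (B : ℂ →L[ℝ] ℂ →L[ℝ] ℝ) (x y u v : ℝ) :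
    B ((x : ℂ) + y * Complex.I) ((u : ℂ) + v * Complex.I)
      = x * u * B 1 1 + x * v * B 1 Complex.I + y * u * B Complex.I 1 + y * v * B Complex.I Complex.I := by
  have e : ∀ a b : ℝ, (a : ℂ) + b * Complex.I = a • (1 : ℂ) + b • Complex.I := by
    intro a b; simp
  rw [e, e]
  simp only [map_add, map_smul, add_apply, smul_apply, smul_eq_mul]
  ring

lemma Qf_conj {f : ℂ → ℝ} (hf : ContDiff ℝ ∞ f) (z : ℂ) :
    conj z ^ 2 * Qf f z = ((D2 f z z z - D2 f z (Complex.I * z) (Complex.I * z) : ℝ) : ℂ)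
      + 2 * ((D2 f z z (Complex.I * z) : ℝ) : ℂ) * Complex.I := by
  unfold Qf
  rw [iteratedFDeriv_two_apply, iteratedFDeriv_two_apply, iteratedFDeriv_two_apply]
  simp only [Matrix.cons_val_zero, Matrix.cons_val_one]
  have hs := D2_symm hf z Complex.I 1
  have ez : z = (z.re : ℂ) + z.im * Complex.I := (Complex.re_add_im z).symm
  have eiz : Complex.I * z = ((-z.im : ℝ) : ℂ) + z.re * Complex.I := by
    conv_lhs => rw [ez]
    push_cast
    linear_combination (z.im : ℂ) * Complex.I_mul_I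
  have ec : conj z = (z.re : ℂ) - z.im * Complex.I := by
    conv_lhs => rw [ez]
    simp only [map_add, map_mul, Complex.conj_ofReal, Complex.conj_I]
    ring
  have h1 : D2 f z z z = z.re * z.re * D2 f z 1 1 + z.re * z.im * D2 f z 1 Complex.I
      + z.im * z.re * D2 f z Complex.I 1 + z.im * z.im * D2 f z Complex.I Complex.I := by
    rw [← bil_expand, ← ez]
  have h2 : D2 f z (Complex.I * z) (Complex.I * z) = (-z.im) * (-z.im) * D2 f z 1 1
      + (-z.im) * z.re * D2 f z 1 Complex.I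
      + z.re * (-z.im) * D2 f z Complex.I 1 + z.re * z.re * D2 f z Complex.I Complex.I := by
    rw [← bil_expand, ← eiz]
  have h3 : D2 f z z (Complex.I * z) = z.re * (-z.im) * D2 f z 1 1 + z.re * z.re * D2 f z 1 Complex.I
      + z.im * (-z.im) * D2 f z Complex.I 1 + z.im * z.re * D2 f z Complex.I Complex.I := by
    rw [← bil_expand, ← ez, ← eiz]
  rw [h1, h2, h3, ec, hs]
  generalize D2 f z 1 1 = a
  generalize D2 f z 1 Complex.I = b
  generalize D2 f z Complex.I Complex.I = c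
  generalize z.re = x
  generalize z.im = y
  have hI : Complex.I ^ 2 = -1 := Complex.I_sq
  have hI3 : Complex.I ^ 3 = -Complex.I := by rw [pow_succ, hI]; ring
  push_cast
  ring_nf
  rw [hI, hI3]
  ring

/-! derivatives along curves -/

lemma has1 {f : ℂ → ℝ} (hf : ContDiff ℝ ∞ f) {γ : ℝ → ℂ} {γ' : ℂ} {t : ℝ} (h : HasDerivAt γ γ' t) :
    HasDerivAt (fun t => f (γ t)) (fderiv ℝ f (γ t) γ') t := by
  have h1 : HasFDerivAt f (fderiv ℝ f (γ t)) (γ t) := (hf.differentiable (by simp) (γ t)).hasFDerivAt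
  exact h1.comp_hasDerivAt t h

lemma has2 {f : ℂ → ℝ} (hf : ContDiff ℝ ∞ f) {γ v : ℝ → ℂ} {γ' v' : ℂ} {t : ℝ} (h : HasDerivAt γ γ' t)
    (hv : HasDerivAt v v' t) :
    HasDerivAt (fun t => fderiv ℝ f (γ t) (v t)) (D2 f (γ t) γ' (v t) + fderiv ℝ f (γ t) v') t := by
  have h0 : ContDiff ℝ ∞ (fderiv ℝ f) := hf.fderiv_right (by simp)
  have h1 : HasFDerivAt (fderiv ℝ f) (D2 f (γ t)) (γ t) :=
    (h0.differentiable (by simp) (γ t)).hasFDerivAt
  have h2 : HasDerivAt (fun t => fderiv ℝ f (γ t)) (D2 f (γ t) γ') t := h1.comp_hasDerivAt t h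
  exact h2.clm_apply hv

/-- the point with logarithmic polar coordinates `t`, `θ` -/
noncomputable def pt (t θ : ℝ) : ℂ := Complex.exp ((t : ℂ) + θ * Complex.I)

lemma pt_t (t θ : ℝ) : HasDerivAt (fun t => pt t θ) (pt t θ) t := by
  unfold pt
  have h : HasDerivAt (fun t : ℝ => (t : ℂ) + θ * Complex.I) 1 t :=
    (Complex.ofRealCLM.hasDerivAt (x := t)).add_const _
  simpa using h.cexp

lemma pt_θ (t θ : ℝ) : HasDerivAt (fun θ => pt t θ) (Complex.I * pt t θ) θ := by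
  unfold pt
  have h : HasDerivAt (fun θ : ℝ => (t : ℂ) + θ * Complex.I) (1 * Complex.I) θ :=
    ((Complex.ofRealCLM.hasDerivAt (x := θ)).mul_const _).const_add _
  refine h.cexp.congr_deriv ?_
  ring

lemma polar {f : ℂ → ℝ} (hf : ContDiff ℝ ∞ f) (E : ℝ → ℝ → ℝ) (Et Eθ Fθ : ℝ → ℝ) (Ett Eθθ Eθt : ℝ)
    (t0 θ0 : ℝ) {J : Set ℝ} (hJ : J ∈ 𝓝 t0)
    (hE : ∀ t ∈ J, ∀ θ, f (pt t θ) = E t θ)
    (h1 : ∀ t ∈ J, HasDerivAt (fun t => E t θ0) (Et t) t) (h2 : HasDerivAt Et Ett t0)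
    (h3 : ∀ θ, HasDerivAt (fun θ => E t0 θ) (Eθ θ) θ) (h4 : HasDerivAt Eθ Eθθ θ0)
    (h5 : ∀ t ∈ J, HasDerivAt (fun θ => E t θ) (Fθ t) θ0) (h6 : HasDerivAt Fθ Eθt t0) :
    conj (pt t0 θ0) ^ 2 * Qf f (pt t0 θ0) =
      ((Ett - Eθθ - 2 * Et t0 : ℝ) : ℂ) + 2 * ((Eθt - Fθ t0 : ℝ) : ℂ) * Complex.I := by
  obtain ⟨U, hUJ, hU, hUt⟩ := mem_nhds_iff.1 hJ
  have ht0 : t0 ∈ J := mem_of_mem_nhds hJ
  have ev : ∀ t ∈ U, J ∈ 𝓝 t := fun t ht => mem_of_superset (hU.mem_nhds ht) hUJ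
  have a1 : ∀ t ∈ U, Et t = fderiv ℝ f (pt t θ0) (pt t θ0) := by
    intro t ht
    have e : (fun t => f (pt t θ0)) =ᶠ[𝓝 t] fun t => E t θ0 := by
      filter_upwards [ev t ht] with s hs using hE s hs θ0
    exact ((h1 t (hUJ ht)).congr_of_eventuallyEq e).unique (has1 hf (pt_t t θ0))
  have a2 : Ett = D2 f (pt t0 θ0) (pt t0 θ0) (pt t0 θ0) + fderiv ℝ f (pt t0 θ0) (pt t0 θ0) := by
    have e : (fun t => fderiv ℝ f (pt t θ0) (pt t θ0)) =ᶠ[𝓝 t0] Et := by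
      filter_upwards [hU.mem_nhds hUt] with s hs using (a1 s hs).symm
    exact (h2.congr_of_eventuallyEq e).unique (has2 hf (pt_t t0 θ0) (pt_t t0 θ0))
  have a3 : ∀ θ, Eθ θ = fderiv ℝ f (pt t0 θ) (Complex.I * pt t0 θ) := by
    intro θ
    have e : (fun θ => f (pt t0 θ)) = fun θ => E t0 θ := by
      funext θ; exact hE t0 ht0 θ
    have := h3 θ
    rw [← e] at this
    exact this.unique (has1 hf (pt_θ t0 θ))
  have a4 : Eθθ = D2 f (pt t0 θ0) (Complex.I * pt t0 θ0) (Complex.I * pt t0 θ0)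
      + fderiv ℝ f (pt t0 θ0) (Complex.I * (Complex.I * pt t0 θ0)) := by
    have e : Eθ = fun θ => fderiv ℝ f (pt t0 θ) (Complex.I * pt t0 θ) := funext a3
    rw [e] at h4
    exact h4.unique (has2 hf (pt_θ t0 θ0) ((pt_θ t0 θ0).const_mul Complex.I))
  have a5 : ∀ t ∈ J, Fθ t = fderiv ℝ f (pt t θ0) (Complex.I * pt t θ0) := by
    intro t ht
    have e : (fun θ => f (pt t θ)) = fun θ => E t θ := by
      funext θ; exact hE t ht θ
    have := h5 t ht
    rw [← e] at this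
    exact this.unique (has1 hf (pt_θ t θ0))
  have a6 : Eθt = D2 f (pt t0 θ0) (pt t0 θ0) (Complex.I * pt t0 θ0)
      + fderiv ℝ f (pt t0 θ0) (Complex.I * pt t0 θ0) := by
    have e : (fun t => fderiv ℝ f (pt t θ0) (Complex.I * pt t θ0)) =ᶠ[𝓝 t0] Fθ := by
      filter_upwards [hJ] with s hs using (a5 s hs).symm
    exact (h6.congr_of_eventuallyEq e).unique (has2 hf (pt_t t0 θ0) ((pt_t t0 θ0).const_mul Complex.I))
  rw [Qf_conj hf]
  have b1 := a1 t0 hUt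
  have b5 := a5 t0 ht0
  have hII : Complex.I * (Complex.I * pt t0 θ0) = - pt t0 θ0 := by
    rw [← mul_assoc, Complex.I_mul_I]; ring
  rw [hII, map_neg] at a4
  have c1 : Ett - Eθθ - 2 * Et t0 = D2 f (pt t0 θ0) (pt t0 θ0) (pt t0 θ0)
      - D2 f (pt t0 θ0) (Complex.I * pt t0 θ0) (Complex.I * pt t0 θ0) := by
    rw [a2, a4, b1]; ring
  have c2 : Eθt - Fθ t0 = D2 f (pt t0 θ0) (pt t0 θ0) (Complex.I * pt t0 θ0) := by
    rw [a6, b5]; ring
  rw [c1, c2]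

end Pool.Agent.H803
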