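import Mathlib

set_option autoImplicit false

/-!
Continuous arguments on circles.
-/

namespace Pool.Agent.H803

open Filter Topology Set
open scoped ContDiff ComplexConjugate

lemma slit_aux {p : ℂ} {s : ℝ}
    (h : (0 < p.im ∧ 0 ≤ s ∧ s ≤ Real.pi) ∨ (0 < p.re ∧ -(Real.pi / 2) ≤ s ∧ s ≤ Real.pi / 2)) :
    p * Complex.exp (-(s * Complex.I)) ∈ Complex.slitPlane := by
  by_contra hcon
  rw [Complex.mem_slitPlane_iff, not_or, not_lt, not_not] at hcon
  obtain ⟨h1, h2⟩ := hcon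
  set w := p * Complex.exp (-(s * Complex.I)) with hw
  have e : p = w * Complex.exp (s * Complex.I) := by
    rw [hw, mul_assoc, ← Complex.exp_add]
    simp
  have ere : p.re = w.re * Real.cos s := by
    rw [e, Complex.mul_re, Complex.exp_ofReal_mul_I_re, Complex.exp_ofReal_mul_I_im, h2]; ring
  have eim : p.im = w.re * Real.sin s := by
    rw [e, Complex.mul_im, Complex.exp_ofReal_mul_I_re, Complex.exp_ofReal_mul_I_im, h2]; ring
  rcases h with ⟨h3, h4, h5⟩ | ⟨h3, h4, h5⟩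
  · have := Real.sin_nonneg_of_nonneg_of_le_pi h4 h5
    rw [eim] at h3
    exact absurd h3 (not_lt.2 (mul_nonpos_of_nonpos_of_nonneg h1 this))
  · have := Real.cos_nonneg_of_mem_Icc ⟨h4, h5⟩
    rw [ere] at h3
    exact absurd h3 (not_lt.2 (mul_nonpos_of_nonpos_of_nonneg h1 this))

/-- integer valued continuous functions on an interval are constant -/
lemma int_const {g : ℝ → ℝ} {a b : ℝ} (hab : a ≤ b) (hg : ContinuousOn g (Icc a b))
    (h : ∀ t ∈ Icc a b, ∃ n : ℤ, g t = n) : g a = g b := by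
  have hc : IsPreconnected (g '' Icc a b) := isPreconnected_Icc.image g hg
  have key : ∀ x ∈ g '' Icc a b, ∀ y ∈ g '' Icc a b, x < y → False := by
    intro x hx y hy hxy
    obtain ⟨s, hs, rfl⟩ := hx
    obtain ⟨t, ht, rfl⟩ := hy
    obtain ⟨n, hn⟩ := h s hs
    obtain ⟨k, hk⟩ := h t ht
    have hoc : (g '' Icc a b).OrdConnected := hc.ordConnected
    have hnk : n + 1 ≤ k := by
      have : (n : ℝ) < k := by rw [← hn, ← hk]; exact hxy
      exact_mod_cast this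
    have hmid : (n : ℝ) + 1 / 2 ∈ g '' Icc a b := by
      apply hoc.out ⟨s, hs, rfl⟩ ⟨t, ht, rfl⟩
      rw [hn, hk]
      have : (n : ℝ) + 1 ≤ k := by exact_mod_cast hnk
      constructor <;> linarith
    obtain ⟨u, hu, hu'⟩ := hmid
    obtain ⟨l, hl⟩ := h u hu
    rw [hl] at hu'
    have h1 : ((2 * l : ℤ) : ℝ) = ((2 * n + 1 : ℤ) : ℝ) := by
      push_cast
      linarith
    have h2 : 2 * l = 2 * n + 1 := by exact_mod_cast h1
    omega
  have ha : g a ∈ g '' Icc a b := ⟨a, left_mem_Icc.2 hab, rfl⟩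
  have hb : g b ∈ g '' Icc a b := ⟨b, right_mem_Icc.2 hab, rfl⟩
  rcases lt_trichotomy (g a) (g b) with h1 | h1 | h1
  · exact (key _ ha _ hb h1).elim
  · exact h1
  · exact (key _ hb _ ha h1).elim

/-- if `w τ e^{-i(kτ + c)}` avoids the negative axis, `w` winds `k` times -/
lemma lift_of_slit {w : ℝ → ℂ} (hw : Continuous w) (hper : w (2 * Real.pi) = w 0) (k : ℤ) (c : ℝ)
    (h : ∀ τ : ℝ, w τ * Complex.exp (-(((k * τ + c : ℝ) : ℂ) * Complex.I)) ∈ Complex.slitPlane) :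
    (∃ Θ : ℝ → ℝ, Continuous Θ ∧
      (∀ τ, w τ = ((‖w τ‖ : ℝ) : ℂ) * Complex.exp ((Θ τ : ℂ) * Complex.I)) ∧
      Θ (2 * Real.pi) - Θ 0 = 2 * Real.pi * k) ∧
    (∀ τ, w τ ≠ 0) ∧
    ∀ θ : ℝ → ℝ, ContinuousOn θ (Icc 0 (2 * Real.pi)) →
      (∀ τ ∈ Icc 0 (2 * Real.pi), w τ = ((‖w τ‖ : ℝ) : ℂ) * Complex.exp ((θ τ : ℂ) * Complex.I)) →
      θ (2 * Real.pi) - θ 0 = 2 * Real.pi * k := by
  set G : ℝ → ℂ := fun τ => w τ * Complex.exp (-(((k * τ + c : ℝ) : ℂ) * Complex.I)) with hG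
  have hGc : Continuous G := by
    simp only [hG]
    exact hw.mul (by fun_prop)
  have hargc : Continuous fun τ => Complex.arg (G τ) := by
    rw [continuous_iff_continuousAt]
    intro τ
    exact ContinuousAt.comp (f := G) (Complex.continuousAt_arg (h τ)) hGc.continuousAt
  have hwG : ∀ τ, w τ = G τ * Complex.exp (((k * τ + c : ℝ) : ℂ) * Complex.I) := by
    intro τ
    simp only [hG]
    rw [mul_assoc, ← Complex.exp_add]
    simp
  have hnorm : ∀ τ, ‖w τ‖ = ‖G τ‖ := by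
    intro τ
    rw [hwG τ, norm_mul, Complex.norm_exp_ofReal_mul_I, mul_one]
  have hG0 : ∀ τ, G τ ≠ 0 := fun τ => Complex.slitPlane_ne_zero (h τ)
  have hw0 : ∀ τ, w τ ≠ 0 := by
    intro τ h0
    have := hnorm τ
    rw [h0, norm_zero] at this
    exact hG0 τ (norm_eq_zero.1 this.symm)
  set Θ : ℝ → ℝ := fun τ => (k * τ + c) + Complex.arg (G τ) with hΘ
  have hΘc : Continuous Θ := by
    simp only [hΘ]
    exact (by fun_prop : Continuous fun τ : ℝ => (k * τ + c)).add hargc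
  have hlift : ∀ τ, w τ = ((‖w τ‖ : ℝ) : ℂ) * Complex.exp ((Θ τ : ℂ) * Complex.I) := by
    intro τ
    rw [hnorm τ]
    conv_lhs => rw [hwG τ, ← Complex.norm_mul_exp_arg_mul_I (G τ)]
    simp only [hΘ]
    rw [mul_assoc, ← Complex.exp_add]
    congr 2
    push_cast
    ring
  have hG2 : G (2 * Real.pi) = G 0 := by
    simp only [hG]
    rw [hper]
    congr 1
    rw [Complex.exp_eq_exp_iff_exists_int]
    refine ⟨-k, ?_⟩
    push_cast
    ring
  have hΘ2 : Θ (2 * Real.pi) - Θ 0 = 2 * Real.pi * k := by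
    simp only [hΘ]
    rw [hG2]
    ring
  refine ⟨⟨Θ, hΘc, hlift, hΘ2⟩, hw0, ?_⟩
  intro θ hθc hθ
  have hpi := Real.pi_pos
  have hdiff : ∀ t ∈ Icc 0 (2 * Real.pi), ∃ n : ℤ, (θ t - Θ t) / (2 * Real.pi) = n := by
    intro t ht
    have e1 := hθ t ht
    rw [hlift t] at e1
    have hn : ((‖w t‖ : ℝ) : ℂ) ≠ 0 := by
      rw [Complex.ofReal_ne_zero]
      exact norm_ne_zero_iff.2 (hw0 t)
    have e3 : ‖((‖w t‖ : ℝ) : ℂ) * Complex.exp ((Θ t : ℂ) * Complex.I)‖ = ‖w t‖ := by rw [← hlift t]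
    rw [e3] at e1
    have e2 := mul_left_cancel₀ hn e1
    rw [Complex.exp_eq_exp_iff_exists_int] at e2
    obtain ⟨n, hn2⟩ := e2
    refine ⟨-n, ?_⟩
    have e4 : (Θ t : ℂ) = θ t + n * (2 * Real.pi) := by
      apply mul_right_cancel₀ Complex.I_ne_zero
      rw [hn2]; ring
    have e5 : Θ t = θ t + n * (2 * Real.pi) := by exact_mod_cast e4
    rw [e5]
    push_cast
    field_simp
    ring
  have hcc := int_const (g := fun t => (θ t - Θ t) / (2 * Real.pi)) (a := 0) (b := 2 * Real.pi)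
    (by positivity) ((hθc.sub hΘc.continuousOn).div_const _) hdiff
  have : θ 0 - Θ 0 = θ (2 * Real.pi) - Θ (2 * Real.pi) := by
    field_simp at hcc
    linarith
  linarith

end Pool.Agent.H803
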