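import Pool.Agent.H803.Key
import Pool.Agent.H803.Wind
import Pool.Agent.H803.Polar

set_option autoImplicit false

/-!
The sign condition on circles, and the polar formula for two products.
-/

namespace Pool.Agent.H803

open Filter Topology Set
open scoped ContDiff ComplexConjugate

lemma good_slit {R J : ℝ → ℝ} (hR : ∀ φ, R (φ + Real.pi) = -R φ) (hJ : ∀ φ, J (φ + Real.pi) = -J φ)
    (hG : Good R J) {μ : ℝ} (hμ : 0 < μ) : ∃ c : ℝ, ∀ φ : ℝ,
    -((R φ : ℂ) + ((μ * J φ : ℝ) : ℂ) * Complex.I) * Complex.exp (-(((φ - c : ℝ) : ℂ) * Complex.I))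
      ∈ Complex.slitPlane := by
  obtain ⟨a, b, c, h1, h2, h3, h4, h5, h6⟩ := hG
  refine ⟨c, fun φ => ?_⟩
  set F : ℝ → ℂ := fun φ => -((R φ : ℂ) + ((μ * J φ : ℝ) : ℂ) * Complex.I)
    * Complex.exp (-(((φ - c : ℝ) : ℂ) * Complex.I)) with hF
  have hper : Function.Periodic F Real.pi := by
    intro φ
    simp only [hF]
    rw [hR, hJ]
    have e : Complex.exp (-(((φ + Real.pi - c : ℝ) : ℂ) * Complex.I))
        = -Complex.exp (-(((φ - c : ℝ) : ℂ) * Complex.I)) := by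
      have : -(((φ + Real.pi - c : ℝ) : ℂ) * Complex.I)
          = -(((φ - c : ℝ) : ℂ) * Complex.I) - Real.pi * Complex.I := by push_cast; ring
      rw [this, Complex.exp_sub, Complex.exp_pi_mul_I]
      ring
    rw [e]
    push_cast
    ring
  obtain ⟨y, hy, hFy⟩ := hper.exists_mem_Ico Real.pi_pos φ a
  show F φ ∈ Complex.slitPlane
  rw [hFy]
  simp only [hF]
  apply slit_aux
  have ere : (-((R y : ℂ) + ((μ * J y : ℝ) : ℂ) * Complex.I)).re = -R y := by simp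
  have eim : (-((R y : ℂ) + ((μ * J y : ℝ) : ℂ) * Complex.I)).im = -(μ * J y) := by simp
  rw [ere, eim]
  rcases le_or_gt y b with hyb | hyb
  · right
    exact ⟨by linarith [h5 y hy.1 hyb], by linarith [hy.1], by linarith⟩
  · left
    have := h6 y hyb hy.2
    exact ⟨by nlinarith, by linarith, by linarith [hy.2]⟩

lemma qre_anti (M κ ε K T d σ φ : ℝ) : qre M κ ε K T d σ (φ + Real.pi) = -qre M κ ε K T d σ φ := by
  unfold qre
  have e : φ + Real.pi - Real.pi / 3 = (φ - Real.pi / 3) + Real.pi := by ring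
  rw [e, (psi_anti M κ d φ).1, pp_anti, (psi_anti M κ (4 * d) _).1, pp_anti]
  ring

lemma qim_anti (M κ ε K d σ φ : ℝ) : qim M κ ε K d σ (φ + Real.pi) = -qim M κ ε K d σ φ := by
  unfold qim
  have e : φ + Real.pi - Real.pi / 3 = (φ - Real.pi / 3) + Real.pi := by ring
  rw [e, (psi_anti M κ d φ).2.1, (psi_anti M κ (4 * d) _).2.1]
  ring

lemma polar2 {f : ℂ → ℝ} (hf : ContDiff ℝ ∞ f) {y y1 y2 X X1 X2 u u1 u2 v v1 v2 : ℝ → ℝ}
    (hy : ∀ t, HasDerivAt y (y1 t) t) (hy1 : ∀ t, HasDerivAt y1 (y2 t) t)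
    (hX : ∀ t, HasDerivAt X (X1 t) t) (hX1 : ∀ t, HasDerivAt X1 (X2 t) t)
    (hu : ∀ t, HasDerivAt u (u1 t) t) (hu1 : ∀ t, HasDerivAt u1 (u2 t) t)
    (hv : ∀ t, HasDerivAt v (v1 t) t) (hv1 : ∀ t, HasDerivAt v1 (v2 t) t)
    (t0 θ0 : ℝ) {J : Set ℝ} (hJ : J ∈ 𝓝 t0)
    (hE : ∀ t ∈ J, ∀ θ, f (pt t θ) = Real.exp t * (y t * u θ + X t * v θ)) :
    conj (pt t0 θ0) ^ 2 * Qf f (pt t0 θ0) =
      ((Real.exp t0 * ((y2 t0 - y t0) * u θ0 - y t0 * u2 θ0 + ((X2 t0 - X t0) * v θ0 - X t0 * v2 θ0)) : ℝ) : ℂ)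
      + 2 * ((Real.exp t0 * (y1 t0 * u1 θ0 + X1 t0 * v1 θ0) : ℝ) : ℂ) * Complex.I := by
  have k1 : ∀ t, HasDerivAt (fun t => Real.exp t * (y t * u θ0 + X t * v θ0))
      (Real.exp t * (y t * u θ0 + X t * v θ0) + Real.exp t * (y1 t * u θ0 + X1 t * v θ0)) t := fun t =>
    (Real.hasDerivAt_exp t).mul (((hy t).mul_const _).add ((hX t).mul_const _))
  have k2 : HasDerivAt (fun t => Real.exp t * (y t * u θ0 + X t * v θ0) + Real.exp t * (y1 t * u θ0 + X1 t * v θ0))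
      ((Real.exp t0 * (y t0 * u θ0 + X t0 * v θ0) + Real.exp t0 * (y1 t0 * u θ0 + X1 t0 * v θ0))
      + (Real.exp t0 * (y1 t0 * u θ0 + X1 t0 * v θ0) + Real.exp t0 * (y2 t0 * u θ0 + X2 t0 * v θ0))) t0 :=
    (k1 t0).add ((Real.hasDerivAt_exp t0).mul (((hy1 t0).mul_const _).add ((hX1 t0).mul_const _)))
  have k3 : ∀ t θ, HasDerivAt (fun θ => Real.exp t * (y t * u θ + X t * v θ))
      (Real.exp t * (y t * u1 θ + X t * v1 θ)) θ := fun t θ =>
    (((hu θ).const_mul _).add ((hv θ).const_mul _)).const_mul _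
  have k4 : HasDerivAt (fun θ => Real.exp t0 * (y t0 * u1 θ + X t0 * v1 θ))
      (Real.exp t0 * (y t0 * u2 θ0 + X t0 * v2 θ0)) θ0 :=
    (((hu1 θ0).const_mul _).add ((hv1 θ0).const_mul _)).const_mul _
  have k6 : HasDerivAt (fun t => Real.exp t * (y t * u1 θ0 + X t * v1 θ0))
      (Real.exp t0 * (y t0 * u1 θ0 + X t0 * v1 θ0) + Real.exp t0 * (y1 t0 * u1 θ0 + X1 t0 * v1 θ0)) t0 :=
    (Real.hasDerivAt_exp t0).mul (((hy t0).mul_const _).add ((hX t0).mul_const _))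
  have h := polar hf (fun t θ => Real.exp t * (y t * u θ + X t * v θ)) _ _ _ _ _ _ t0 θ0 hJ hE
    (fun t _ => k1 t) k2 (fun θ => k3 t0 θ) k4 (fun t _ => k3 t θ0) k6
  rw [h]
  congr 2
  · ring_nf
  · ring_nf

/-- conclusion on one circle -/
lemma circle_slit {Q : ℂ → ℂ} {m : ℕ} {t0 G μ a c : ℝ} (hG : 0 < G) {R J : ℝ → ℝ}
    (hQ : ∀ τ : ℝ, conj (pt t0 τ) ^ 2 * Q (pt t0 τ) = (G : ℂ) * ((R (m * τ + a) : ℂ)
      + ((μ * J (m * τ + a) : ℝ) : ℂ) * Complex.I))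
    (hs : ∀ φ : ℝ, -((R φ : ℂ) + ((μ * J φ : ℝ) : ℂ) * Complex.I) * Complex.exp (-(((φ - c : ℝ) : ℂ) * Complex.I))
      ∈ Complex.slitPlane) (τ : ℝ) :
    Q (pt t0 τ) * Complex.exp (-(((((m + 2 : ℕ) : ℤ) * τ + (a - c + Real.pi) : ℝ) : ℂ) * Complex.I))
      ∈ Complex.slitPlane := by
  have hc : conj (pt t0 τ) = Complex.exp ((t0 : ℂ) - τ * Complex.I) := by
    unfold pt
    rw [← Complex.exp_conj]
    congr 1
    simp
    ring
  have hQ' : Q (pt t0 τ) = Complex.exp (-(2 * ((t0 : ℂ) - τ * Complex.I))) * ((G : ℂ) * ((R (m * τ + a) : ℂ)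
      + ((μ * J (m * τ + a) : ℝ) : ℂ) * Complex.I)) := by
    rw [← hQ τ, hc, ← Complex.exp_nat_mul, ← mul_assoc, ← Complex.exp_add]
    have : -(2 * ((t0 : ℂ) - τ * Complex.I)) + ((2 : ℕ) : ℂ) * ((t0 : ℂ) - τ * Complex.I) = 0 := by
      push_cast; ring
    rw [this, Complex.exp_zero, one_mul]
  have key : Q (pt t0 τ) * Complex.exp (-(((((m + 2 : ℕ) : ℤ) * τ + (a - c + Real.pi) : ℝ) : ℂ) * Complex.I))
      = ((Real.exp (-(2 * t0)) * G : ℝ) : ℂ) * (-((R (m * τ + a) : ℂ)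
      + ((μ * J (m * τ + a) : ℝ) : ℂ) * Complex.I) * Complex.exp (-(((m * τ + a - c : ℝ) : ℂ) * Complex.I))) := by
    rw [hQ']
    have e : Complex.exp (-(((((m + 2 : ℕ) : ℤ) * τ + (a - c + Real.pi) : ℝ) : ℂ) * Complex.I))
        = -(Complex.exp (-(2 * (τ * Complex.I))) * Complex.exp (-(((m * τ + a - c : ℝ) : ℂ) * Complex.I))) := by
      rw [← Complex.exp_add]
      have : -(((((m + 2 : ℕ) : ℤ) * τ + (a - c + Real.pi) : ℝ) : ℂ) * Complex.I)
          = (-(2 * (τ * Complex.I)) + -(((m * τ + a - c : ℝ) : ℂ) * Complex.I)) - Real.pi * Complex.I := by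
        push_cast; ring
      rw [this, Complex.exp_sub, Complex.exp_pi_mul_I]
      ring
    have e2 : Complex.exp (-(2 * ((t0 : ℂ) - τ * Complex.I))) * Complex.exp (-(2 * (τ * Complex.I)))
        = ((Real.exp (-(2 * t0)) : ℝ) : ℂ) := by
      rw [← Complex.exp_add, Complex.ofReal_exp]
      congr 1
      push_cast
      ring
    rw [e]
    push_cast at e2 ⊢
    rw [← e2]
    ring
  rw [key]
  have h1 := hs (m * τ + a)
  have hpos : 0 < Real.exp (-(2 * t0)) * G := by positivity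
  rw [Complex.mem_slitPlane_iff] at h1 ⊢
  rcases h1 with h1 | h1
  · left
    rw [Complex.re_ofReal_mul]
    exact mul_pos hpos h1
  · right
    rw [Complex.im_ofReal_mul]
    exact mul_ne_zero hpos.ne' h1

end Pool.Agent.H803
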