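import Pool.Agent.H803.Prof

set_option autoImplicit false

/-!
Radial profiles.
-/

namespace Pool.Agent.H803

open Real Filter Topology Set
open scoped ContDiff

/-- main amplitude -/
noncomputable def Wf (x : ℝ) : ℝ := smoothTransition (x - 1 / 4) * (1 - smoothTransition (8 * x - 13))
/-- starter amplitude -/
noncomputable def Zf (x : ℝ) : ℝ := smoothTransition (2 * x) * (1 - smoothTransition (8 * x - 5))

lemma Wf_cd : ContDiff ℝ ∞ Wf := by
  unfold Wf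
  exact (st_cd.comp (contDiff_id.sub contDiff_const)).mul
    (contDiff_const.sub (st_cd.comp ((contDiff_const.mul contDiff_id).sub contDiff_const)))

lemma Zf_cd : ContDiff ℝ ∞ Zf := by
  unfold Zf
  exact (st_cd.comp (contDiff_const.mul contDiff_id)).mul
    (contDiff_const.sub (st_cd.comp ((contDiff_const.mul contDiff_id).sub contDiff_const)))

lemma Wf_nonneg (x : ℝ) : 0 ≤ Wf x := by
  unfold Wf
  have h1 := smoothTransition.nonneg (x - 1 / 4)
  have h2 := smoothTransition.le_one (8 * x - 13)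
  exact mul_nonneg h1 (by linarith)

lemma Wf_le_one (x : ℝ) : Wf x ≤ 1 := by
  unfold Wf
  have h1 := smoothTransition.nonneg (x - 1 / 4)
  have h1' := smoothTransition.le_one (x - 1 / 4)
  have h2 := smoothTransition.le_one (8 * x - 13)
  have h3 := smoothTransition.nonneg (8 * x - 13)
  nlinarith

lemma Zf_nonneg (x : ℝ) : 0 ≤ Zf x := by
  unfold Zf
  have h1 := smoothTransition.nonneg (2 * x)
  have h2 := smoothTransition.le_one (8 * x - 5)
  exact mul_nonneg h1 (by linarith)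

lemma Zf_le_one (x : ℝ) : Zf x ≤ 1 := by
  unfold Zf
  have h1 := smoothTransition.nonneg (2 * x)
  have h1' := smoothTransition.le_one (2 * x)
  have h2 := smoothTransition.le_one (8 * x - 5)
  have h3 := smoothTransition.nonneg (8 * x - 5)
  nlinarith

lemma Wf_left {x : ℝ} (h : x ≤ 1 / 4) : Wf x = 0 := by
  unfold Wf
  rw [smoothTransition.zero_of_nonpos (by linarith), zero_mul]

lemma Wf_right {x : ℝ} (h : 7 / 4 ≤ x) : Wf x = 0 := by
  unfold Wf
  rw [smoothTransition.one_of_one_le (x := 8 * x - 13) (by linarith), sub_self, mul_zero]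

lemma Zf_left {x : ℝ} (h : x ≤ 0) : Zf x = 0 := by
  unfold Zf
  rw [smoothTransition.zero_of_nonpos (by linarith), zero_mul]

lemma Zf_right {x : ℝ} (h : 3 / 4 ≤ x) : Zf x = 0 := by
  unfold Zf
  rw [smoothTransition.one_of_one_le (x := 8 * x - 5) (by linarith), sub_self, mul_zero]

lemma Wf_eq {x : ℝ} (h : x ≤ 13 / 8) : Wf x = smoothTransition (x - 1 / 4) := by
  unfold Wf
  rw [smoothTransition.zero_of_nonpos (x := 8 * x - 13) (by linarith), sub_zero, mul_one]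

lemma Zf_eq {x : ℝ} (h : x ≤ 5 / 8) : Zf x = smoothTransition (2 * x) := by
  unfold Zf
  rw [smoothTransition.zero_of_nonpos (x := 8 * x - 5) (by linarith), sub_zero, mul_one]

lemma Wf_one {x : ℝ} (h : 5 / 4 ≤ x) (h' : x ≤ 13 / 8) : Wf x = 1 := by
  rw [Wf_eq h', smoothTransition.one_of_one_le (by linarith)]

lemma dWf_zero {s : Set ℝ} (hs : UniqueDiffOn ℝ s) {c : ℝ} (h : ∀ x ∈ s, Wf x = c) :
    ∀ x ∈ s, deriv Wf x = 0 ∧ deriv (deriv Wf) x = 0 := by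
  intro x hx
  have h1 := deriv_zero_on hs (cd_diff Wf_cd) h
  exact ⟨h1 x hx, deriv_zero_on hs (cd_diff (cd_deriv Wf_cd)) h1 x hx⟩

lemma dZf_zero {s : Set ℝ} (hs : UniqueDiffOn ℝ s) {c : ℝ} (h : ∀ x ∈ s, Zf x = c) :
    ∀ x ∈ s, deriv Zf x = 0 ∧ deriv (deriv Zf) x = 0 := by
  intro x hx
  have h1 := deriv_zero_on hs (cd_diff Zf_cd) h
  exact ⟨h1 x hx, deriv_zero_on hs (cd_diff (cd_deriv Zf_cd)) h1 x hx⟩

lemma dWf_left {x : ℝ} (h : x ≤ 1 / 4) : deriv Wf x = 0 ∧ deriv (deriv Wf) x = 0 :=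
  dWf_zero (uniqueDiffOn_Iic (1 / 4)) (c := 0) (fun _ hy => Wf_left hy) x h

lemma dWf_right {x : ℝ} (h : 7 / 4 ≤ x) : deriv Wf x = 0 ∧ deriv (deriv Wf) x = 0 :=
  dWf_zero (uniqueDiffOn_Ici (7 / 4)) (c := 0) (fun _ hy => Wf_right hy) x h

lemma dWf_mid {x : ℝ} (h : 5 / 4 ≤ x) (h' : x ≤ 13 / 8) : deriv Wf x = 0 ∧ deriv (deriv Wf) x = 0 :=
  dWf_zero (uniqueDiffOn_Icc (show (5 / 4 : ℝ) < 13 / 8 by norm_num)) (c := 1)
    (fun _ hy => Wf_one hy.1 hy.2) x ⟨h, h'⟩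

lemma dZf_left {x : ℝ} (h : x ≤ 0) : deriv Zf x = 0 ∧ deriv (deriv Zf) x = 0 :=
  dZf_zero (uniqueDiffOn_Iic 0) (c := 0) (fun _ hy => Zf_left hy) x h

lemma dZf_right {x : ℝ} (h : 3 / 4 ≤ x) : deriv Zf x = 0 ∧ deriv (deriv Zf) x = 0 :=
  dZf_zero (uniqueDiffOn_Ici (3 / 4)) (c := 0) (fun _ hy => Zf_right hy) x h

lemma dWf_eq {x : ℝ} (h : x < 13 / 8) : deriv Wf x = deriv smoothTransition (x - 1 / 4) := by
  have e : Wf =ᶠ[𝓝 x] fun x => smoothTransition (x - 1 / 4) := by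
    filter_upwards [Iio_mem_nhds h] with y hy using Wf_eq (le_of_lt hy)
  rw [e.deriv_eq]
  exact (HasDerivAt.comp_sub_const x (1 / 4) (cd_has st_cd (x - 1 / 4))).deriv

lemma dZf_eq {x : ℝ} (h : x < 5 / 8) : deriv Zf x = 2 * deriv smoothTransition (2 * x) := by
  have e : Zf =ᶠ[𝓝 x] fun x => smoothTransition (2 * x) := by
    filter_upwards [Iio_mem_nhds h] with y hy using Zf_eq (le_of_lt hy)
  rw [e.deriv_eq]
  have h0 : HasDerivAt (fun s : ℝ => 2 * s) 2 x := by simpa using (hasDerivAt_id x).const_mul 2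
  have h1 : HasDerivAt (fun s : ℝ => smoothTransition (2 * s)) (deriv smoothTransition (2 * x) * 2) x :=
    HasDerivAt.comp x (cd_has st_cd (2 * x)) h0
  rw [h1.deriv]; ring

lemma dWf_nonneg {x : ℝ} (h : x < 13 / 8) : 0 ≤ deriv Wf x := by
  rw [dWf_eq h]; exact st_deriv_nonneg _

lemma dZf_nonneg {x : ℝ} (h : x < 5 / 8) : 0 ≤ deriv Zf x := by
  rw [dZf_eq h]
  have := st_deriv_nonneg (2 * x)
  linarith

lemma dWf_pos {x : ℝ} (h : 1 / 4 < x) (h' : x < 5 / 4) : 0 < deriv Wf x := by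
  rw [dWf_eq (by linarith)]
  exact st_deriv_pos (by linarith) (by linarith)

lemma dZf_pos {x : ℝ} (h : 0 < x) (h' : x < 1 / 2) : 0 < deriv Zf x := by
  rw [dZf_eq (by linarith)]
  have := st_deriv_pos (x := 2 * x) (by linarith) (by linarith)
  linarith

lemma Wf_pos {x : ℝ} (h : 1 / 4 < x) (h' : x ≤ 13 / 8) : 0 < Wf x := by
  rw [Wf_eq h']
  exact smoothTransition.pos_of_pos (by linarith)

lemma Wf_mono {x y : ℝ} (h : x ≤ y) (h' : y ≤ 13 / 8) : Wf x ≤ Wf y := by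
  rw [Wf_eq h', Wf_eq (h.trans h')]
  exact smoothTransition.monotone (by linarith)

lemma time_bounds : ∃ C : ℝ, 1 ≤ C ∧ ∀ x, |deriv Wf x| ≤ C ∧ |deriv (deriv Wf) x| ≤ C ∧
    |deriv Zf x| ≤ C ∧ |deriv (deriv Zf) x| ≤ C := by
  have key : ∀ {g : ℝ → ℝ}, Continuous g → (∀ x, x ≤ 0 → g x = 0) → (∀ x, 7 / 4 ≤ x → g x = 0) →
      ∃ C : ℝ, 0 < C ∧ ∀ x, |g x| ≤ C := by
    intro g hg h1 h2
    apply bdd_of_zero hg (7 / 4)
    intro x hx
    rcases le_total 0 x with h | h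
    · rw [abs_of_nonneg h] at hx
      exact h2 x hx
    · exact h1 x h
  obtain ⟨C1, p1, q1⟩ := key (cd_deriv Wf_cd).continuous (fun x h => (dWf_left (by linarith)).1)
    (fun x h => (dWf_right h).1)
  obtain ⟨C2, p2, q2⟩ := key (cd_deriv (cd_deriv Wf_cd)).continuous (fun x h => (dWf_left (by linarith)).2)
    (fun x h => (dWf_right h).2)
  obtain ⟨C3, p3, q3⟩ := key (cd_deriv Zf_cd).continuous (fun x h => (dZf_left h).1)
    (fun x h => (dZf_right (by linarith)).1)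
  obtain ⟨C4, p4, q4⟩ := key (cd_deriv (cd_deriv Zf_cd)).continuous (fun x h => (dZf_left h).2)
    (fun x h => (dZf_right (by linarith)).2)
  refine ⟨C1 + C2 + C3 + C4 + 1, by linarith, fun x => ⟨?_, ?_, ?_, ?_⟩⟩
  · linarith [q1 x]
  · linarith [q2 x]
  · linarith [q3 x]
  · linarith [q4 x]

/-- lower bound of `W'` on the take-over window -/
lemma dWf_lower : ∃ w : ℝ, 0 < w ∧ ∀ x, 1 / 2 ≤ x → x ≤ 3 / 4 → w ≤ deriv Wf x := by
  obtain ⟨x0, hx0, hmin⟩ := (isCompact_Icc (a := (1/2:ℝ)) (b := 3/4)).exists_isMinOn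
    ⟨1 / 2, by norm_num⟩ (cd_deriv Wf_cd).continuous.continuousOn
  refine ⟨deriv Wf x0, dWf_pos (by linarith [hx0.1]) (by linarith [hx0.2]), fun x h1 h2 => ?_⟩
  exact hmin ⟨h1, h2⟩

end Pool.Agent.H803
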