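import Pool.Agent.H803.Ser
import Pool.Agent.H803.Ang
import Pool.Agent.H803.Time
import Pool.Agent.H803.Polar

set_option autoImplicit false

/-!
The stage functions on the plane.
-/

namespace Pool.Agent.H803

open Filter Topology Set
open scoped ContDiff Nat ComplexConjugate

/-- positive smooth modification of `s` -/
noncomputable def rho (s : ℝ) : ℝ :=
  s * Real.smoothTransition (2 * s - 1) + (1 - Real.smoothTransition (2 * s - 1))

lemma rho_pos (s : ℝ) : 0 < rho s := by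
  unfold rho
  have h0 := Real.smoothTransition.nonneg (2 * s - 1)
  have h1 := Real.smoothTransition.le_one (2 * s - 1)
  rcases le_or_gt s (1 / 2) with h | h
  · rw [Real.smoothTransition.zero_of_nonpos (by linarith)]
    norm_num
  · nlinarith

lemma rho_eq {s : ℝ} (h : 1 ≤ s) : rho s = s := by
  unfold rho
  rw [Real.smoothTransition.one_of_one_le (by linarith)]
  ring

lemma rho_le {s : ℝ} (h : s ≤ 1) : rho s ≤ 1 := by
  unfold rho
  have h0 := Real.smoothTransition.nonneg (2 * s - 1)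
  nlinarith

lemma rho_cd : ContDiff ℝ ∞ rho := by
  unfold rho
  have h : ContDiff ℝ ∞ (fun s : ℝ => Real.smoothTransition (2 * s - 1)) :=
    st_cd.comp ((contDiff_const.mul contDiff_id).sub contDiff_const)
  exact (contDiff_id.mul h).add (contDiff_const.sub h)

lemma re_cd : ContDiff ℝ ∞ (fun w : ℂ => w.re) := Complex.reCLM.contDiff
lemma im_cd : ContDiff ℝ ∞ (fun w : ℂ => w.im) := Complex.imCLM.contDiff

/-- a positive smooth function equal to the modulus outside the unit disc -/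
noncomputable def Nm (w : ℂ) : ℝ := √(rho (w.re ^ 2 + w.im ^ 2))

lemma Nm_pos (w : ℂ) : 0 < Nm w := Real.sqrt_pos.2 (rho_pos _)

lemma Nm_cd : ContDiff ℝ ∞ Nm := by
  unfold Nm
  exact (rho_cd.comp ((re_cd.pow 2).add (im_cd.pow 2))).sqrt (fun w => (rho_pos _).ne')

lemma normsq (w : ℂ) : w.re ^ 2 + w.im ^ 2 = ‖w‖ ^ 2 := by
  rw [← Complex.normSq_eq_norm_sq, Complex.normSq_apply]; ring

lemma Nm_eq {w : ℂ} (h : 1 ≤ ‖w‖) : Nm w = ‖w‖ := by
  unfold Nm
  rw [normsq, rho_eq (by nlinarith), Real.sqrt_sq (norm_nonneg _)]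

lemma Nm_le {w : ℂ} (h : ‖w‖ ≤ 1) : Nm w ≤ 1 := by
  unfold Nm
  rw [normsq]
  have h2 : rho (‖w‖ ^ 2) ≤ 1 := rho_le (by nlinarith [norm_nonneg w])
  calc √(rho (‖w‖ ^ 2)) ≤ √1 := Real.sqrt_le_sqrt h2
    _ = 1 := Real.sqrt_one

/-- logarithmic radius -/
noncomputable def lg (T : ℝ) (w : ℂ) : ℝ := Real.log (Nm w) / T

lemma lg_cd (T : ℝ) : ContDiff ℝ ∞ (lg T) := by
  unfold lg
  exact (Nm_cd.log (fun w => (Nm_pos w).ne')).div_const T

lemma lg_le {T : ℝ} (hT : 0 < T) {w : ℂ} (h : ‖w‖ ≤ 1) : lg T w ≤ 0 := by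
  unfold lg
  apply div_nonpos_of_nonpos_of_nonneg _ hT.le
  exact Real.log_nonpos (Nm_pos w).le (Nm_le h)

/-- amplitude -/
noncomputable def amp (T : ℝ) (g : ℝ → ℝ) (w : ℂ) : ℝ := Nm w * g (lg T w)

lemma amp_cd (T : ℝ) {g : ℝ → ℝ} (hg : ContDiff ℝ ∞ g) : ContDiff ℝ ∞ (amp T g) := by
  unfold amp
  exact Nm_cd.mul (hg.comp (lg_cd T))

lemma amp_zero {T : ℝ} (hT : 0 < T) {g : ℝ → ℝ} (hg0 : ∀ x, x ≤ 0 → g x = 0) {w : ℂ} (h : ‖w‖ ≤ 1) :
    amp T g w = 0 := by
  unfold amp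
  rw [hg0 _ (lg_le hT h), mul_zero]

lemma amp_supp {T : ℝ} (hT : 0 < T) {g : ℝ → ℝ} (hg1 : ∀ x, 7 / 4 ≤ x → g x = 0) :
    HasCompactSupport (amp T g) := by
  apply HasCompactSupport.intro (isCompact_closedBall (0 : ℂ) (Real.exp (7 / 4 * T)))
  intro w hw
  rw [Metric.mem_closedBall, dist_zero_right, not_le] at hw
  have h1 : 1 ≤ Real.exp (7 / 4 * T) := Real.one_le_exp (by positivity)
  unfold amp lg
  rw [Nm_eq (by linarith)]
  rw [hg1, mul_zero]
  rw [le_div_iff₀ hT]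
  have h2 := Real.log_le_log (Real.exp_pos _) hw.le
  rwa [Real.log_exp] at h2

/-- the angular variable `e^{i m θ}` -/
noncomputable def Uc (m : ℕ) (w : ℂ) : ℂ := (w * ((Nm w)⁻¹ : ℝ)) ^ m

lemma Uc_cd (m : ℕ) : ContDiff ℝ ∞ (Uc m) := by
  unfold Uc
  apply ContDiff.pow
  apply contDiff_id.mul
  exact Complex.ofRealCLM.contDiff.comp (Nm_cd.inv (fun w => (Nm_pos w).ne'))

lemma Uc_mul_cd (m : ℕ) (a : ℂ) : ContDiff ℝ ∞ (fun w => Uc m w * a) := (Uc_cd m).mul contDiff_const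

/-- smooth part of the profile -/
noncomputable def bet (m : ℕ) (M : ℝ) (w : ℂ) : ℝ :=
  (Uc m w).re + M * stp ((Uc m w * Complex.exp (-(((Real.pi / 6 : ℝ) : ℂ) * Complex.I))).re)
/-- sign of the spike -/
noncomputable def sgs (m : ℕ) (w : ℂ) : ℝ := stp ((Uc m w * Complex.exp (-(((Real.pi / 3 : ℝ) : ℂ) * Complex.I))).re)
/-- spike variable -/
noncomputable def xis (m : ℕ) (w : ℂ) : ℝ :=
  ((Uc m w * Complex.exp (-(((Real.pi / 3 : ℝ) : ℂ) * Complex.I))) ^ 2).im / 2

lemma bet_cd (m : ℕ) (M : ℝ) : ContDiff ℝ ∞ (bet m M) := by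
  unfold bet
  exact (re_cd.comp (Uc_cd m)).add (contDiff_const.mul (stp_cd.comp (re_cd.comp (Uc_mul_cd m _))))

lemma sgs_cd (m : ℕ) : ContDiff ℝ ∞ (sgs m) := by
  unfold sgs
  exact stp_cd.comp (re_cd.comp (Uc_mul_cd m _))

lemma xis_cd (m : ℕ) : ContDiff ℝ ∞ (xis m) := by
  unfold xis
  exact (im_cd.comp ((Uc_mul_cd m _).pow 2)).div_const 2

/-- the `n`-th stage -/
noncomputable def stg (m : ℕ) (M κ T d β : ℝ) (w : ℂ) : ℝ :=
  (amp T Wf w + β * amp T Zf w) * (bet m M w + κ * (d * (sgs m w * chi (xis m w / d))))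

lemma chi_supp : HasCompactSupport chi := by
  apply HasCompactSupport.intro (isCompact_Icc (a := (-1:ℝ)) (b := 1))
  intro x hx
  apply chi_zero
  by_contra h
  push Not at h
  exact hx (abs_le.1 h.le)

lemma stg_DB (m : ℕ) (M κ : ℝ) {T : ℝ} (hT : 0 < T) {d β : ℕ → ℝ} (hd : ∀ n, 0 < d n) (hd1 : ∀ n, d n ≤ 1)
    {B : ℝ} (hβ : ∀ n, |β n| ≤ B) : DB (fun n => 1 / d n) (fun n => stg m M κ T (d n) (β n)) := by
  have hL : ∀ n, 1 ≤ 1 / d n := fun n => by
    rw [le_div_iff₀ (hd n)]; linarith [hd1 n]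
  have hWs : HasCompactSupport (amp T Wf) := amp_supp hT (fun x hx => Wf_right hx)
  have hZs : HasCompactSupport (amp T Zf) := amp_supp hT (fun x hx => Zf_right (by linarith))
  have hW := amp_cd T Wf_cd
  have hZ := amp_cd T Zf_cd
  have D1 : DB (fun n => 1 / d n) (fun _ w => amp T Wf w * bet m M w) :=
    DB.fixed (hW.mul (bet_cd m M)) hWs.mul_right hL
  have D2 : DB (fun n => 1 / d n) (fun _ w => amp T Zf w * bet m M w) :=
    DB.fixed (hZ.mul (bet_cd m M)) hZs.mul_right hL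
  have D3 : DB (fun n => 1 / d n) (fun n w => (amp T Wf w * sgs m w) * chi (xis m w / d n)) :=
    DB.scale (hW.mul (sgs_cd m)) hWs.mul_right (xis_cd m) chi_cd chi_supp hd hd1
  have D4 : DB (fun n => 1 / d n) (fun n w => (amp T Zf w * sgs m w) * chi (xis m w / d n)) :=
    DB.scale (hZ.mul (sgs_cd m)) hZs.mul_right (xis_cd m) chi_cd chi_supp hd hd1
  have hB : 0 ≤ B := (abs_nonneg _).trans (hβ 0)
  have H := (D1.add (D2.smul hβ)).add ((D3.smul (c := fun n => κ * d n) (C := |κ|) (fun n => by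
    rw [abs_mul, abs_of_pos (hd n)]
    exact mul_le_of_le_one_right (abs_nonneg _) (hd1 n))).add
    (D4.smul (c := fun n => κ * d n * β n) (C := |κ| * B) (fun n => by
      rw [abs_mul, abs_mul, abs_of_pos (hd n)]
      exact mul_le_mul (mul_le_of_le_one_right (abs_nonneg _) (hd1 n)) (hβ n) (abs_nonneg _) (abs_nonneg _))))
  have e : (fun n => stg m M κ T (d n) (β n)) = fun n w =>
      (amp T Wf w * bet m M w + β n * (amp T Zf w * bet m M w)) +
      (κ * d n * (amp T Wf w * sgs m w * chi (xis m w / d n)) +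
        κ * d n * β n * (amp T Zf w * sgs m w * chi (xis m w / d n))) := by
    funext n w
    unfold stg
    ring
  rw [e]
  exact H

lemma stg_zero {m : ℕ} {M κ T d β : ℝ} (hT : 0 < T) {w : ℂ} (h : ‖w‖ ≤ 1) : stg m M κ T d β w = 0 := by
  unfold stg
  rw [amp_zero hT (fun x hx => Wf_left (by linarith)) h, amp_zero hT (fun x hx => Zf_left hx) h]
  ring

lemma norm_pt (t θ : ℝ) : ‖pt t θ‖ = Real.exp t := by
  unfold pt
  rw [Complex.norm_exp]
  simp

lemma pt_mul (t θ t' θ' : ℝ) : pt t θ * pt t' θ' = pt (t + t') (θ + θ') := by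
  unfold pt
  rw [← Complex.exp_add]
  congr 1
  push_cast
  ring

lemma stg_pt {m : ℕ} {M κ T d β : ℝ} (hT : 0 < T) (s θ : ℝ) :
    stg m M κ T d β (pt s θ) = Real.exp s * (Wf (s / T) + β * Zf (s / T)) * psi M κ d (m * θ) := by
  rcases lt_or_ge s 0 with hs | hs
  · rw [stg_zero hT (by rw [norm_pt, Real.exp_le_one_iff]; exact hs.le),
      Wf_left (x := s / T) ((div_neg_of_neg_of_pos hs hT).le.trans (by norm_num)),
      Zf_left (x := s / T) (div_neg_of_neg_of_pos hs hT).le]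
    ring
  · have h1 : 1 ≤ ‖pt s θ‖ := by rw [norm_pt]; exact Real.one_le_exp hs
    have hN : Nm (pt s θ) = Real.exp s := by rw [Nm_eq h1, norm_pt]
    have hl : lg T (pt s θ) = s / T := by unfold lg; rw [hN, Real.log_exp]
    have hU : Uc m (pt s θ) = Complex.exp (((m * θ : ℝ) : ℂ) * Complex.I) := by
      unfold Uc
      rw [hN]
      have e1 : pt s θ * ((Real.exp s)⁻¹ : ℝ) = Complex.exp ((θ : ℂ) * Complex.I) := by
        unfold pt
        rw [← Real.exp_neg, Complex.ofReal_exp, ← Complex.exp_add]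
        congr 1
        push_cast
        ring
      rw [e1, ← Complex.exp_nat_mul]
      congr 1
      push_cast
      ring
    have hUa : ∀ a : ℝ, Uc m (pt s θ) * Complex.exp (-((a : ℂ) * Complex.I))
        = Complex.exp (((m * θ - a : ℝ) : ℂ) * Complex.I) := by
      intro a
      rw [hU, ← Complex.exp_add]
      congr 1
      push_cast
      ring
    have hb : bet m M (pt s θ) = Real.cos (m * θ) + M * stp (Real.cos (m * θ - Real.pi / 6)) := by
      unfold bet
      rw [hUa, hU, Complex.exp_ofReal_mul_I_re, Complex.exp_ofReal_mul_I_re]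
    have hsg : sgs m (pt s θ) = stp (Real.cos (m * θ - Real.pi / 3)) := by
      unfold sgs
      rw [hUa, Complex.exp_ofReal_mul_I_re]
    have hx : xis m (pt s θ) = Real.sin (2 * (m * θ - Real.pi / 3)) / 2 := by
      unfold xis
      rw [hUa, ← Complex.exp_nat_mul]
      have : ((2 : ℕ) : ℂ) * (((m * θ - Real.pi / 3 : ℝ) : ℂ) * Complex.I)
          = ((2 * (m * θ - Real.pi / 3) : ℝ) : ℂ) * Complex.I := by push_cast; ring
      rw [this, Complex.exp_ofReal_mul_I_im]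
    unfold stg amp
    rw [hN, hl, hb, hsg, hx]
    unfold psi spk
    have e2 : Real.sin (2 * (m * θ - Real.pi / 3)) / 2 / d = Real.sin (2 * (m * θ - Real.pi / 3)) / (2 * d) := by
      rw [div_div]
    rw [e2]
    ring

end Pool.Agent.H803
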