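import Pool.Agent.H803.Circ
import Pool.Agent.H803.Stage

set_option autoImplicit false

/-!
The function with an isolated umbilic of index `(m + 2) / 2`, for `m ≥ 1`.
-/

namespace Pool.Agent.H803

open Filter Topology Set
open scoped ContDiff ComplexConjugate

/-- scales -/
noncomputable def ds (n : ℕ) : ℝ := (1 / 4) ^ (n + 1)
/-- amplitudes -/
noncomputable def gs (K : ℝ) : ℕ → ℝ
  | 0 => 1
  | n + 1 => gs K n * (1 / (K * 4 ^ (n + 2)))
/-- relative size of the starter -/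
noncomputable def bs (ε K : ℝ) (n : ℕ) : ℝ := ε * (1 / (K * 4 ^ (n + 2)))

lemma ds_pos (n : ℕ) : 0 < ds n := by unfold ds; positivity
lemma ds_succ (n : ℕ) : ds n = 4 * ds (n + 1) := by unfold ds; rw [pow_succ (1 / 4 : ℝ) (n + 1)]; ring
lemma ds_le (n : ℕ) : ds n ≤ 1 / 4 := by
  unfold ds
  rw [pow_succ]
  have : (1 / 4 : ℝ) ^ n ≤ 1 := pow_le_one₀ (by norm_num) (by norm_num)
  linarith
lemma ds_le' (n : ℕ) : ds (n + 1) ≤ 1 / 16 := by
  have := ds_le n
  rw [ds_succ] at this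
  linarith
lemma ds_le_one (n : ℕ) : ds n ≤ 1 := (ds_le n).trans (by norm_num)

lemma gs_pos {K : ℝ} (hK : 0 < K) (n : ℕ) : 0 < gs K n := by
  induction n with
  | zero => exact one_pos
  | succ n ih => unfold gs; positivity

lemma gs_succ (K : ℝ) (n : ℕ) : gs K (n + 1) = gs K n * (1 / (K * 4 ^ (n + 2))) := rfl

lemma gs_ratio {K : ℝ} (hK : 0 < K) (n : ℕ) : gs K n = gs K (n + 1) * (K / ds (n + 1)) := by
  rw [gs_succ]
  unfold ds
  rw [one_div_pow]
  field_simp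

lemma gs_bs {K : ℝ} (ε : ℝ) (n : ℕ) : gs K n * bs ε K n = ε * gs K (n + 1) := by
  rw [gs_succ]; unfold bs; ring

/-- the function -/
noncomputable def ff (m : ℕ) (κ ε K T : ℝ) (z : ℂ) : ℝ :=
  ∑' n : ℕ, (Real.exp (-(n * T)) * gs K n) *
    stg m ((m : ℝ) ^ 2) κ T (ds n) (bs ε K n) (pt (n * T) (n * (Real.pi / 3) / m) * z)

section

variable {m : ℕ} {κ ε K T : ℝ}

lemma ff_sum (hε : 0 < ε) (hK : 0 < K) (hT : 0 < T) : ContDiff ℝ ∞ (ff m κ ε K T) ∧
    iteratedFDeriv ℝ 2 (ff m κ ε K T) 0 = 0 := by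
  have hB : ∀ n, |bs ε K n| ≤ ε * (1 / K) := by
    intro n
    unfold bs
    rw [abs_of_pos (by positivity)]
    apply mul_le_mul_of_nonneg_left _ hε.le
    apply one_div_le_one_div_of_le hK
    have : (1:ℝ) ≤ 4 ^ (n + 2) := one_le_pow₀ (by norm_num)
    nlinarith
  have H := stg_DB m ((m : ℝ) ^ 2) κ hT ds_pos ds_le_one hB
  have hL : ∀ n, 0 ≤ 1 / ds n := fun n => by
    have := ds_pos n
    positivity
  have hl : ∀ n : ℕ, ‖pt (n * T) (n * (Real.pi / 3) / m)‖ ≤ Real.exp (n * T) := fun n => by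
    rw [norm_pt]
  have hs : ∀ k : ℕ, Summable (fun n : ℕ => |Real.exp (-(n * T)) * gs K n| * ((1 / ds n) * Real.exp (n * T)) ^ k) := by
    intro k
    have h := gauss_summable (x := Real.exp (-T) * (4 * Real.exp T) ^ k) (y := 4 ^ k) (by positivity) (by positivity)
      (gs_pos hK) hK (gs_succ K)
    refine h.congr (fun n => ?_)
    have h1 := gs_pos hK n
    rw [abs_of_pos (by positivity)]
    have e1 : Real.exp (-(n * T)) = Real.exp (-T) ^ n := by rw [← Real.exp_nat_mul]; ring_nf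
    have e2 : Real.exp (n * T) = Real.exp T ^ n := by rw [← Real.exp_nat_mul]
    rw [e1, e2]
    unfold ds
    rw [one_div_pow, one_div_one_div, pow_succ]
    simp only [mul_pow, ← pow_mul]
    rw [mul_comm k n]
    ring
  refine ⟨series_smooth H hL hl hs, series_second H hL hl hs (fun n => ?_)⟩
  have : Metric.ball (0 : ℂ) 1 ∈ 𝓝 (0 : ℂ) := Metric.ball_mem_nhds _ one_pos
  filter_upwards [this] with w hw
  apply stg_zero hT
  have : ‖w‖ < 1 := by simpa using hw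
  exact this.le

/-- only two stages are active -/
lemma ff_pt (hm : 1 ≤ m) (hT : 0 < T) (n : ℕ) {t : ℝ} (h1 : -(1 / 4) < t / T + n) (h2 : t / T + n < 1) (θ : ℝ) :
    ff m κ ε K T (pt t θ) = Real.exp t *
      ((gs K n * Wf (t / T + n) + ε * gs K (n + 1) * Zf (t / T + n))
        * psi ((m : ℝ) ^ 2) κ (ds n) (m * θ + n * (Real.pi / 3))
      + (gs K (n + 1) * Wf (t / T + (n + 1))) * psi ((m : ℝ) ^ 2) κ (ds (n + 1)) (m * θ + (n + 1) * (Real.pi / 3))) := by
  have hm0 : (m : ℝ) ≠ 0 := by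
    have : (1:ℝ) ≤ m := by exact_mod_cast hm
    positivity
  have term : ∀ j : ℕ, (Real.exp (-(j * T)) * gs K j) *
      stg m ((m : ℝ) ^ 2) κ T (ds j) (bs ε K j) (pt (j * T) (j * (Real.pi / 3) / m) * pt t θ)
      = Real.exp t * ((gs K j * Wf (t / T + j) + ε * gs K (j + 1) * Zf (t / T + j))
        * psi ((m : ℝ) ^ 2) κ (ds j) (m * θ + j * (Real.pi / 3))) := by
    intro j
    rw [pt_mul, stg_pt hT]
    have e1 : (j * T + t) / T = t / T + j := by field_simp; ring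
    have e2 : (m : ℝ) * (j * (Real.pi / 3) / m + θ) = m * θ + j * (Real.pi / 3) := by field_simp; ring
    have e3 : Real.exp (j * T + t) = Real.exp (j * T) * Real.exp t := Real.exp_add _ _
    have e4 : Real.exp (-(j * T)) * Real.exp (j * T) = 1 := by
      rw [← Real.exp_add]; simp
    rw [e1, e2, e3, ← gs_bs]
    linear_combination (gs K j * Real.exp t * (Wf (t / T + j) + bs ε K j * Zf (t / T + j))
      * psi ((m : ℝ) ^ 2) κ (ds j) (m * θ + j * (Real.pi / 3))) * e4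
  unfold ff
  simp only [term]
  rw [tsum_eq_sum (s := {n, n + 1})]
  · rw [Finset.sum_pair (by omega)]
    push_cast
    rw [Zf_right (x := t / T + (n + 1)) (by linarith)]
    ring
  · intro j hj
    simp only [Finset.mem_insert, Finset.mem_singleton, not_or] at hj
    rcases lt_or_gt_of_ne hj.1 with h | h
    · have hj' : (j : ℝ) + 1 ≤ n := by exact_mod_cast h
      rw [Wf_left (x := t / T + j) (by linarith), Zf_left (x := t / T + j) (by linarith)]
      ring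
    · have h' : n + 2 ≤ j := by omega
      have hj' : (n : ℝ) + 2 ≤ j := by exact_mod_cast h'
      rw [Wf_right (x := t / T + j) (by linarith), Zf_right (x := t / T + j) (by linarith)]
      ring

lemma ff_window (hm : 1 ≤ m) (hc : Cst ((m : ℝ) ^ 2) κ ε K T) {t0 : ℝ} (n : ℕ)
    (h1 : 0 ≤ t0 / T + n) (h2 : t0 / T + n < 1) (τ : ℝ) :
    conj (pt t0 τ) ^ 2 * Qf (ff m κ ε K T) (pt t0 τ) =
      ((Real.exp t0 * gs K (n + 1) : ℝ) : ℂ) *
        ((qre ((m : ℝ) ^ 2) κ ε K T (ds (n + 1)) (t0 / T + n) (m * τ + (n + 1) * (Real.pi / 3)) : ℂ)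
        + (((2 * m / T) * qim ((m : ℝ) ^ 2) κ ε K (ds (n + 1)) (t0 / T + n)
            (m * τ + (n + 1) * (Real.pi / 3)) : ℝ) : ℂ) * Complex.I) := by
  have hT := hc.T0
  have hK := hc.K0
  have hε := hc.ε0
  set M : ℝ := (m : ℝ) ^ 2 with hM
  obtain ⟨hf, -⟩ := ff_sum (m := m) (κ := κ) hε hK hT
  -- time functions
  have affine : ∀ (a t : ℝ), HasDerivAt (fun t => t / T + a) T⁻¹ t := fun a t => by
    have : HasDerivAt (fun t : ℝ => t / T + a) (1 / T) t := ((hasDerivAt_id t).div_const T).add_const a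
    rwa [one_div] at this
  have tc : ∀ {g : ℝ → ℝ} (_ : ContDiff ℝ ∞ g) (a t : ℝ),
      HasDerivAt (fun t => g (t / T + a)) (deriv g (t / T + a) * T⁻¹) t := fun {g} hg a t =>
    HasDerivAt.comp t (cd_has hg (t / T + a)) (affine a t)
  have hy : ∀ t, HasDerivAt (fun t => gs K n * Wf (t / T + n) + ε * gs K (n + 1) * Zf (t / T + n))
      (gs K n * (deriv Wf (t / T + n) * T⁻¹) + ε * gs K (n + 1) * (deriv Zf (t / T + n) * T⁻¹)) t := fun t =>
    ((tc Wf_cd n t).const_mul _).add ((tc Zf_cd n t).const_mul _)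
  have hy1 : ∀ t, HasDerivAt
      (fun t => gs K n * (deriv Wf (t / T + n) * T⁻¹) + ε * gs K (n + 1) * (deriv Zf (t / T + n) * T⁻¹))
      (gs K n * (deriv (deriv Wf) (t / T + n) * T⁻¹ * T⁻¹)
        + ε * gs K (n + 1) * (deriv (deriv Zf) (t / T + n) * T⁻¹ * T⁻¹)) t := fun t =>
    (((tc (cd_deriv Wf_cd) n t).mul_const _).const_mul _).add
      (((tc (cd_deriv Zf_cd) n t).mul_const _).const_mul _)
  have hX : ∀ t, HasDerivAt (fun t => gs K (n + 1) * Wf (t / T + (n + 1)))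
      (gs K (n + 1) * (deriv Wf (t / T + (n + 1)) * T⁻¹)) t := fun t => (tc Wf_cd (n + 1) t).const_mul _
  have hX1 : ∀ t, HasDerivAt (fun t => gs K (n + 1) * (deriv Wf (t / T + (n + 1)) * T⁻¹))
      (gs K (n + 1) * (deriv (deriv Wf) (t / T + (n + 1)) * T⁻¹ * T⁻¹)) t := fun t =>
    ((tc (cd_deriv Wf_cd) (n + 1) t).mul_const _).const_mul _
  -- angular functions
  have aff : ∀ (a t : ℝ), HasDerivAt (fun t => m * t + a) (m : ℝ) t := fun a t => by
    have : HasDerivAt (fun t : ℝ => m * t + a) ((m : ℝ) * 1) t := ((hasDerivAt_id t).const_mul (m : ℝ)).add_const a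
    rwa [mul_one] at this
  have uu : ∀ (j : ℕ) (a t : ℝ), HasDerivAt (fun t => psi M κ (ds j) (m * t + a))
      (psi1 M κ (ds j) (m * t + a) * m) t := fun j a t =>
    HasDerivAt.comp (h₂ := psi M κ (ds j)) t (psi_has M κ (ds_pos j) (ds_le j) (m * t + a)) (aff a t)
  have uu1 : ∀ (j : ℕ) (a t : ℝ), HasDerivAt (fun t => psi1 M κ (ds j) (m * t + a) * m)
      (psi2 M κ (ds j) (m * t + a) * m * m) t := fun j a t =>
    (HasDerivAt.comp (h₂ := psi1 M κ (ds j)) t (psi1_has M κ (ds_pos j) (ds_le j) (m * t + a)) (aff a t)).mul_const _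
  have hJ : {t : ℝ | -(1 / 4) < t / T + n ∧ t / T + n < 1} ∈ 𝓝 t0 := by
    have hc1 : Continuous fun t : ℝ => t / T + n := by fun_prop
    apply IsOpen.mem_nhds
    · exact (isOpen_lt continuous_const hc1).inter (isOpen_lt hc1 continuous_const)
    · exact ⟨by linarith, h2⟩
  have h := polar2 hf hy hy1 hX hX1 (uu n (n * (Real.pi / 3))) (uu1 n (n * (Real.pi / 3)))
    (uu (n + 1) ((n + 1) * (Real.pi / 3))) (uu1 (n + 1) ((n + 1) * (Real.pi / 3))) t0 τ hJ
    (fun t ht θ => ff_pt hm hT n ht.1 ht.2 θ)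
  rw [h]
  have e1 : (m : ℝ) * τ + n * (Real.pi / 3) = (m * τ + (n + 1) * (Real.pi / 3)) - Real.pi / 3 := by ring
  have e2 : t0 / T + ((n : ℝ) + 1) = 1 + (t0 / T + n) := by ring
  have e3 := gs_ratio hK n
  rw [e1, e2, e3, ds_succ n]
  unfold qre qim pp
  rw [hM]
  generalize hA : (m * τ + (n + 1) * (Real.pi / 3) : ℝ) = A
  generalize hS : t0 / T + (n : ℝ) = S
  generalize ds (n + 1) = D
  generalize gs K (n + 1) = G
  push_cast
  ring

theorem main_m (m : ℕ) (hm : 1 ≤ m) : ∃ f : ℂ → ℝ, ContDiff ℝ ∞ f ∧ Qf f 0 = 0 ∧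
    ∀ t0 : ℝ, t0 < 0 → ∃ c : ℝ, ∀ τ : ℝ,
      Qf f (pt t0 τ) * Complex.exp (-(((((m + 2 : ℕ) : ℤ) * τ + c : ℝ) : ℂ) * Complex.I)) ∈ Complex.slitPlane := by
  have hM : (1:ℝ) ≤ (m : ℝ) ^ 2 := by
    have : (1:ℝ) ≤ m := by exact_mod_cast hm
    nlinarith
  obtain ⟨κ, ε, K, T, hc⟩ := exists_cst ((m : ℝ) ^ 2) hM
  have hT := hc.T0
  have hK := hc.K0
  obtain ⟨hf, h0⟩ := ff_sum (m := m) (κ := κ) hc.ε0 hK hT
  refine ⟨ff m κ ε K T, hf, ?_, ?_⟩
  · unfold Qf
    rw [h0]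
    simp
  · intro t0 ht0
    have hneg : t0 / T < 0 := div_neg_of_neg_of_pos ht0 hT
    obtain ⟨n, hn⟩ : ∃ n : ℕ, (n : ℤ) = -⌊t0 / T⌋ := by
      have : 0 ≤ -⌊t0 / T⌋ := by
        have : ⌊t0 / T⌋ < 0 := by
          rw [Int.floor_lt]; simpa using hneg
        omega
      exact ⟨(-⌊t0 / T⌋).toNat, Int.toNat_of_nonneg this⟩
    have hn' : (n : ℝ) = -(⌊t0 / T⌋ : ℝ) := by exact_mod_cast hn
    have h1 : 0 ≤ t0 / T + n := by
      rw [hn']; linarith [Int.floor_le (t0 / T)]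
    have h2 : t0 / T + n < 1 := by
      rw [hn']; linarith [Int.lt_floor_add_one (t0 / T)]
    have hm0 : (0:ℝ) < m := by exact_mod_cast hm
    have hG := hc.good (ds (n + 1)) (ds_pos _) (ds_le' n) (t0 / T + n) h1 h2
    obtain ⟨c, hcs⟩ := good_slit (fun φ => qre_anti _ _ _ _ _ _ _ φ) (fun φ => qim_anti _ _ _ _ _ _ φ) hG
      (μ := 2 * m / T) (by positivity)
    refine ⟨_, fun τ => circle_slit (G := Real.exp t0 * gs K (n + 1)) (mul_pos (Real.exp_pos _) (gs_pos hK _))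
      (fun τ => ff_window hm hc n h1 h2 τ) hcs τ⟩

end

end Pool.Agent.H803
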