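import Pool.Agent.H803.Low
import Pool.Agent.H803.Main

set_option autoImplicit false

/-!
Every half-integer is the index of an isolated umbilical point of a smooth function on the plane.
-/

open scoped ContDiff

namespace Pool.Agent.H803.EveryIndex

open Pool.Agent.H803

lemma exists_winding (k : ℤ) : ∃ f : ℂ → ℝ, HasWinding k f := by
  rcases le_or_gt k 1 with h | h
  · obtain ⟨f, hf⟩ := low_le_one (3 - k).toNat (by omega)
    refine ⟨f, ?_⟩
    have e : (3 : ℤ) - ((3 - k).toNat : ℕ) = k := by omega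
    rwa [e] at hf
  rcases eq_or_lt_of_le (show 2 ≤ k from h) with h2 | h2
  · subst h2
    exact low_two
  · obtain ⟨f, h1, h3, h4⟩ := main_m (k - 2).toNat (by omega)
    refine ⟨f, h1, h3, ?_⟩
    have e : (((k - 2).toNat + 2 : ℕ) : ℤ) = k := by omega
    rw [e] at h4
    exact h4

lemma circ (r t : ℝ) (hr : 0 < r) : (r : ℂ) * Complex.exp ((t : ℂ) * Complex.I) = pt (Real.log r) t := by
  unfold pt
  rw [Complex.exp_add, ← Complex.ofReal_exp, Real.exp_log hr]

lemma circle_lift {k : ℤ} {f : ℂ → ℝ} (H : HasWinding k f) {r : ℝ} (hr : 0 < r) (hr1 : r < 1) :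
    (∃ Θ : ℝ → ℝ, Continuous Θ ∧
      (∀ τ, Qf f (pt (Real.log r) τ) = ((‖Qf f (pt (Real.log r) τ)‖ : ℝ) : ℂ) * Complex.exp ((Θ τ : ℂ) * Complex.I)) ∧
      Θ (2 * Real.pi) - Θ 0 = 2 * Real.pi * k) ∧
    (∀ τ, Qf f (pt (Real.log r) τ) ≠ 0) ∧
    ∀ θ : ℝ → ℝ, ContinuousOn θ (Set.Icc 0 (2 * Real.pi)) →
      (∀ τ ∈ Set.Icc 0 (2 * Real.pi), Qf f (pt (Real.log r) τ)
        = ((‖Qf f (pt (Real.log r) τ)‖ : ℝ) : ℂ) * Complex.exp ((θ τ : ℂ) * Complex.I)) →
      θ (2 * Real.pi) - θ 0 = 2 * Real.pi * k := by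
  obtain ⟨c, hc⟩ := H.2.2 (Real.log r) (Real.log_neg hr hr1)
  have hcont : Continuous fun τ : ℝ => Qf f (pt (Real.log r) τ) := by
    apply (Qf_cont H.1).comp
    unfold pt
    fun_prop
  have hper : Qf f (pt (Real.log r) (2 * Real.pi)) = Qf f (pt (Real.log r) 0) := by
    congr 1
    unfold pt
    rw [Complex.exp_add, Complex.exp_add]
    congr 1
    push_cast
    rw [Complex.exp_two_pi_mul_I]
    simp
  exact lift_of_slit hcont hper k c hc

/-- For every integer `k` there is a smooth function on the plane whose Hessian is umbilical at `0`, not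
umbilical at any other point of the unit disc, and for which the index of the umbilical point is `k / 2`:
the function `Q = f_xx - f_yy + 2 i f_xy = 4 f_{z̄z̄}` winds exactly `k` times around every circle
`|z| = r < 1`, measured by continuous arguments. -/
theorem result (k : ℤ) :
    ∃ (f : ℂ → ℝ) (Q : ℂ → ℂ), ContDiff ℝ ∞ f ∧
      (∀ z : ℂ, Q z =
          ((iteratedFDeriv ℝ 2 f z ![(1 : ℂ), 1] - iteratedFDeriv ℝ 2 f z ![Complex.I, Complex.I] : ℝ) : ℂ)
            + 2 * ((iteratedFDeriv ℝ 2 f z ![(1 : ℂ), Complex.I] : ℝ) : ℂ) * Complex.I) ∧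
      Q 0 = 0 ∧
      (∀ z : ℂ, z ≠ 0 → ‖z‖ < 1 → Q z ≠ 0) ∧
      ∀ r : ℝ, 0 < r → r < 1 →
        (∃ θ : ℝ → ℝ, Continuous θ ∧
          (∀ t : ℝ, Q ((r : ℂ) * Complex.exp ((t : ℂ) * Complex.I))
                = ((‖Q ((r : ℂ) * Complex.exp ((t : ℂ) * Complex.I))‖ : ℝ) : ℂ)
                    * Complex.exp ((θ t : ℂ) * Complex.I)) ∧
          θ (2 * Real.pi) - θ 0 = 2 * Real.pi * k) ∧
        (∀ θ : ℝ → ℝ, ContinuousOn θ (Set.Icc 0 (2 * Real.pi)) →
          (∀ t ∈ Set.Icc 0 (2 * Real.pi),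
              Q ((r : ℂ) * Complex.exp ((t : ℂ) * Complex.I))
                = ((‖Q ((r : ℂ) * Complex.exp ((t : ℂ) * Complex.I))‖ : ℝ) : ℂ)
                    * Complex.exp ((θ t : ℂ) * Complex.I)) →
          θ (2 * Real.pi) - θ 0 = 2 * Real.pi * k) := by
  obtain ⟨f, H⟩ := exists_winding k
  refine ⟨f, Qf f, H.1, fun z => rfl, H.2.1, ?_, ?_⟩
  · intro z hz hz1
    have h1 : 0 < ‖z‖ := norm_pos_iff.2 hz
    have h2 := (circle_lift H h1 hz1).2.1 (Complex.arg z)
    rw [← circ _ _ h1, Complex.norm_mul_exp_arg_mul_I] at h2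
    exact h2
  · intro r hr hr1
    obtain ⟨⟨Θ, q1, q2, q3⟩, -, q4⟩ := circle_lift H hr hr1
    refine ⟨⟨Θ, q1, fun t => ?_, q3⟩, ?_⟩
    · rw [circ r t hr]
      exact q2 t
    · intro θ hθ hθ'
      apply q4 θ hθ
      intro t ht
      have := hθ' t ht
      rw [circ r t hr] at this
      exact this

end Pool.Agent.H803.EveryIndex
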