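import Pool.Agent.H867.FT.Gen6
import Pool.Agent.H261.FT867PSC

/-!
# Finite algebras over power series rings over F-finite fields are F-finite
-/

set_option autoImplicit false

namespace Pool.Agent.H803.FT867FF2

open Pool.Agent.H867.FT MvPowerSeries
open Pool.Agent.H261.FT867 (ex ex_apply coeff_smul_pow coeff_pow_of_not_dvd)

/-- a criterion for finite ring homomorphisms -/
theorem fin_of {A B ι : Type} [CommRing A] [CommRing B] [Fintype ι] (f : A →+* B) (m : ι → B)
    (h : ∀ b, ∃ c : ι → A, b = ∑ i, f (c i) * m i) : f.Finite := by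
  classical
  let _ : Algebra A B := f.toAlgebra
  refine ⟨⟨Finset.univ.image m, ?_⟩⟩
  rw [eq_top_iff]
  rintro b -
  obtain ⟨c, hc⟩ := h b
  rw [hc]
  refine Submodule.sum_mem _ fun i _ => ?_
  have h2 : m i ∈ ((Finset.univ.image m : Finset B) : Set B) := by
    rw [Finset.coe_image]
    exact ⟨i, Finset.mem_coe.2 (Finset.mem_univ i), rfl⟩
  exact Submodule.smul_mem _ (c i) (Submodule.subset_span h2)

/-- the converse -/
theorem of_fin {A B : Type} [CommRing A] [CommRing B] (f : A →+* B) (hf : f.Finite) :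
    ∃ (n : ℕ) (m : Fin n → B), ∀ b, ∃ c : Fin n → A, b = ∑ i, f (c i) * m i := by
  letI : Algebra A B := f.toAlgebra
  haveI : Module.Finite A B := hf
  obtain ⟨n, m, hm⟩ := Module.Finite.exists_fin (R := A) (M := B)
  refine ⟨n, m, fun b => ?_⟩
  have hb : b ∈ Submodule.span A (Set.range m) := by
    rw [hm]
    exact Submodule.mem_top
  obtain ⟨c, hc⟩ := (Submodule.mem_span_range_iff_exists_fun A).1 hb
  exact ⟨c, hc.symm⟩

/-- the power series ring is F-finite -/
theorem frob_fin (p : ℕ) [Fact p.Prime] (k : Type) [Field k] [CharP k p]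
    (hk : (frobenius k p).Finite) (d : ℕ) [CharP (MvPowerSeries (Fin d) k) p] :
    (frobenius (MvPowerSeries (Fin d) k) p).Finite := by
  classical
  have hp : 0 < p := (Fact.out : p.Prime).pos
  obtain ⟨n, m, hm⟩ := of_fin _ hk
  choose κ hκ using hm
  refine fin_of (ι := (Fin d → Fin (p ^ 1)) × Fin n) _
    (fun z => monomial (ex d z.1) (m z.2)) fun g =>
    ⟨fun z => fun b => κ (coeff (p ^ 1 • b + ex d z.1) g) z.2, ?_⟩
  set c : (Fin d → Fin (p ^ 1)) × Fin n → MvPowerSeries (Fin d) k :=
    fun z => fun b => κ (coeff (p ^ 1 • b + ex d z.1) g) z.2 with hc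
  have hcc : ∀ z b, coeff b (c z) = κ (coeff (p ^ 1 • b + ex d z.1) g) z.2 := fun z b => rfl
  have hfr : ∀ x : MvPowerSeries (Fin d) k,
      frobenius (MvPowerSeries (Fin d) k) p x = x ^ p ^ 1 := by
    intro x
    rw [frobenius_def, pow_one]
  have hq : 0 < p ^ 1 := by rwa [pow_one]
  ext N
  obtain ⟨b, a₀, rfl⟩ : ∃ (b : Fin d →₀ ℕ) (c : Fin d → Fin (p ^ 1)), N = p ^ 1 • b + ex d c := by
    refine ⟨N.mapRange (· / p ^ 1) (Nat.zero_div _),
      fun i => (⟨N i % p ^ 1, Nat.mod_lt _ hq⟩ : Fin (p ^ 1)), ?_⟩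
    ext i
    simp only [Finsupp.smul_apply, smul_eq_mul, Finsupp.mapRange_apply, Finsupp.add_apply,
      ex_apply]
    exact (Nat.div_add_mod _ _).symm
  rw [map_sum, Fintype.sum_prod_type, Finset.sum_eq_single a₀]
  · conv_lhs => rw [hκ (coeff (p ^ 1 • b + ex d a₀) g)]
    refine Finset.sum_congr rfl fun j _ => ?_
    have h1 : ∀ z : k, frobenius k p z = z ^ p ^ 1 := fun z => by rw [frobenius_def, pow_one]
    rw [hfr, coeff_add_mul_monomial, coeff_smul_pow, hcc, h1]
  · intro a _ ha
    refine Finset.sum_eq_zero fun j _ => ?_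
    rw [hfr, coeff_mul_monomial]
    split_ifs with hle
    · by_cases hd : ∀ i, p ^ 1 ∣ (p ^ 1 • b + ex d a₀ - ex d a) i
      · exfalso
        apply ha
        funext i
        apply Fin.ext
        obtain ⟨t, ht⟩ := hd i
        have h1 : (a i : ℕ) ≤ p ^ 1 * b i + a₀ i := hle i
        rw [Finsupp.tsub_apply, Finsupp.add_apply, Finsupp.smul_apply, smul_eq_mul, ex_apply,
          ex_apply] at ht
        have h2 : p ^ 1 * b i + a₀ i = a i + p ^ 1 * t := by omega
        have h3 : (p ^ 1 * b i + a₀ i) % p ^ 1 = (a i + p ^ 1 * t) % p ^ 1 := by rw [h2]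
        rw [Nat.add_mul_mod_self_left, Nat.mod_eq_of_lt (a i).isLt, Nat.mul_add_mod,
          Nat.mod_eq_of_lt (a₀ i).isLt] at h3
        exact h3.symm
      · push Not at hd
        obtain ⟨i, hi⟩ := hd
        rw [coeff_pow_of_not_dvd _ hi, zero_mul]
    · rfl
  · intro h
    exact absurd (Finset.mem_univ _) h

theorem ff2 : S_FF2 := by
  constructor
  · intro p _ k _ _ hk d S _ _ _ _
    have hP : CharP (MvPowerSeries (Fin d) k) p :=
      charP_of_injective_ringHom (f := (MvPowerSeries.C : k →+* MvPowerSeries (Fin d) k))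
        MvPowerSeries.C_injective p
    have h1 := frob_fin p k hk d
    have h2 := RingHom.frobenius_comm (algebraMap (MvPowerSeries (Fin d) k) S) p
    have h3 : (algebraMap (MvPowerSeries (Fin d) k) S).Finite :=
      RingHom.finite_algebraMap.2 inferInstance
    have h4 : ((frobenius S p).comp (algebraMap (MvPowerSeries (Fin d) k) S)).Finite := by
      rw [← h2]
      exact h3.comp h1
    exact RingHom.Finite.of_comp_finite h4
  · intro p _ S _ _ _ _ hS
    have h2 := RingHom.frobenius_comm (IsLocalRing.residue S) p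
    have h3 : (IsLocalRing.residue S).Finite :=
      RingHom.Finite.of_surjective _ IsLocalRing.residue_surjective
    have h4 : ((frobenius (IsLocalRing.ResidueField S) p).comp (IsLocalRing.residue S)).Finite := by
      rw [← h2]
      exact h3.comp hS
    exact RingHom.Finite.of_comp_finite h4

end Pool.Agent.H803.FT867FF2
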