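import Mathlib
import Pool.Agent.H979.GW.StmA

/-!
# Project GW (helper979, MP_276d40_pr), part POIS: the Poisson equation along the tree

`φ b = (ρ + d) (G b - cG)` has weighted mean zero, so `L_j = ρ ^ (-j) T ^ j φ` decays geometrically in
`L²` (KEY). With `t < 1` and `Y = ∑ t ^ (-2 j) L_j ^ 2`, which is integrable, `|L_j| ≤ t ^ j √Y`, and the
finite sums of the `L_j` are at most `√Y / (1 - t)`.
-/

set_option autoImplicit false
set_option linter.unusedSectionVars false
set_option linter.unusedVariables false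

open MeasureTheory ProbabilityTheory Filter Topology Set
open scoped ENNReal NNReal

namespace Pool.Agent.H803.GW

open Pool.Agent.H979.GW

variable {Q : Type} [Fintype Q] [DecidableEq Q]

theorem sh_cons (c : Q × ℕ) (v : Vx Q) (ω : Env Q) : sh [c] (sh v ω) = sh (c :: v) ω := by
  funext u
  show ω ((u ++ [c]) ++ v) = ω (u ++ (c :: v))
  rw [List.append_assoc]
  rfl

theorem sh_root (v : Vx Q) (ω : Env Q) : sh v ω [] = ω v := rfl

theorem card_cast (ω : Env Q) : ((cht ω []).card : ℝ) = ∑ b, (ω [] b : ℝ) := by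
  show ((chd (ω [])).card : ℝ) = _
  rw [card_chd]
  push_cast
  rfl

theorem meas_card : Measurable fun ω : Env Q => ((cht ω []).card : ℝ) := by
  simp_rw [card_cast]
  refine Finset.measurable_sum _ fun b _ => ?_
  have h1 : Measurable fun ω : Env Q => ω [] b := (measurable_pi_apply b).comp (measurable_pi_apply [])
  exact (measurable_from_top (f := fun n : ℕ => (n : ℝ))).comp h1

theorem memLp_card (q : Q → Measure (Q → ℕ)) [∀ a, IsProbabilityMeasure (q a)]
    (hmom : ∀ a b, Integrable (fun x : Q → ℕ => (x b : ℝ) ^ 2) (q a)) (a : Q) :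
    MemLp (fun ω : Env Q => ((cht ω []).card : ℝ)) 2 (law q a) := by
  simp_rw [card_cast]
  refine memLp_finsetSum _ fun b _ => ?_
  have h1 : MeasurePreserving (Function.eval ([] : Vx Q)) (law q a) (q a) := by
    have := measurePreserving_eval_infinitePi (fun v : Vx Q => q (ty a v)) []
    exact this
  have h2 : MemLp (fun x : Q → ℕ => (x b : ℝ)) 2 (q a) := by
    have hm : Measurable fun x : Q → ℕ => (x b : ℝ) :=
      (measurable_from_top (f := fun n : ℕ => (n : ℝ))).comp (measurable_pi_apply b)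
    exact (memLp_two_iff_integrable_sq hm.aestronglyMeasurable).2 (hmom a b)
  exact h2.comp_measurePreserving h1

/-- the Poisson equation along the tree -/
theorem gw_pois (q : Q → Measure (Q → ℕ)) [∀ a, IsProbabilityMeasure (q a)] {ρ : ℝ} {e m : Q → ℝ}
    {C r : ℝ} (hy : Hyp q ρ e m C r) (hsh : S_SH q) (hkey : S_KEY q ρ m) (hlln : S_LLN q ρ e m)
    (hlev : S_LEV Q) : S_POIS q ρ m := by
  intro G M hGm hGb a
  have hρ := hy.rho
  have hρ0 : 0 < ρ := by linarith
  set c0 := cG q ρ m G with hc0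
  let φ : Q → Env Q → ℝ := fun b ω => (ρ + (cht ω []).card) * (G b ω - c0)
  have hcard := memLp_card q hy.mom
  have hw : ∀ b, MemLp (fun ω : Env Q => ρ + ((cht ω []).card : ℝ)) 2 (law q b) := fun b =>
    (memLp_const ρ).add (hcard b)
  have hwm : Measurable fun ω : Env Q => ρ + ((cht ω []).card : ℝ) := meas_card.const_add ρ
  have hφ : ∀ b, MemLp (φ b) 2 (law q b) := by
    intro b
    refine (hw b).of_le_mul (c := M + |c0|) ?_ ?_
    · exact (hwm.mul ((hGm b).sub_const c0)).aestronglyMeasurable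
    · refine Eventually.of_forall fun ω => ?_
      show ‖(ρ + ((cht ω []).card : ℝ)) * (G b ω - c0)‖ ≤ _
      rw [norm_mul, mul_comm]
      refine mul_le_mul_of_nonneg_right ?_ (norm_nonneg _)
      rw [Real.norm_eq_abs]
      calc |G b ω - c0| ≤ |G b ω| + |c0| := abs_sub _ _
        _ ≤ M + |c0| := by linarith [hGb b ω]
  have hwi : ∀ b, Integrable (fun ω : Env Q => ρ + ((cht ω []).card : ℝ)) (law q b) := fun b =>
    (hw b).integrable one_le_two
  have hmean : ∑ b, m b * ∫ ω, φ b ω ∂(law q b) = 0 := by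
    have h1 : ∀ b, ∫ ω, φ b ω ∂(law q b) =
        ∫ ω, (ρ + (cht ω []).card) * G b ω ∂(law q b) -
          c0 * ∫ ω, (ρ + ((cht ω []).card : ℝ)) ∂(law q b) := by
      intro b
      have h2 : ∀ ω, φ b ω = (ρ + (cht ω []).card) * G b ω - c0 * (ρ + ((cht ω []).card : ℝ)) := by
        intro ω
        show (ρ + ((cht ω []).card : ℝ)) * (G b ω - c0) = _
        ring
      simp_rw [h2]
      rw [integral_sub, integral_const_mul]
      · refine (hwi b).mul_bdd (c := M) (hGm b).aestronglyMeasurable ?_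
        exact Eventually.of_forall fun ω => hGb b ω
      · exact (hwi b).const_mul c0
    simp_rw [h1, mul_sub]
    rw [Finset.sum_sub_distrib]
    have h3 : ∑ b, m b * (c0 * ∫ ω, (ρ + ((cht ω []).card : ℝ)) ∂(law q b)) =
        c0 * ∑ b, m b * ∫ ω, (ρ + ((cht ω []).card : ℝ)) ∂(law q b) := by
      rw [Finset.mul_sum]
      exact Finset.sum_congr rfl fun b _ => by ring
    rw [h3]
    have hpos : 0 < ∑ b, m b * ∫ ω, (ρ + ((cht ω []).card : ℝ)) ∂(law q b) := by
      refine Finset.sum_pos (fun b _ => mul_pos (hy.pf.m_pos b) ?_) ⟨a, Finset.mem_univ a⟩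
      have h4 : ∫ ω : Env Q, ρ ∂(law q b) ≤ ∫ ω, (ρ + ((cht ω []).card : ℝ)) ∂(law q b) := by
        refine integral_mono (integrable_const ρ) (hwi b) fun ω => ?_
        show ρ ≤ ρ + ((cht ω []).card : ℝ)
        linarith [Nat.cast_nonneg (α := ℝ) (cht ω []).card]
      rw [integral_const, probReal_univ, one_smul] at h4
      linarith
    have h5 : c0 * ∑ b, m b * ∫ ω, (ρ + ((cht ω []).card : ℝ)) ∂(law q b) =
        ∑ b, m b * ∫ ω, (ρ + (cht ω []).card) * G b ω ∂(law q b) := by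
      rw [hc0]
      unfold cG
      exact div_mul_cancel₀ _ hpos.ne'
    rw [h5, sub_self]
  obtain ⟨K, s, hK, hs0, hs1, hkk⟩ := hkey φ hφ hmean
  -- a number `t` with `s < t ^ 2 < 1`
  obtain ⟨t, ht0, ht1, hst⟩ : ∃ t : ℝ, 0 < t ∧ t < 1 ∧ s < t ^ 2 := by
    refine ⟨Real.sqrt ((1 + s) / 2), Real.sqrt_pos.2 (by linarith), ?_, ?_⟩
    · rw [Real.sqrt_lt' one_pos]
      linarith
    · rw [Real.sq_sqrt (by linarith)]
      linarith
  let L : ℕ → Q → Env Q → ℝ := fun j b ω => (ρ⁻¹) ^ j * TT^[j] φ b ω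
  have hLm : ∀ j b, MemLp (L j b) 2 (law q b) := fun j b => ((hkk j b).1).const_mul _
  have hL2 : ∀ j b, ∫ ω, L j b ω ^ 2 ∂(law q b) ≤ K * s ^ j := fun j b => (hkk j b).2
  let u : ℕ → Q → Env Q → ℝ := fun j b ω => ((t ^ j)⁻¹ * L j b ω) ^ 2
  have hui : ∀ j b, Integrable (u j b) (law q b) := fun j b =>
    ((hLm j b).const_mul ((t ^ j)⁻¹)).integrable_sq
  let Y : Q → Env Q → ℝ≥0∞ := fun b ω => ∑' j, ENNReal.ofReal (u j b ω)
  have hYm : ∀ b, AEMeasurable (Y b) (law q b) := fun b =>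
    AEMeasurable.tsum fun j => (hui j b).aemeasurable.ennreal_ofReal
  have hYf : ∀ b, ∫⁻ ω, Y b ω ∂(law q b) ≠ ∞ := by
    intro b
    have h1 : ∀ j, ∫⁻ ω, ENNReal.ofReal (u j b ω) ∂(law q b) ≤
        ENNReal.ofReal (K * (s / t ^ 2) ^ j) := by
      intro j
      rw [← ofReal_integral_eq_lintegral_ofReal (hui j b)
        (Eventually.of_forall fun ω => sq_nonneg _)]
      refine ENNReal.ofReal_le_ofReal ?_
      have h2 : ∀ ω, u j b ω = ((t ^ j)⁻¹) ^ 2 * L j b ω ^ 2 := fun ω => mul_pow _ _ _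
      simp_rw [h2]
      rw [integral_const_mul]
      calc ((t ^ j)⁻¹) ^ 2 * ∫ ω, L j b ω ^ 2 ∂(law q b)
          ≤ ((t ^ j)⁻¹) ^ 2 * (K * s ^ j) := mul_le_mul_of_nonneg_left (hL2 j b) (sq_nonneg _)
        _ = K * (s / t ^ 2) ^ j := by
          rw [div_pow, ← pow_mul, mul_comm 2 j, pow_mul, inv_pow, div_eq_mul_inv]
          ring
    have h3 : Summable fun j : ℕ => K * (s / t ^ 2) ^ j := by
      refine (summable_geometric_of_lt_one (by positivity) ?_).mul_left K
      rw [div_lt_one (by positivity)]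
      exact hst
    rw [lintegral_tsum fun j => (hui j b).aemeasurable.ennreal_ofReal]
    exact ne_top_of_le_ne_top h3.tsum_ofReal_ne_top (ENNReal.tsum_le_tsum h1)
  let Yr : Q → Env Q → ℝ := fun b ω => (Y b ω).toReal
  have hYi : ∀ b, Integrable (Yr b) (law q b) := fun b =>
    integrable_toReal_of_lintegral_ne_top (hYm b) (hYf b)
  -- a.e. finiteness at all vertices
  have hfin : ∀ᵐ ω ∂(law q a), ∀ v : Vx Q, Y (ty a v) (sh v ω) < ∞ := by
    rw [ae_all_iff]
    intro v
    obtain ⟨hm, hlaw⟩ := hsh a v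
    have h1 : ∀ᵐ ω ∂(law q (ty a v)), Y (ty a v) ω < ∞ := ae_lt_top' (hYm _) (hYf _)
    rw [← hlaw] at h1
    exact ae_of_ae_map hm.aemeasurable h1
  filter_upwards [hfin, hlln Yr hYi a] with ω hω hωl
  -- the bound of the weighted sums of the squares
  obtain ⟨C1, hC1⟩ : ∃ C1, ∀ k : ℕ, (ρ⁻¹) ^ k * TT^[k] Yr a ω ≤ C1 := by
    obtain ⟨C1, hC1⟩ := hωl.bddAbove_range
    exact ⟨C1, fun k => hC1 ⟨k, rfl⟩⟩
  have ht1' : 0 < 1 - t := by linarith
  -- the pointwise bound
  have hpt : ∀ (v : Vx Q) (j : ℕ), |L j (ty a v) (sh v ω)| ≤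
      t ^ j * Real.sqrt (Yr (ty a v) (sh v ω)) := by
    intro v j
    have h1 : ENNReal.ofReal (u j (ty a v) (sh v ω)) ≤ Y (ty a v) (sh v ω) :=
      ENNReal.le_tsum j
    have h2 : u j (ty a v) (sh v ω) ≤ Yr (ty a v) (sh v ω) :=
      (ENNReal.ofReal_le_iff_le_toReal (hω v).ne).1 h1
    have h3 : |(t ^ j)⁻¹ * L j (ty a v) (sh v ω)| ≤ Real.sqrt (Yr (ty a v) (sh v ω)) := by
      rw [← Real.sqrt_sq_eq_abs]
      exact Real.sqrt_le_sqrt h2
    rw [abs_mul, abs_of_pos (inv_pos.2 (pow_pos ht0 j)), inv_mul_le_iff₀ (pow_pos ht0 j)] at h3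
    exact h3
  refine ⟨((1 - t)⁻¹) ^ 2 * C1, fun v => (1 - t)⁻¹ * Real.sqrt (Yr (ty a v) (sh v ω)), ?_, ?_⟩
  · intro k
    have h1 : ∀ v, (ρ⁻¹) ^ k * ((1 - t)⁻¹ * Real.sqrt (Yr (ty a v) (sh v ω))) ^ 2 =
        ((1 - t)⁻¹) ^ 2 * ((ρ⁻¹) ^ k * Yr (ty a v) (sh v ω)) := by
      intro v
      rw [mul_pow, Real.sq_sqrt ENNReal.toReal_nonneg]
      ring
    simp_rw [h1]
    rw [← Finset.mul_sum, ← Finset.mul_sum, ← hlev.1 Yr k a ω]
    exact mul_le_mul_of_nonneg_left (hC1 k) (sq_nonneg _)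
  · intro H
    refine ⟨fun v => if v.length ≤ H then
      ∑ j ∈ Finset.range (H - v.length + 1), L j (ty a v) (sh v ω) else 0, ?_, ?_, ?_⟩
    · intro v hv
      exact if_neg (not_le.2 hv)
    · intro v _
      dsimp only
      split_ifs with hv
      · refine (Finset.abs_sum_le_sum_abs _ _).trans ?_
        refine (Finset.sum_le_sum fun j _ => hpt v j).trans ?_
        rw [← Finset.sum_mul]
        refine mul_le_mul_of_nonneg_right ?_ (Real.sqrt_nonneg _)
        have h1 := (summable_geometric_of_lt_one ht0.le ht1).sum_le_tsum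
          (Finset.range (H - v.length + 1)) fun j _ => pow_nonneg ht0.le j
        rw [tsum_geometric_of_lt_one ht0.le ht1] at h1
        exact h1
      · rw [abs_zero]
        exact mul_nonneg (inv_nonneg.2 ht1'.le) (Real.sqrt_nonneg _)
    · intro v _ _ hv
      dsimp only
      rw [if_pos hv, Finset.sum_range_succ', add_comm]
      have h0 : L 0 (ty a v) (sh v ω) =
          (ρ + ((cht ω v).card : ℝ)) * (G (ty a v) (sh v ω) - c0) := by
        show (ρ⁻¹) ^ 0 * φ (ty a v) (sh v ω) = _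
        rw [pow_zero, one_mul]
        rfl
      have hs : ∀ j, L (j + 1) (ty a v) (sh v ω) =
          ρ⁻¹ * ∑ c ∈ cht ω v, L j c.1 (sh (c :: v) ω) := by
        intro j
        show (ρ⁻¹) ^ (j + 1) * TT^[j + 1] φ (ty a v) (sh v ω) = _
        rw [Function.iterate_succ_apply']
        show (ρ⁻¹) ^ (j + 1) * ∑ c ∈ chd (ω v), TT^[j] φ c.1 (sh [c] (sh v ω)) = _
        rw [Finset.mul_sum, Finset.mul_sum]
        refine Finset.sum_congr rfl fun c _ => ?_
        rw [sh_cons]
        show _ = ρ⁻¹ * ((ρ⁻¹) ^ j * TT^[j] φ c.1 (sh (c :: v) ω))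
        ring
      rw [h0]
      congr 1
      simp_rw [hs]
      rw [← Finset.mul_sum, Finset.sum_comm]
      congr 1
      refine Finset.sum_congr rfl fun c _ => ?_
      have hlen : (c :: v).length = v.length + 1 := rfl
      rw [hlen]
      split_ifs with hvc
      · have h1 : H - (v.length + 1) + 1 = H - v.length := by omega
        rw [h1]
        rfl
      · have h1 : H - v.length = 0 := by omega
        rw [h1, Finset.sum_range_zero]

end Pool.Agent.H803.GW
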