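import Pool.Agent.H803.Sgn
import Pool.Agent.H803.Time

set_option autoImplicit false

/-!
The sign analysis on one window.
-/

namespace Pool.Agent.H803

open Real Filter Topology Set
open scoped ContDiff

/-- real part -/
noncomputable def qre (M κ ε K T d σ φ : ℝ) : ℝ :=
  (T⁻¹ ^ 2 * deriv (deriv Wf) (1 + σ)) * psi M κ d φ - Wf (1 + σ) * pp M κ d φ
  + (T⁻¹ ^ 2 * ((K / d) * deriv (deriv Wf) σ + ε * deriv (deriv Zf) σ)) * psi M κ (4 * d) (φ - π / 3)
  - ((K / d) * Wf σ + ε * Zf σ) * pp M κ (4 * d) (φ - π / 3)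

/-- imaginary part (up to a positive factor) -/
noncomputable def qim (M κ ε K d σ φ : ℝ) : ℝ :=
  deriv Wf (1 + σ) * psi1 M κ d φ
  + ((K / d) * deriv Wf σ + ε * deriv Zf σ) * psi1 M κ (4 * d) (φ - π / 3)

/-- the sign condition -/
def Good (R J : ℝ → ℝ) : Prop := ∃ a b c : ℝ, c - π / 2 ≤ a ∧ a ≤ c ∧ c ≤ b ∧ b ≤ c + π / 2 ∧
  (∀ φ, a ≤ φ → φ ≤ b → R φ < 0) ∧ (∀ φ, b < φ → φ < a + π → J φ < 0)

/-- constants -/
structure Cst (M κ ε K T : ℝ) : Prop where
  κ0 : 0 < κ
  ε0 : 0 < ε
  K0 : 0 < K
  T0 : 0 < T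
  good : ∀ d, 0 < d → d ≤ 1 / 16 → ∀ σ, 0 ≤ σ → σ < 1 →
    Good (qre M κ ε K T d σ) (qim M κ ε K d σ)

theorem exists_cst (M : ℝ) (hM : 1 ≤ M) : ∃ κ ε K T : ℝ, Cst M κ ε K T := by
  obtain ⟨B, hB0, hB⟩ := dchi_bdd
  set κ : ℝ := 1 / (4 * B) with hκ
  have hκ0 : 0 < κ := by positivity
  have hκB : κ * B ≤ 1 / 4 := by rw [hκ]; field_simp; norm_num
  have hM0 : 0 ≤ M := by linarith
  obtain ⟨C, hC1, hC⟩ := prof_bounds M κ hM0 hκ0.le
  obtain ⟨D, hD1, hD⟩ := time_bounds
  obtain ⟨w2, hw2, hw2'⟩ := dWf_lower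
  have hwa : 0 < Wf 1 := Wf_pos (by norm_num) (by norm_num)
  set wa := Wf 1 with hwadef
  have hw1 : 0 < Wf (1 / 2) := Wf_pos (by norm_num) (by norm_num)
  set w1 := Wf (1 / 2) with hw1def
  set κ1 : ℝ := κ * deriv (deriv chi) 0 with hκ1
  have hκ10 : 0 < κ1 := mul_pos hκ0 ddchi_pos
  set sν : ℝ := sin (1 / 8) with hsν
  have hsν0 : 0 < sν := sin_pos_of_pos_of_lt_pi (by norm_num) (by linarith [pi_gt_three])
  have hpi := pi_pos
  have hpi3 := pi_gt_three
  -- constants
  set ε : ℝ := min 1 (wa / (4 * C)) with hε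
  have hC0 : 0 < C := by linarith
  have hD0 : 0 < D := by linarith
  have hε0 : 0 < ε := lt_min one_pos (by positivity)
  have hε1 : ε ≤ 1 := min_le_left _ _
  have hεC : ε * C ≤ wa / 4 := by
    have : ε ≤ wa / (4 * C) := min_le_right _ _
    calc ε * C ≤ wa / (4 * C) * C := mul_le_mul_of_nonneg_right this hC0.le
      _ = wa / 4 := by field_simp
  set K : ℝ := (C + 3) / w1 + (2 * (D * C + 1) / sν + D) / w2 with hK
  have hK0 : 0 < K := by positivity
  have hKw1 : C + 3 ≤ K * w1 := by
    have : K * w1 = (C + 3) + (2 * (D * C + 1) / sν + D) / w2 * w1 := by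
      rw [hK]; field_simp
    rw [this]
    have : 0 ≤ (2 * (D * C + 1) / sν + D) / w2 * w1 := by positivity
    linarith
  have hKw2 : 2 * (D * C + 1) / sν + D ≤ K * w2 := by
    have : K * w2 = (C + 3) / w1 * w2 + (2 * (D * C + 1) / sν + D) := by
      rw [hK]; field_simp
    rw [this]
    have : 0 ≤ (C + 3) / w1 * w2 := by positivity
    linarith
  set μ : ℝ := min (min (wa / 4) (κ1 / 2)) (min (w1 / 2) 1) with hμ
  have hμ0 : 0 < μ := lt_min (lt_min (by positivity) (by positivity)) (lt_min (by positivity) one_pos)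
  have hμa : μ ≤ wa / 4 := (min_le_left _ _).trans (min_le_left _ _)
  have hμk : μ ≤ κ1 / 2 := (min_le_left _ _).trans (min_le_right _ _)
  have hμw : μ ≤ w1 / 2 := (min_le_right _ _).trans (min_le_left _ _)
  have hμ1 : μ ≤ 1 := (min_le_right _ _).trans (min_le_right _ _)
  set τ : ℝ := μ / ((K + 2) * (D * C)) with hτ
  have hτ0 : 0 < τ := by positivity
  have hτm : τ * (D * C) * (K + 2) = μ := by rw [hτ]; field_simp
  have hτDC : 0 < τ * (D * C) := by positivity
  refine ⟨κ, ε, K, (√τ)⁻¹, hκ0, hε0, hK0, by positivity, ?_⟩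
  intro d hd hd16 σ hσ0 hσ1
  have hT2 : ((√τ)⁻¹)⁻¹ ^ 2 = τ := by rw [inv_inv, Real.sq_sqrt hτ0.le]
  have hd4 : 0 < 4 * d := by linarith
  have hd4' : 4 * d ≤ 1 / 4 := by linarith
  have hd' : d ≤ 1 / 4 := by linarith
  obtain ⟨c0, c1, c2, -⟩ := hC d hd hd'
  obtain ⟨e0, e1, e2, e3⟩ := hC (4 * d) hd4 hd4'
  have hKd : K ≤ K / d := by
    rw [le_div_iff₀ hd]
    exact mul_le_of_le_one_right hK0.le (by linarith only [hd16])
  have hKd0 : 0 < K / d := by positivity
  -- product bounds
  have pb : ∀ {x y a b : ℝ}, |x| ≤ a → |y| ≤ b → x * y ≤ a * b := by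
    intro x y a b hx hy
    have h1 : |x * y| ≤ a * b := by
      rw [abs_mul]
      exact mul_le_mul hx hy (abs_nonneg _) ((abs_nonneg _).trans hx)
    exact (le_abs_self _).trans h1
  have neg1 : ∀ {δ s : ℝ}, 0 < δ → δ ≤ 1 / 4 → 0 < s → s < π → psi1 M κ δ s < 0 := by
    intro δ s h1 h2 h3 h4
    have := psi1_le (φ := s) hM0 hκ0.le hB hκB h1 h2 h3.le h4.le
    have := sin_pos_of_pos_of_lt_pi h3 h4
    linarith
  rcases le_or_gt σ (1 / 4) with ha | ha
  · -- window (a)
    refine ⟨0, π / 3, 0, by linarith, le_rfl, by positivity, by linarith, ?_, ?_⟩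
    · intro φ h1 h2
      unfold qre
      rw [hT2, Wf_left ha, (dWf_left ha).2]
      have k1 : (τ * deriv (deriv Wf) (1 + σ)) * psi M κ d φ ≤ (τ * D) * C := by
        apply pb _ (c0 φ)
        rw [abs_mul, abs_of_pos hτ0]
        exact mul_le_mul_of_nonneg_left (hD _).2.1 hτ0.le
      have k2 : (τ * (K / d * 0 + ε * deriv (deriv Zf) σ)) * psi M κ (4 * d) (φ - π / 3) ≤ (τ * D) * C := by
        apply pb _ (e0 _)
        rw [mul_zero, zero_add, abs_mul, abs_mul, abs_of_pos hτ0, abs_of_pos hε0]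
        apply mul_le_mul_of_nonneg_left _ hτ0.le
        calc ε * |deriv (deriv Zf) σ| ≤ 1 * D := mul_le_mul hε1 (hD σ).2.2.2 (abs_nonneg _) zero_le_one
          _ = D := one_mul D
      have k3 : wa ≤ Wf (1 + σ) * pp M κ d φ := by
        have h3 : wa ≤ Wf (1 + σ) := Wf_mono (by linarith) (by linarith)
        have h4 := pp_ge_one (φ := φ) hM hκ0.le hd (by linarith) h2
        calc wa = wa * 1 := (mul_one _).symm
          _ ≤ Wf (1 + σ) * pp M κ d φ := mul_le_mul h3 h4 zero_le_one (Wf_nonneg _)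
      have k4 : -((K / d * 0 + ε * Zf σ) * pp M κ (4 * d) (φ - π / 3)) ≤ ε * C := by
        have h5 := e3 (φ - π / 3) (by linarith) (by linarith)
        have h6 : |-(K / d * 0 + ε * Zf σ)| ≤ ε := by
          rw [mul_zero, zero_add, abs_neg, abs_mul, abs_of_pos hε0, abs_of_nonneg (Zf_nonneg σ)]
          exact mul_le_of_le_one_right hε0.le (Zf_le_one σ)
        have := pb h6 h5
        linarith
      have k5 : (τ * D) * C + (τ * D) * C ≤ wa / 4 := by
        have : τ * (D * C) * 2 ≤ τ * (D * C) * (K + 2) :=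
          mul_le_mul_of_nonneg_left (by linarith) hτDC.le
        rw [hτm] at this
        have e : (τ * D) * C + (τ * D) * C = τ * (D * C) * 2 := by ring
        rw [e]
        exact this.trans hμa
      linarith only [k1, k2, k3, k4, k5, hεC, hwa]
    · intro φ h1 h2
      unfold qim
      rw [(dWf_left ha).1, mul_zero, zero_add]
      have n1 : psi1 M κ d φ < 0 := neg1 hd hd' (by linarith) (by linarith)
      have n2 : psi1 M κ (4 * d) (φ - π / 3) < 0 := neg1 hd4 hd4' (by linarith) (by linarith)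
      rcases ha.lt_or_eq with hb | hb
      · have p1 : 0 < deriv Wf (1 + σ) := dWf_pos (by linarith) (by linarith)
        have p2 : 0 ≤ deriv Zf σ := dZf_nonneg (by linarith)
        exact add_neg_of_neg_of_nonpos (mul_neg_of_pos_of_neg p1 n1)
          (mul_nonpos_of_nonneg_of_nonpos (mul_nonneg hε0.le p2) n2.le)
      · have p1 : 0 ≤ deriv Wf (1 + σ) := dWf_nonneg (by linarith)
        have p2 : 0 < deriv Zf σ := dZf_pos (by linarith) (by linarith)
        exact add_neg_of_nonpos_of_neg (mul_nonpos_of_nonneg_of_nonpos p1 n1.le)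
          (mul_neg_of_pos_of_neg (mul_pos hε0 p2) n2)
  rcases le_or_gt σ (1 / 2) with hb | hb
  · -- window (b)
    refine ⟨π / 3, π / 3, π / 3, by linarith, le_rfl, le_rfl, by linarith, ?_, ?_⟩
    · intro φ h1 h2
      have hφ : φ = π / 3 := le_antisymm h2 h1
      subst hφ
      unfold qre
      rw [hT2, sub_self, Wf_one (x := 1 + σ) (by linarith) (by linarith),
        (dWf_mid (x := 1 + σ) (by linarith) (by linarith)).2]
      have k1 := pp_spike (d := d) hM hκ0.le hd
      have k2 : (τ * (K / d * deriv (deriv Wf) σ + ε * deriv (deriv Zf) σ)) * psi M κ (4 * d) 0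
          ≤ (τ * ((K / d + 1) * D)) * C := by
        apply pb _ (e0 _)
        rw [abs_mul, abs_of_pos hτ0]
        apply mul_le_mul_of_nonneg_left _ hτ0.le
        calc |K / d * deriv (deriv Wf) σ + ε * deriv (deriv Zf) σ|
            ≤ |K / d * deriv (deriv Wf) σ| + |ε * deriv (deriv Zf) σ| := abs_add_le _ _
          _ = K / d * |deriv (deriv Wf) σ| + ε * |deriv (deriv Zf) σ| := by
            rw [abs_mul, abs_mul, abs_of_pos hKd0, abs_of_pos hε0]
          _ ≤ K / d * D + 1 * D := by
            have := (hD σ).2.2.2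
            have := (hD σ).2.1
            gcongr
          _ = (K / d + 1) * D := by ring
      have k3 : 0 ≤ (K / d * Wf σ + ε * Zf σ) * pp M κ (4 * d) 0 := by
        have h4 := pp_ge_one (φ := 0) hM hκ0.le hd4 (by linarith) (by linarith)
        have h5 := Wf_nonneg σ
        have h6 := Zf_nonneg σ
        have : 0 ≤ K / d * Wf σ + ε * Zf σ := by positivity
        exact mul_nonneg this (by linarith)
      have k4 : (τ * ((K / d + 1) * D)) * C ≤ μ / d := by
        rw [le_div_iff₀ hd]
        have e : (τ * ((K / d + 1) * D)) * C * d = τ * (D * C) * (K + d) := by field_simp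
        rw [e, ← hτm]
        exact mul_le_mul_of_nonneg_left (by linarith) hτDC.le
      have k5 : μ / d < κ1 / d := by
        apply div_lt_div_of_pos_right _ hd
        linarith only [hμk, hκ10]
      linarith only [k1, k2, k3, k4, k5]
    · intro φ h1 h2
      unfold qim
      rw [(dWf_mid (x := 1 + σ) (by linarith) (by linarith)).1, zero_mul, zero_add]
      have n2 : psi1 M κ (4 * d) (φ - π / 3) < 0 := neg1 hd4 hd4' (by linarith) (by linarith)
      have p1 : 0 < deriv Wf σ := dWf_pos (by linarith) (by linarith)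
      have p2 : 0 ≤ deriv Zf σ := dZf_nonneg (by linarith)
      have p3 : 0 < K / d * deriv Wf σ + ε * deriv Zf σ := by positivity
      exact mul_neg_of_pos_of_neg p3 n2
  rcases le_or_gt σ (3 / 4) with hc | hc
  · -- window (c)
    refine ⟨π / 3 - 1 / 8, π / 3 + 1 / 8, π / 3, by linarith, by linarith, by linarith, by linarith, ?_, ?_⟩
    · intro φ h1 h2
      unfold qre
      rw [hT2]
      have k1 : (τ * deriv (deriv Wf) (1 + σ)) * psi M κ d φ ≤ (τ * D) * C := by
        apply pb _ (c0 φ)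
        rw [abs_mul, abs_of_pos hτ0]
        exact mul_le_mul_of_nonneg_left (hD _).2.1 hτ0.le
      have k1' : -(Wf (1 + σ) * pp M κ d φ) ≤ C / d := by
        have h3 : |-(Wf (1 + σ))| ≤ 1 := by
          rw [abs_neg, abs_of_nonneg (Wf_nonneg _)]; exact Wf_le_one _
        have := pb h3 (c2 φ)
        linarith
      have k2 : (τ * (K / d * deriv (deriv Wf) σ + ε * deriv (deriv Zf) σ)) * psi M κ (4 * d) (φ - π / 3)
          ≤ (τ * ((K / d + 1) * D)) * C := by
        apply pb _ (e0 _)
        rw [abs_mul, abs_of_pos hτ0]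
        apply mul_le_mul_of_nonneg_left _ hτ0.le
        calc |K / d * deriv (deriv Wf) σ + ε * deriv (deriv Zf) σ|
            ≤ |K / d * deriv (deriv Wf) σ| + |ε * deriv (deriv Zf) σ| := abs_add_le _ _
          _ = K / d * |deriv (deriv Wf) σ| + ε * |deriv (deriv Zf) σ| := by
            rw [abs_mul, abs_mul, abs_of_pos hKd0, abs_of_pos hε0]
          _ ≤ K / d * D + 1 * D := by
            have := (hD σ).2.2.2
            have := (hD σ).2.1
            gcongr
          _ = (K / d + 1) * D := by ring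
      have k3 : K / d * w1 ≤ (K / d * Wf σ + ε * Zf σ) * pp M κ (4 * d) (φ - π / 3) := by
        have h4 := pp_ge_one (φ := φ - π / 3) hM hκ0.le hd4 (by linarith) (by linarith)
        have h5 : w1 ≤ Wf σ := Wf_mono (by linarith) (by linarith)
        have h6 := Zf_nonneg σ
        have h7 : K / d * w1 ≤ K / d * Wf σ + ε * Zf σ := by
          have : K / d * w1 ≤ K / d * Wf σ := mul_le_mul_of_nonneg_left h5 hKd0.le
          have : 0 ≤ ε * Zf σ := mul_nonneg hε0.le h6
          linarith
        have h8 : 0 ≤ K / d * w1 := by positivity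
        calc K / d * w1 = K / d * w1 * 1 := (mul_one _).symm
          _ ≤ _ := mul_le_mul h7 h4 zero_le_one (h8.trans h7)
      have k4 : (τ * D) * C + C / d + (τ * ((K / d + 1) * D)) * C < K / d * w1 := by
        have e : K / d * w1 = (K * w1) / d := by ring
        rw [e, lt_div_iff₀ hd]
        have e' : ((τ * D) * C + C / d + (τ * ((K / d + 1) * D)) * C) * d
            = C + τ * (D * C) * (K + 2 * d) := by field_simp; ring
        rw [e']
        have : τ * (D * C) * (K + 2 * d) ≤ μ := by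
          rw [← hτm]
          exact mul_le_mul_of_nonneg_left (by linarith) hτDC.le
        linarith only [this, hKw1, hμ1]
      linarith only [k1, k1', k2, k3, k4]
    · intro φ h1 h2
      unfold qim
      have k1 : deriv Wf (1 + σ) * psi1 M κ d φ ≤ D * C := pb (hD _).1 (c1 φ)
      have hs1 : sν ≤ sin (φ - π / 3) := by
        rcases le_total (φ - π / 3) (π / 2) with h | h
        · exact sin_le_sin_of_le_of_le_pi_div_two (by linarith) h (by linarith)
        · rw [← sin_pi_sub (φ - π / 3)]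
          exact sin_le_sin_of_le_of_le_pi_div_two (by linarith) (by linarith) (by linarith)
      have k2 : psi1 M κ (4 * d) (φ - π / 3) ≤ -(sν / 2) := by
        have := psi1_le (φ := φ - π / 3) hM0 hκ0.le hB hκB hd4 hd4' (by linarith) (by linarith)
        linarith
      have k3 : 2 * (D * C + 1) / sν ≤ K / d * deriv Wf σ + ε * deriv Zf σ := by
        have h3 := hw2' σ hb.le hc
        have h4 : -D ≤ ε * deriv Zf σ := by
          have h5 := (abs_le.1 (hD σ).2.2.1).1
          have h6 : |ε * deriv Zf σ| ≤ 1 * D := by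
            rw [abs_mul, abs_of_pos hε0]
            exact mul_le_mul hε1 (hD σ).2.2.1 (abs_nonneg _) (by norm_num)
          have := (abs_le.1 h6).1
          linarith
        have h7 : K * w2 ≤ K / d * deriv Wf σ := by
          apply mul_le_mul hKd h3 hw2.le hKd0.le
        linarith
      have k4 : (D * C + 1) ≤ (K / d * deriv Wf σ + ε * deriv Zf σ) * (sν / 2) := by
        have := mul_le_mul_of_nonneg_right k3 (show 0 ≤ sν / 2 by positivity)
        have e : 2 * (D * C + 1) / sν * (sν / 2) = D * C + 1 := by field_simp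
        rw [e] at this
        exact this
      have k5 : 0 ≤ K / d * deriv Wf σ + ε * deriv Zf σ := by
        refine le_trans ?_ k3
        positivity
      have k6 : (K / d * deriv Wf σ + ε * deriv Zf σ) * psi1 M κ (4 * d) (φ - π / 3)
          ≤ (K / d * deriv Wf σ + ε * deriv Zf σ) * (-(sν / 2)) := mul_le_mul_of_nonneg_left k2 k5
      linarith only [k1, k4, k6]
  · -- window (d)
    have hw := dWf_right (x := 1 + σ) (by linarith)
    have hw' := Wf_right (x := 1 + σ) (by linarith)
    have hz := dZf_right (x := σ) hc.le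
    have hz' := Zf_right (x := σ) hc.le
    refine ⟨π / 3, π / 3, π / 3, by linarith, le_rfl, le_rfl, by linarith, ?_, ?_⟩
    · intro φ h1 h2
      have hφ : φ = π / 3 := le_antisymm h2 h1
      subst hφ
      unfold qre
      rw [hT2, sub_self, hw.2, hw', hz.2, hz']
      have k2 : (τ * deriv (deriv Wf) σ) * psi M κ (4 * d) 0 ≤ (τ * D) * C := by
        apply pb _ (e0 _)
        rw [abs_mul, abs_of_pos hτ0]
        exact mul_le_mul_of_nonneg_left (hD _).2.1 hτ0.le
      have k3 : w1 ≤ Wf σ * pp M κ (4 * d) 0 := by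
        have h4 := pp_ge_one (φ := 0) hM hκ0.le hd4 (by linarith) (by linarith)
        have h5 : w1 ≤ Wf σ := Wf_mono (by linarith) (by linarith)
        calc w1 = w1 * 1 := (mul_one _).symm
          _ ≤ _ := mul_le_mul h5 h4 zero_le_one (Wf_nonneg _)
      have k4 : (τ * D) * C ≤ μ := by
        rw [← hτm]
        have : τ * (D * C) * 1 ≤ τ * (D * C) * (K + 2) := mul_le_mul_of_nonneg_left (by linarith) hτDC.le
        linarith only [this]
      have e : (τ * 0) * psi M κ d (π / 3) - 0 * pp M κ d (π / 3)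
        + (τ * (K / d * deriv (deriv Wf) σ + ε * 0)) * psi M κ (4 * d) 0
        - (K / d * Wf σ + ε * 0) * pp M κ (4 * d) 0
        = K / d * ((τ * deriv (deriv Wf) σ) * psi M κ (4 * d) 0 - Wf σ * pp M κ (4 * d) 0) := by ring
      rw [e]
      apply mul_neg_of_pos_of_neg hKd0
      linarith only [k2, k3, k4, hμw, hw1]
    · intro φ h1 h2
      unfold qim
      rw [hw.1, hz.1, zero_mul, zero_add, mul_zero, add_zero]
      have n2 : psi1 M κ (4 * d) (φ - π / 3) < 0 := neg1 hd4 hd4' (by linarith) (by linarith)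
      have p1 : 0 < deriv Wf σ := dWf_pos (by linarith) (by linarith)
      exact mul_neg_of_pos_of_neg (by positivity) n2

end Pool.Agent.H803
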