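import Pool.Agent.H803.Circ

set_option autoImplicit false

/-!
Indices at most one, by explicit polynomials.
-/

namespace Pool.Agent.H803

open Filter Topology Set
open scoped ContDiff ComplexConjugate

/-- the property proved for every integer -/
def HasWinding (k : ℤ) (f : ℂ → ℝ) : Prop := ContDiff ℝ ∞ f ∧ Qf f 0 = 0 ∧
    ∀ t0 : ℝ, t0 < 0 → ∃ c : ℝ, ∀ τ : ℝ,
      Qf f (pt t0 τ) * Complex.exp (-(((k * τ + c : ℝ) : ℂ) * Complex.I)) ∈ Complex.slitPlane

lemma Qf_cont {f : ℂ → ℝ} (hf : ContDiff ℝ ∞ f) : Continuous (Qf f) := by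
  have hc : Continuous (fun z => iteratedFDeriv ℝ 2 f z) :=
    hf.continuous_iteratedFDeriv (ENat.LEInfty.out)
  have h : ∀ v : Fin 2 → ℂ, Continuous (fun z => iteratedFDeriv ℝ 2 f z v) := fun v =>
    (ContinuousMultilinearMap.apply ℝ (fun _ : Fin 2 => ℂ) ℝ v).continuous.comp hc
  unfold Qf
  exact (Complex.continuous_ofReal.comp ((h _).sub (h _))).add
    ((continuous_const.mul (Complex.continuous_ofReal.comp (h _))).mul continuous_const)

lemma low_aux {f : ℂ → ℝ} (hf : ContDiff ℝ ∞ f) (k : ℤ) {C p : ℝ} (hC : 0 < C) (hp : 0 < p)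
    (h : ∀ t θ : ℝ, Qf f (pt t θ) = ((C * Real.exp (p * t) : ℝ) : ℂ) * Complex.exp (((k * θ : ℝ) : ℂ) * Complex.I)) :
    HasWinding k f := by
  refine ⟨hf, ?_, fun t0 _ => ⟨0, fun τ => ?_⟩⟩
  · have h1 : Tendsto (fun t : ℝ => pt t 0) atBot (𝓝 0) := by
      rw [tendsto_zero_iff_norm_tendsto_zero]
      simp only [pt, Complex.norm_exp]
      simpa using Real.tendsto_exp_atBot
    have h2 : Tendsto (fun t : ℝ => Qf f (pt t 0)) atBot (𝓝 (Qf f 0)) :=
      ((Qf_cont hf).tendsto 0).comp h1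
    have h3 : Tendsto (fun t : ℝ => Qf f (pt t 0)) atBot (𝓝 0) := by
      simp only [h]
      have h4 : Tendsto (fun t : ℝ => C * Real.exp (p * t)) atBot (𝓝 0) := by
        have h5 : Tendsto (fun t : ℝ => p * t) atBot atBot := tendsto_id.const_mul_atBot hp
        have := (Real.tendsto_exp_atBot.comp h5).const_mul C
        simpa using this
      have h6 := (Complex.continuous_ofReal.tendsto 0).comp h4
      have h7 := h6.mul_const (Complex.exp (((k * (0:ℝ) : ℝ) : ℂ) * Complex.I))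
      simpa using h7
    exact tendsto_nhds_unique h2 h3
  · rw [h, mul_assoc, ← Complex.exp_add]
    have : ((k * τ : ℝ) : ℂ) * Complex.I + -(((k * τ + 0 : ℝ) : ℂ) * Complex.I) = 0 := by
      push_cast; ring
    rw [this, Complex.exp_zero, mul_one]
    left
    rw [Complex.ofReal_re]
    positivity

lemma conj_pt (t θ : ℝ) : conj (pt t θ) ^ 2 = Complex.exp (2 * ((t : ℂ) - θ * Complex.I)) := by
  have hc : conj (pt t θ) = Complex.exp ((t : ℂ) - θ * Complex.I) := by
    unfold pt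
    rw [← Complex.exp_conj]
    congr 1
    simp
    ring
  rw [hc, ← Complex.exp_nat_mul]
  norm_num

lemma low_Q {f : ℂ → ℝ} (hf : ContDiff ℝ ∞ f) {a b : ℝ}
    (h : ∀ t θ : ℝ, f (pt t θ) = Real.exp t * (Real.exp (a * t) * Real.cos (b * θ))) (t θ : ℝ) :
    Qf f (pt t θ) = Complex.exp (-(2 * ((t : ℂ) - θ * Complex.I))) * ((Real.exp t * Real.exp (a * t) : ℝ) : ℂ)
      * ((((a ^ 2 - 1 + b ^ 2) * Real.cos (b * θ) : ℝ) : ℂ)
        - ((2 * a * b * Real.sin (b * θ) : ℝ) : ℂ) * Complex.I) := by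
  have aff : ∀ (c t : ℝ), HasDerivAt (fun t => c * t) c t := fun c t => by
    simpa using (hasDerivAt_id t).const_mul c
  have hy : ∀ t, HasDerivAt (fun t => Real.exp (a * t)) (Real.exp (a * t) * a) t := fun t => (aff a t).exp
  have hy1 : ∀ t, HasDerivAt (fun t => Real.exp (a * t) * a) (Real.exp (a * t) * a * a) t := fun t =>
    (hy t).mul_const a
  have h0 : ∀ t, HasDerivAt (fun _ : ℝ => (0:ℝ)) 0 t := fun t => hasDerivAt_const t 0
  have hu : ∀ t, HasDerivAt (fun t => Real.cos (b * t)) (-Real.sin (b * t) * b) t := fun t => (aff b t).cos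
  have hu1 : ∀ t, HasDerivAt (fun t => -Real.sin (b * t) * b) (-(Real.cos (b * t) * b) * b) t := fun t =>
    ((aff b t).sin.neg).mul_const b
  have key := polar2 hf hy hy1 h0 h0 hu hu1 h0 h0 t θ (J := univ) univ_mem (fun t _ θ => by
    rw [h]; ring)
  rw [conj_pt] at key
  have e : Qf f (pt t θ) = Complex.exp (-(2 * ((t : ℂ) - θ * Complex.I)))
      * (Complex.exp (2 * ((t : ℂ) - θ * Complex.I)) * Qf f (pt t θ)) := by
    rw [← mul_assoc, ← Complex.exp_add]
    simp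
  rw [e, key]
  push_cast
  ring

lemma low_two : ∃ f : ℂ → ℝ, HasWinding 2 f := by
  set f : ℂ → ℝ := fun z => (z.re ^ 2 + z.im ^ 2) ^ 2 with hfdef
  have hf : ContDiff ℝ ∞ f :=
    (((Complex.reCLM.contDiff).pow 2).add ((Complex.imCLM.contDiff).pow 2)).pow 2
  refine ⟨f, low_aux hf 2 (C := 8) (p := 2) (by norm_num) (by norm_num) ?_⟩
  have hpt : ∀ t θ : ℝ, f (pt t θ) = Real.exp t * (Real.exp (3 * t) * Real.cos (0 * θ)) := by
    intro t θ
    have h1 : (pt t θ).re ^ 2 + (pt t θ).im ^ 2 = Real.exp t ^ 2 := by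
      have h2 : ‖pt t θ‖ = Real.exp t := by unfold pt; rw [Complex.norm_exp]; simp
      rw [← h2, ← Complex.normSq_eq_norm_sq, Complex.normSq_apply]; ring
    simp only [hfdef]
    rw [h1, zero_mul, Real.cos_zero, mul_one, ← Real.exp_add, ← Real.exp_nat_mul, ← Real.exp_nat_mul]
    congr 1
    push_cast
    ring
  intro t θ
  rw [low_Q hf hpt, zero_mul, Real.cos_zero, Real.sin_zero, ← Real.exp_add]
  push_cast
  rw [show (((3:ℂ)) ^ 2 - 1 + 0 ^ 2) * 1 - 2 * 3 * 0 * 0 * Complex.I = 8 by ring, ← Complex.exp_add]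
  rw [show (8:ℂ) * Complex.exp (2 * t) * Complex.exp (2 * θ * Complex.I)
    = Complex.exp (2 * t + 2 * θ * Complex.I) * 8 by rw [Complex.exp_add]; ring]
  congr 2
  ring

lemma low_le_one (a : ℕ) (ha : 2 ≤ a) : ∃ f : ℂ → ℝ, HasWinding (3 - a) f := by
  set f : ℂ → ℝ := fun z => (z ^ a * conj z).re with hfdef
  have hf : ContDiff ℝ ∞ f := by
    have h1 : ContDiff ℝ ∞ (fun z : ℂ => z ^ a * conj z) := (contDiff_id.pow a).mul Complex.conjCLE.contDiff
    exact Complex.reCLM.contDiff.comp h1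
  have ha' : (2:ℝ) ≤ a := by exact_mod_cast ha
  refine ⟨f, low_aux hf (3 - a) (C := 2 * a * (a - 1)) (p := a - 1) (by nlinarith) (by linarith) ?_⟩
  have hpt : ∀ t θ : ℝ, f (pt t θ) = Real.exp t * (Real.exp (a * t) * Real.cos ((a - 1) * θ)) := by
    intro t θ
    simp only [hfdef]
    have hc : conj (pt t θ) = Complex.exp ((t : ℂ) - θ * Complex.I) := by
      unfold pt
      rw [← Complex.exp_conj]
      congr 1
      simp
      ring
    rw [hc]
    unfold pt
    rw [← Complex.exp_nat_mul, ← Complex.exp_add]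
    have e : (a : ℂ) * ((t : ℂ) + θ * Complex.I) + ((t : ℂ) - θ * Complex.I)
        = (((a * t + t : ℝ)) : ℂ) + (((a - 1) * θ : ℝ) : ℂ) * Complex.I := by push_cast; ring
    rw [e, Complex.exp_re]
    simp only [Complex.add_re, Complex.ofReal_re, Complex.mul_re, Complex.I_re, mul_zero, Complex.ofReal_im,
      Complex.I_im, mul_one, sub_self, add_zero, Complex.add_im, Complex.mul_im, zero_add]
    rw [Real.exp_add]
    ring
  intro t θ
  rw [low_Q hf hpt, ← Real.exp_add]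
  have e1 : ((a:ℝ) ^ 2 - 1 + (a - 1) ^ 2) = 2 * a * (a - 1) := by ring
  rw [e1]
  have e2 : (((2 * a * (a - 1) * Real.cos ((a - 1) * θ) : ℝ)) : ℂ)
      - (((2 * a * (a - 1) * Real.sin ((a - 1) * θ) : ℝ)) : ℂ) * Complex.I
      = ((2 * a * (a - 1) : ℝ) : ℂ) * Complex.exp (-((((a - 1) * θ : ℝ) : ℂ) * Complex.I)) := by
    have : -((((a - 1) * θ : ℝ) : ℂ) * Complex.I) = (((-((a - 1) * θ) : ℝ)) : ℂ) * Complex.I := by push_cast; ring
    rw [this, Complex.exp_mul_I, ← Complex.ofReal_cos, ← Complex.ofReal_sin, Real.cos_neg, Real.sin_neg]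
    push_cast
    ring
  rw [e2, Complex.ofReal_mul (2 * (a:ℝ) * (a - 1)) (Real.exp _)]
  generalize ((2 * (a:ℝ) * (a - 1) : ℝ) : ℂ) = c0
  have e3 : Complex.exp (-(2 * ((t : ℂ) - θ * Complex.I))) * ((Real.exp (t + a * t) : ℝ) : ℂ)
      * Complex.exp (-((((a - 1) * θ : ℝ) : ℂ) * Complex.I))
      = ((Real.exp ((a - 1) * t) : ℝ) : ℂ) * Complex.exp ((((3 - a : ℤ) * θ : ℝ) : ℂ) * Complex.I) := by
    rw [Complex.ofReal_exp, Complex.ofReal_exp, ← Complex.exp_add, ← Complex.exp_add, ← Complex.exp_add]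
    congr 1
    push_cast
    ring
  linear_combination c0 * e3

end Pool.Agent.H803
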