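import Mathlib

set_option autoImplicit false

/-!
One-variable profiles for the umbilics of arbitrary index.
-/

namespace Pool.Agent.H803

open Real Filter Topology Set
open scoped ContDiff

/-! ### general facts -/

lemma deriv_zero_on {g : ℝ → ℝ} {s : Set ℝ} (hs : UniqueDiffOn ℝ s) (hg : Differentiable ℝ g)
    {c : ℝ} (h : ∀ x ∈ s, g x = c) : ∀ x ∈ s, deriv g x = 0 := by
  intro x hx
  have h1 : HasDerivWithinAt g (deriv g x) s x := (hg x).hasDerivAt.hasDerivWithinAt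
  have h2 : HasDerivWithinAt g 0 s x :=
    (hasDerivWithinAt_const x s c).congr (fun y hy => h y hy) (h x hx)
  exact UniqueDiffWithinAt.eq_deriv s (hs x hx) h1 h2

lemma cd_deriv {g : ℝ → ℝ} (hg : ContDiff ℝ ∞ g) : ContDiff ℝ ∞ (deriv g) := by
  have := hg.iterate_deriv 1
  simpa using this

lemma cd_diff {g : ℝ → ℝ} (hg : ContDiff ℝ ∞ g) : Differentiable ℝ g := hg.differentiable (by simp)

lemma cd_has {g : ℝ → ℝ} (hg : ContDiff ℝ ∞ g) (x : ℝ) : HasDerivAt g (deriv g x) x :=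
  (cd_diff hg x).hasDerivAt

lemma glue_deriv (x : ℝ) : HasDerivAt expNegInvGlue ((x⁻¹) ^ 2 * expNegInvGlue x) x := by
  have := expNegInvGlue.hasDerivAt_polynomial_eval_inv_mul 1 x
  simpa using this

lemma glue_deriv2 (x : ℝ) : HasDerivAt (fun x => (x⁻¹) ^ 2 * expNegInvGlue x)
    (((x⁻¹) ^ 4 - 2 * (x⁻¹) ^ 3) * expNegInvGlue x) x := by
  have := expNegInvGlue.hasDerivAt_polynomial_eval_inv_mul (Polynomial.X ^ 2) x
  simp only [Polynomial.eval_pow, Polynomial.eval_X, Polynomial.derivative_X_pow,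
    Polynomial.eval_mul, Polynomial.eval_sub, Nat.cast_ofNat, map_ofNat,
    Polynomial.eval_ofNat] at this
  refine this.congr_deriv ?_
  rw [show (2 - 1 : ℕ) = 1 from rfl, pow_one]
  ring

lemma st_deriv_pos {x : ℝ} (h0 : 0 < x) (h1 : x < 1) : 0 < deriv smoothTransition x := by
  have e1 := glue_deriv x
  have e2 : HasDerivAt (fun y => expNegInvGlue (1 - y)) (((1 - x)⁻¹) ^ 2 * expNegInvGlue (1 - x) * (-1)) x :=
    HasDerivAt.comp x (glue_deriv (1 - x)) ((hasDerivAt_id x).const_sub 1)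
  have hd := smoothTransition.pos_denom x
  have e3 : HasDerivAt smoothTransition _ x := e1.div (e1.add e2) hd.ne'
  rw [e3.deriv]
  have p1 : 0 < expNegInvGlue x := expNegInvGlue.pos_of_pos h0
  have p2 : 0 < expNegInvGlue (1 - x) := expNegInvGlue.pos_of_pos (by linarith)
  have p3 : 0 < (x⁻¹) ^ 2 := by positivity
  have p4 : 0 < ((1 - x)⁻¹) ^ 2 := by
    have : 0 < 1 - x := by linarith
    positivity
  apply div_pos _ (by positivity)
  have : (x⁻¹ ^ 2 * expNegInvGlue x) * (expNegInvGlue x + expNegInvGlue (1 - x)) -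
      expNegInvGlue x * (x⁻¹ ^ 2 * expNegInvGlue x + (1 - x)⁻¹ ^ 2 * expNegInvGlue (1 - x) * (-1))
      = (x⁻¹ ^ 2 * expNegInvGlue x) * expNegInvGlue (1 - x)
        + expNegInvGlue x * ((1 - x)⁻¹ ^ 2 * expNegInvGlue (1 - x)) := by ring
  rw [this]
  positivity

lemma st_cd : ContDiff ℝ ∞ smoothTransition := smoothTransition.contDiff

lemma st_deriv_nonneg (x : ℝ) : 0 ≤ deriv smoothTransition x :=
  smoothTransition.monotone.deriv_nonneg

lemma st_deriv_zero_left {x : ℝ} (h : x ≤ 0) : deriv smoothTransition x = 0 :=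
  deriv_zero_on (uniqueDiffOn_Iic 0) (cd_diff st_cd) (c := 0)
    (fun _ hy => smoothTransition.zero_of_nonpos hy) x h

lemma st_deriv_zero_right {x : ℝ} (h : 1 ≤ x) : deriv smoothTransition x = 0 :=
  deriv_zero_on (uniqueDiffOn_Ici 1) (cd_diff st_cd) (c := 1)
    (fun _ hy => smoothTransition.one_of_one_le hy) x h

/-! ### the odd step -/

/-- odd step: `0` on `|x| ≤ 1/2`, `1` for `x ≥ 3/4` -/
noncomputable def stp (x : ℝ) : ℝ := smoothTransition (4 * x - 2) - smoothTransition (-4 * x - 2)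

lemma stp_cd : ContDiff ℝ ∞ stp := by
  unfold stp
  exact (st_cd.comp ((contDiff_const.mul contDiff_id).sub contDiff_const)).sub
    (st_cd.comp ((contDiff_const.mul contDiff_id).sub contDiff_const))

lemma stp_neg (x : ℝ) : stp (-x) = - stp x := by
  unfold stp
  have e1 : 4 * -x - 2 = -4 * x - 2 := by ring
  have e2 : -4 * -x - 2 = 4 * x - 2 := by ring
  rw [e1, e2]
  ring

lemma stp_one {x : ℝ} (h : 3 / 4 ≤ x) : stp x = 1 := by
  unfold stp
  rw [smoothTransition.one_of_one_le (by linarith), smoothTransition.zero_of_nonpos (by linarith)]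
  ring

lemma stp_zero {x : ℝ} (h : |x| ≤ 1 / 2) : stp x = 0 := by
  unfold stp
  have := abs_le.1 h
  rw [smoothTransition.zero_of_nonpos (by linarith), smoothTransition.zero_of_nonpos (by linarith)]
  ring

lemma stp_mono : Monotone stp := by
  intro x y h
  unfold stp
  have h1 := smoothTransition.monotone (show 4 * x - 2 ≤ 4 * y - 2 by linarith)
  have h2 := smoothTransition.monotone (show -4 * y - 2 ≤ -4 * x - 2 by linarith)
  linarith

lemma stp_nonneg {x : ℝ} (h : 0 ≤ x) : 0 ≤ stp x := by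
  have h1 : stp 0 = 0 := stp_zero (by norm_num)
  have h2 := stp_mono h
  linarith

lemma abs_stp_le (x : ℝ) : |stp x| ≤ 1 := by
  unfold stp
  have h1 := smoothTransition.nonneg (4 * x - 2)
  have h2 := smoothTransition.le_one (4 * x - 2)
  have h3 := smoothTransition.nonneg (-4 * x - 2)
  have h4 := smoothTransition.le_one (-4 * x - 2)
  rw [abs_le]
  constructor <;> linarith

lemma dstp_nonneg (x : ℝ) : 0 ≤ deriv stp x := stp_mono.deriv_nonneg

lemma dstp_neg (x : ℝ) : deriv stp (-x) = deriv stp x := by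
  have h1 : HasDerivAt (fun y => stp (-y)) (deriv stp (-x) * (-1)) x :=
    HasDerivAt.comp x (cd_has stp_cd (-x)) (hasDerivAt_neg x)
  have h2 : (fun y => stp (-y)) = fun y => - stp y := by funext y; exact stp_neg y
  rw [h2] at h1
  have h3 := (cd_has stp_cd x).neg
  have := h1.unique h3
  linarith

lemma ddstp_neg (x : ℝ) : deriv (deriv stp) (-x) = - deriv (deriv stp) x := by
  have h1 : HasDerivAt (fun y => deriv stp (-y)) (deriv (deriv stp) (-x) * (-1)) x :=
    HasDerivAt.comp x (cd_has (cd_deriv stp_cd) (-x)) (hasDerivAt_neg x)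
  have h2 : (fun y => deriv stp (-y)) = fun y => deriv stp y := by funext y; exact dstp_neg y
  rw [h2] at h1
  have h3 := (cd_has (cd_deriv stp_cd) x)
  have := h1.unique h3
  linarith

lemma dstp_one {x : ℝ} (h : 3 / 4 ≤ x) : deriv stp x = 0 :=
  deriv_zero_on (uniqueDiffOn_Ici (3 / 4)) (cd_diff stp_cd) (c := 1) (fun _ hy => stp_one hy) x h

lemma ddstp_one {x : ℝ} (h : 3 / 4 ≤ x) : deriv (deriv stp) x = 0 :=
  deriv_zero_on (uniqueDiffOn_Ici (3 / 4)) (cd_diff (cd_deriv stp_cd)) (c := 0)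
    (fun _ hy => dstp_one hy) x h

lemma dstp_zero {x : ℝ} (h : |x| ≤ 1 / 2) : deriv stp x = 0 :=
  deriv_zero_on (uniqueDiffOn_Icc (show (-(1/2) : ℝ) < 1 / 2 by norm_num)) (cd_diff stp_cd) (c := 0)
    (fun _ hy => stp_zero (abs_le.2 ⟨hy.1, hy.2⟩)) x (abs_le.1 h)

lemma dstp_abs {x : ℝ} (h : 3 / 4 ≤ |x|) : deriv stp x = 0 := by
  rcases le_total 0 x with h0 | h0
  · rw [abs_of_nonneg h0] at h
    exact dstp_one h
  · rw [abs_of_nonpos h0] at h
    rw [← neg_neg x, dstp_neg]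
    exact dstp_one h

lemma ddstp_abs {x : ℝ} (h : 3 / 4 ≤ |x|) : deriv (deriv stp) x = 0 := by
  rcases le_total 0 x with h0 | h0
  · rw [abs_of_nonneg h0] at h
    exact ddstp_one h
  · rw [abs_of_nonpos h0] at h
    rw [← neg_neg x, ddstp_neg, ddstp_one h, neg_zero]

/-- a continuous function vanishing outside a bounded interval is bounded -/
lemma bdd_of_zero {g : ℝ → ℝ} (hg : Continuous g) (R : ℝ) (h : ∀ x, R ≤ |x| → g x = 0) :
    ∃ C : ℝ, 0 < C ∧ ∀ x, |g x| ≤ C := by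
  obtain ⟨C, hC⟩ := (isCompact_Icc (a := -R) (b := R)).exists_bound_of_continuousOn hg.continuousOn
  refine ⟨max C 0 + 1, by positivity, fun x => ?_⟩
  rcases le_or_gt R |x| with h1 | h1
  · rw [h x h1, abs_zero]; positivity
  · have := hC x (abs_le.1 h1.le)
    rw [Real.norm_eq_abs] at this
    have := le_max_left C 0
    linarith

lemma dstp_bdd : ∃ C : ℝ, 0 < C ∧ ∀ x, |deriv stp x| ≤ C :=
  bdd_of_zero (cd_deriv stp_cd).continuous _ (fun _ h => dstp_abs h)

lemma ddstp_bdd : ∃ C : ℝ, 0 < C ∧ ∀ x, |deriv (deriv stp) x| ≤ C :=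
  bdd_of_zero (cd_deriv (cd_deriv stp_cd)).continuous _ (fun _ h => ddstp_abs h)

/-! ### the one sided bump -/

/-- the bump: convex and increasing on `x ≤ 0`, supported in `[-1, 1]` -/
noncomputable def chi (x : ℝ) : ℝ := expNegInvGlue ((x + 1) / 4) * (1 - smoothTransition (2 * x - 1))

lemma chi_cd : ContDiff ℝ ∞ chi := by
  unfold chi
  refine (expNegInvGlue.contDiff.comp ((contDiff_id.add contDiff_const).div_const 4)).mul ?_
  exact contDiff_const.sub (st_cd.comp ((contDiff_const.mul contDiff_id).sub contDiff_const))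

lemma chi_zero {x : ℝ} (h : 1 ≤ |x|) : chi x = 0 := by
  unfold chi
  rcases le_total 0 x with h0 | h0
  · rw [abs_of_nonneg h0] at h
    rw [smoothTransition.one_of_one_le (by linarith), sub_self, mul_zero]
  · rw [abs_of_nonpos h0] at h
    rw [expNegInvGlue.zero_of_nonpos (by linarith), zero_mul]

lemma dchi_zero {x : ℝ} (h : 1 ≤ |x|) : deriv chi x = 0 := by
  rcases le_total 0 x with h0 | h0
  · rw [abs_of_nonneg h0] at h
    refine deriv_zero_on (uniqueDiffOn_Ici 1) (cd_diff chi_cd) (c := 0) (fun y hy => ?_) x h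
    exact chi_zero (hy.trans (le_abs_self y))
  · rw [abs_of_nonpos h0] at h
    refine deriv_zero_on (uniqueDiffOn_Iic (-1)) (cd_diff chi_cd) (c := 0) (fun y hy => ?_) x
      (by show x ≤ -1; linarith)
    have hy' : y ≤ -1 := hy
    exact chi_zero (by rw [abs_of_nonpos (by linarith)]; linarith)

lemma ddchi_zero {x : ℝ} (h : 1 ≤ |x|) : deriv (deriv chi) x = 0 := by
  rcases le_total 0 x with h0 | h0
  · rw [abs_of_nonneg h0] at h
    refine deriv_zero_on (uniqueDiffOn_Ici 1) (cd_diff (cd_deriv chi_cd)) (c := 0) (fun y hy => ?_) x h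
    exact dchi_zero (hy.trans (le_abs_self y))
  · rw [abs_of_nonpos h0] at h
    refine deriv_zero_on (uniqueDiffOn_Iic (-1)) (cd_diff (cd_deriv chi_cd)) (c := 0) (fun y hy => ?_) x
      (by show x ≤ -1; linarith)
    have hy' : y ≤ -1 := hy
    exact dchi_zero (by rw [abs_of_nonpos (by linarith)]; linarith)

lemma chi_nonneg (x : ℝ) : 0 ≤ chi x := by
  unfold chi
  have h1 := expNegInvGlue.nonneg ((x + 1) / 4)
  have h2 := smoothTransition.le_one (2 * x - 1)
  exact mul_nonneg h1 (by linarith)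

lemma chi_left {x : ℝ} (h : x < 1 / 2) : chi =ᶠ[𝓝 x] fun x => expNegInvGlue ((x + 1) / 4) := by
  filter_upwards [Iio_mem_nhds h] with y hy
  unfold chi
  have hy' : y < 1 / 2 := hy
  rw [smoothTransition.zero_of_nonpos (by linarith), sub_zero, mul_one]

lemma dchi_left {x : ℝ} (h : x < 1 / 2) :
    deriv chi x = ((((x + 1) / 4)⁻¹) ^ 2 * expNegInvGlue ((x + 1) / 4)) * (1 / 4) := by
  rw [(chi_left h).deriv_eq]
  have h1 : HasDerivAt (fun x : ℝ => (x + 1) / 4) (1 / 4) x := ((hasDerivAt_id x).add_const 1).div_const 4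
  exact (HasDerivAt.comp x (glue_deriv ((x + 1) / 4)) h1).deriv

lemma ddchi_left {x : ℝ} (h : x < 1 / 2) :
    deriv (deriv chi) x = (((((x + 1) / 4)⁻¹) ^ 4 - 2 * (((x + 1) / 4)⁻¹) ^ 3)
      * expNegInvGlue ((x + 1) / 4)) * (1 / 4) * (1 / 4) := by
  have e : deriv chi =ᶠ[𝓝 x] fun x => ((((x + 1) / 4)⁻¹) ^ 2 * expNegInvGlue ((x + 1) / 4)) * (1 / 4) := by
    filter_upwards [Iio_mem_nhds h] with y hy using dchi_left hy
  rw [e.deriv_eq]
  have h1 : HasDerivAt (fun x : ℝ => (x + 1) / 4) (1 / 4) x := ((hasDerivAt_id x).add_const 1).div_const 4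
  exact ((HasDerivAt.comp x (glue_deriv2 ((x + 1) / 4)) h1).mul_const (1 / 4)).deriv

lemma dchi_nonneg {x : ℝ} (h : x ≤ 0) : 0 ≤ deriv chi x := by
  rw [dchi_left (by linarith)]
  have h1 := expNegInvGlue.nonneg ((x + 1) / 4)
  positivity

lemma ddchi_nonneg {x : ℝ} (h : x ≤ 0) : 0 ≤ deriv (deriv chi) x := by
  rw [ddchi_left (by linarith)]
  rcases le_or_gt ((x + 1) / 4) 0 with h1 | h1
  · rw [expNegInvGlue.zero_of_nonpos h1]
    simp
  · have h2 := expNegInvGlue.nonneg ((x + 1) / 4)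
    set y := (x + 1) / 4 with hy
    have h3 : 0 ≤ (y⁻¹) ^ 4 - 2 * (y⁻¹) ^ 3 := by
      have h4 : 4 ≤ y⁻¹ := by
        rw [le_inv_comm₀ (by norm_num) h1]
        rw [hy]; linarith
      have h5 : 0 < (y⁻¹) ^ 3 := by positivity
      have : (y⁻¹) ^ 4 - 2 * (y⁻¹) ^ 3 = (y⁻¹) ^ 3 * (y⁻¹ - 2) := by ring
      rw [this]
      exact mul_nonneg h5.le (by linarith)
    positivity

lemma ddchi_pos : 0 < deriv (deriv chi) 0 := by
  rw [ddchi_left (by norm_num)]
  have h2 := expNegInvGlue.pos_of_pos (show (0:ℝ) < (0 + 1) / 4 by norm_num)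
  have h3 : (0:ℝ) < ((((0:ℝ) + 1) / 4)⁻¹) ^ 4 - 2 * (((0 + 1) / 4)⁻¹) ^ 3 := by norm_num
  positivity

lemma chi_bdd : ∃ C : ℝ, 0 < C ∧ ∀ x, |chi x| ≤ C :=
  bdd_of_zero chi_cd.continuous _ (fun _ h => chi_zero h)

lemma dchi_bdd : ∃ C : ℝ, 0 < C ∧ ∀ x, |deriv chi x| ≤ C :=
  bdd_of_zero (cd_deriv chi_cd).continuous _ (fun _ h => dchi_zero h)

lemma ddchi_bdd : ∃ C : ℝ, 0 < C ∧ ∀ x, |deriv (deriv chi) x| ≤ C :=
  bdd_of_zero (cd_deriv (cd_deriv chi_cd)).continuous _ (fun _ h => ddchi_zero h)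

end Pool.Agent.H803
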