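import Pool.Agent.H803.Smooth

set_option autoImplicit false

/-!
Smooth series with rescaled terms.
-/

namespace Pool.Agent.H803

open Filter Topology Set
open scoped ContDiff Nat

/-- derivatives of order `k` bounded by `A L_n ^ k` -/
def DB (L : ℕ → ℝ) (h : ℕ → ℂ → ℝ) : Prop := (∀ n, ContDiff ℝ ∞ (h n)) ∧
  ∀ k : ℕ, ∃ A : ℝ, 0 ≤ A ∧ ∀ n w, ‖iteratedFDeriv ℝ k (h n) w‖ ≤ A * L n ^ k

lemma DB.add {L : ℕ → ℝ} {h h' : ℕ → ℂ → ℝ} (H : DB L h) (H' : DB L h') :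
    DB L (fun n w => h n w + h' n w) := by
  refine ⟨fun n => (H.1 n).add (H'.1 n), fun k => ?_⟩
  obtain ⟨A, hA, hA'⟩ := H.2 k
  obtain ⟨B, hB, hB'⟩ := H'.2 k
  refine ⟨A + B, by positivity, fun n w => ?_⟩
  have e : iteratedFDeriv ℝ k (fun w => h n w + h' n w) w = iteratedFDeriv ℝ k (h n) w + iteratedFDeriv ℝ k (h' n) w :=
    fun_iteratedFDeriv_add_apply ((H.1 n).contDiffAt.of_le (nle k)) ((H'.1 n).contDiffAt.of_le (nle k))
  rw [e, add_mul]
  exact (norm_add_le _ _).trans (add_le_add (hA' n w) (hB' n w))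

lemma DB.smul {L : ℕ → ℝ} {h : ℕ → ℂ → ℝ} (H : DB L h) {c : ℕ → ℝ} {C : ℝ}
    (hc : ∀ n, |c n| ≤ C) : DB L (fun n w => c n * h n w) := by
  refine ⟨fun n => contDiff_const.mul (H.1 n), fun k => ?_⟩
  obtain ⟨A, hA, hA'⟩ := H.2 k
  have hC : 0 ≤ C := (abs_nonneg _).trans (hc 0)
  refine ⟨C * A, by positivity, fun n w => ?_⟩
  have e : ((fun n w => c n * h n w) n : ℂ → ℝ) = fun w => c n • h n w := by
    funext w; rw [smul_eq_mul]
  rw [e, iteratedFDeriv_const_smul_apply' ((H.1 n).contDiffAt.of_le (nle k)), norm_smul, Real.norm_eq_abs,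
    mul_assoc]
  exact mul_le_mul (hc n) (hA' n w) (norm_nonneg _) hC

lemma DB.fixed {L : ℕ → ℝ} {b : ℂ → ℝ} (hb : ContDiff ℝ ∞ b) (hbs : HasCompactSupport b)
    (hL : ∀ n, 1 ≤ L n) : DB L (fun _ => b) := by
  refine ⟨fun _ => hb, fun k => ?_⟩
  obtain ⟨B, hB, h⟩ := bound_global hb hbs k
  refine ⟨B, by linarith, fun n w => ?_⟩
  have := one_le_pow₀ (hL n) (n := k)
  have := h k le_rfl w
  nlinarith

lemma DB.scale {d : ℕ → ℝ} {b ξ : ℂ → ℝ} {χ : ℝ → ℝ} (hb : ContDiff ℝ ∞ b) (hbs : HasCompactSupport b)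
    (hξ : ContDiff ℝ ∞ ξ) (hχ : ContDiff ℝ ∞ χ) (hχs : HasCompactSupport χ)
    (hd : ∀ n, 0 < d n) (hd1 : ∀ n, d n ≤ 1) :
    DB (fun n => 1 / d n) (fun n w => b w * χ (ξ w / d n)) := by
  refine ⟨fun n => hb.mul (hχ.comp (hξ.div_const _)), fun k => ?_⟩
  obtain ⟨A, hA, h⟩ := scale_bound hb hbs hξ hχ hχs k
  exact ⟨A, hA, fun n w => h (d n) (hd n) (hd1 n) w⟩

section series

variable {L R : ℕ → ℝ} {h : ℕ → ℂ → ℝ} {c : ℕ → ℝ} {l : ℕ → ℂ}

lemma term_smooth (H : DB L h) (n : ℕ) : ContDiff ℝ ∞ (fun z => c n * h n (l n * z)) :=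
  contDiff_const.mul ((H.1 n).comp (contDiff_const.mul contDiff_id))

lemma term_bound (H : DB L h) (hL : ∀ n, 0 ≤ L n) (hl : ∀ n, ‖l n‖ ≤ R n) (k : ℕ) :
    ∃ A : ℝ, 0 ≤ A ∧ ∀ n z, ‖iteratedFDeriv ℝ k (fun z => c n * h n (l n * z)) z‖
      ≤ A * (|c n| * (L n * R n) ^ k) := by
  obtain ⟨A, hA, hA'⟩ := H.2 k
  refine ⟨A, hA, fun n z => ?_⟩
  have hR : 0 ≤ R n := (norm_nonneg _).trans (hl n)
  set g : ℂ →L[ℝ] ℂ := (ContinuousLinearMap.mul ℝ ℂ) (l n) with hg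
  have hgn : ‖g‖ ≤ R n := by
    apply ContinuousLinearMap.opNorm_le_bound _ hR
    intro w
    simp only [hg, ContinuousLinearMap.mul_apply']
    rw [norm_mul]
    exact mul_le_mul_of_nonneg_right (hl n) (norm_nonneg _)
  have e : (fun z => c n * h n (l n * z)) = fun z => c n • (h n ∘ g) z := by
    funext w; rw [smul_eq_mul]; rfl
  have hs : ContDiff ℝ ∞ (h n ∘ g) := (H.1 n).comp g.contDiff
  rw [e, iteratedFDeriv_const_smul_apply' (hs.contDiffAt.of_le (nle k)), norm_smul, Real.norm_eq_abs,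
    g.iteratedFDeriv_comp_right (H.1 n) z (nle k)]
  have h1 := ContinuousMultilinearMap.norm_compContinuousLinearMap_le
    (iteratedFDeriv ℝ k (h n) (g z)) (fun _ : Fin k => g)
  rw [Finset.prod_const, Finset.card_univ, Fintype.card_fin] at h1
  calc |c n| * ‖(iteratedFDeriv ℝ k (h n) (g z)).compContinuousLinearMap fun _ => g‖
      ≤ |c n| * (‖iteratedFDeriv ℝ k (h n) (g z)‖ * ‖g‖ ^ k) := by gcongr
    _ ≤ |c n| * ((A * L n ^ k) * R n ^ k) := by
      have := hA' n (g z)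
      have := hL n
      gcongr
    _ = A * (|c n| * (L n * R n) ^ k) := by rw [mul_pow]; ring

lemma series_smooth (H : DB L h) (hL : ∀ n, 0 ≤ L n) (hl : ∀ n, ‖l n‖ ≤ R n)
    (hs : ∀ k : ℕ, Summable (fun n => |c n| * (L n * R n) ^ k)) :
    ContDiff ℝ ∞ (fun z => ∑' n, c n * h n (l n * z)) := by
  choose A hA hA' using fun k => term_bound (c := c) H hL hl k
  exact contDiff_tsum (𝕜 := ℝ) (N := ⊤) (v := fun k n => A k * (|c n| * (L n * R n) ^ k))
    (fun n => term_smooth H n) (fun k _ => (hs k).mul_left _) (fun k n z _ => hA' k n z)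

lemma series_second (H : DB L h) (hL : ∀ n, 0 ≤ L n) (hl : ∀ n, ‖l n‖ ≤ R n)
    (hs : ∀ k : ℕ, Summable (fun n => |c n| * (L n * R n) ^ k))
    (hz : ∀ n, h n =ᶠ[𝓝 0] fun _ => 0) :
    iteratedFDeriv ℝ 2 (fun z => ∑' n, c n * h n (l n * z)) 0 = 0 := by
  choose A hA hA' using fun k => term_bound (c := c) H hL hl k
  rw [iteratedFDeriv_tsum_apply (𝕜 := ℝ) (N := ⊤) (v := fun k n => A k * (|c n| * (L n * R n) ^ k))
    (fun n => term_smooth H n) (fun k _ => (hs k).mul_left _) (fun k n z _ => hA' k n z) (k := 2) le_top]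
  have : ∀ n, iteratedFDeriv ℝ 2 (fun z => c n * h n (l n * z)) 0 = 0 := by
    intro n
    have hcont : Tendsto (fun z : ℂ => l n * z) (𝓝 0) (𝓝 0) := by
      have : Continuous fun z : ℂ => l n * z := by fun_prop
      have h2 := this.tendsto 0
      rwa [mul_zero] at h2
    have e : (fun z => c n * h n (l n * z)) =ᶠ[𝓝 0] fun _ => (0:ℝ) := by
      filter_upwards [hcont.eventually (hz n)] with z hz'
      rw [hz', mul_zero]
    rw [(e.iteratedFDeriv ℝ 2).self_of_nhds]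
    simp
  simp only [this, tsum_zero]

end series

/-- super-geometric decay -/
lemma gauss_summable (x y : ℝ) (hx : 0 < x) (hy : 0 < y) {g : ℕ → ℝ} (hg0 : ∀ n, 0 < g n) {K : ℝ} (hK : 0 < K)
    (hg : ∀ n, g (n + 1) = g n * (1 / (K * 4 ^ (n + 2)))) : Summable (fun n => g n * (y * x ^ n)) := by
  apply summable_of_ratio_test_tendsto_lt_one (l := 0) zero_lt_one
  · filter_upwards with n
    have := hg0 n
    positivity
  · have e : ∀ n : ℕ, ‖g (n + 1) * (y * x ^ (n + 1))‖ / ‖g n * (y * x ^ n)‖ = x / (K * 16) * (1 / 4) ^ n := by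
      intro n
      have h1 := hg0 n
      have h2 := hg0 (n + 1)
      rw [Real.norm_of_nonneg (by positivity), Real.norm_of_nonneg (by positivity), hg n, pow_succ, pow_add,
        one_div_pow]
      field_simp
      norm_num
      ring
    simp only [e]
    have := (tendsto_pow_atTop_nhds_zero_of_lt_one (show (0:ℝ) ≤ 1 / 4 by norm_num) (by norm_num)).const_mul
      (x / (K * 16))
    rwa [mul_zero] at this

end Pool.Agent.H803
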