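import Pool.Agent.H803.Ang

set_option autoImplicit false

/-!
Signs and bounds of the angular profiles.
-/

namespace Pool.Agent.H803

open Real Filter Topology Set
open scoped ContDiff

lemma sqrt3_ge : (17 / 10 : ℝ) ≤ √3 := by
  apply Real.le_sqrt_of_sq_le; norm_num

lemma psi1_le {M κ C d φ : ℝ} (hM : 0 ≤ M) (hκ : 0 ≤ κ) (hC : ∀ x, |deriv chi x| ≤ C)
    (hκC : κ * C ≤ 1 / 4) (hd : 0 < d) (hd' : d ≤ 1 / 4) (h0 : 0 ≤ φ) (hπ : φ ≤ π) :
    psi1 M κ d φ ≤ -(1 / 2) * sin φ := by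
  have hs : 0 ≤ sin φ := sin_nonneg_of_nonneg_of_le_pi h0 hπ
  have hpi := pi_pos
  have h3 := sqrt3_ge
  have h33 : √3 ^ 2 = 3 := Real.sq_sqrt (by norm_num)
  have hA : 0 ≤ deriv stp (cos (φ - π / 6)) * sin (φ - π / 6) := by
    rcases le_total (π / 6) φ with h | h
    · exact mul_nonneg (dstp_nonneg _) (sin_nonneg_of_nonneg_of_le_pi (by linarith) (by linarith))
    · have h1 : cos (π / 6) ≤ cos (π / 6 - φ) :=
        cos_le_cos_of_nonneg_of_le_pi (by linarith) (by linarith) (by linarith)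
      rw [cos_pi_div_six] at h1
      have h2 : cos (φ - π / 6) = cos (π / 6 - φ) := by rw [← cos_neg]; ring_nf
      rw [h2, dstp_one (by linarith), zero_mul]
  have hB : κ * spk1 d (φ - π / 3) ≤ (1 / 2) * sin φ := by
    rcases le_or_gt (1 / 2) |sin (φ - π / 3)| with h | h
    · rw [(spk_zero hd hd' h).2.1, mul_zero]
      linarith
    · have hs1 := (abs_lt.1 h).1
      have hs2 := (abs_lt.1 h).2
      have hlt : φ - π / 3 < π / 2 := by
        by_contra hcon
        push Not at hcon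
        have e1 : sin (φ - π / 3) = sin (π - (φ - π / 3)) := (sin_pi_sub _).symm
        have e2 : sin (π / 3) ≤ sin (π - (φ - π / 3)) :=
          sin_le_sin_of_le_of_le_pi_div_two (by linarith) (by linarith) (by linarith)
        rw [sin_pi_div_three] at e2
        linarith
      have hc : 0 < cos (φ - π / 3) := cos_pos_of_mem_Ioo ⟨by linarith, hlt⟩
      have hc2 := sin_sq_add_cos_sq (φ - π / 3)
      have hc3 : √3 / 2 ≤ cos (φ - π / 3) := by
        apply le_of_sq_le_sq _ hc.le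
        nlinarith
      have e : sin φ = sin (φ - π / 3) * (1 / 2) + cos (φ - π / 3) * (√3 / 2) := by
        rw [← cos_pi_div_three, ← sin_pi_div_three, ← sin_add]
        ring_nf
      have hsin : 1 / 2 ≤ sin φ := by
        rw [e]
        nlinarith
      have hab : |spk1 d (φ - π / 3)| ≤ C := by
        unfold spk1
        rw [abs_mul, abs_mul]
        have b1 := abs_stp_le (cos (φ - π / 3))
        have b2 := hC (sin (2 * (φ - π / 3)) / (2 * d))
        have b3 := abs_cos_le_one (2 * (φ - π / 3))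
        have b4 := abs_nonneg (stp (cos (φ - π / 3)))
        have b5 := abs_nonneg (deriv chi (sin (2 * (φ - π / 3)) / (2 * d)))
        have b6 := abs_nonneg (cos (2 * (φ - π / 3)))
        calc |stp (cos (φ - π / 3))| * (|deriv chi (sin (2 * (φ - π / 3)) / (2 * d))| * |cos (2 * (φ - π / 3))|)
            ≤ 1 * (C * 1) := by
              apply mul_le_mul b1 _ (by positivity) (by norm_num)
              exact mul_le_mul b2 b3 b6 (b5.trans b2)
          _ = C := by ring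
      have := (abs_le.1 hab).2
      nlinarith
  unfold psi1
  have := mul_nonneg hM hA
  linarith

lemma plateau {φ : ℝ} (h1 : -(1 / 8) ≤ φ) (h2 : φ ≤ π / 3) : 3 / 4 ≤ cos (φ - π / 6) := by
  have hpi := pi_pos
  have hpi3 := pi_gt_three
  have h3 := sqrt3_ge
  have e1 : cos (φ - π / 6) = cos |φ - π / 6| := (cos_abs _).symm
  have e2 : |φ - π / 6| ≤ π / 6 + 1 / 8 := by
    rw [abs_le]; constructor <;> linarith
  have e3 : cos (π / 6 + 1 / 8) ≤ cos |φ - π / 6| :=
    cos_le_cos_of_nonneg_of_le_pi (abs_nonneg _) (by linarith) e2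
  have e4 : cos (π / 6 + 1 / 8) = √3 / 2 * cos (1 / 8) - 1 / 2 * sin (1 / 8) := by
    rw [cos_add, cos_pi_div_six, sin_pi_div_six]
  have e5 : 1 - (1 / 8) ^ 2 / 2 ≤ cos (1 / 8 : ℝ) := one_sub_sq_div_two_le_cos
  have e6 : sin (1 / 8 : ℝ) ≤ 1 / 8 := sin_le (by norm_num)
  rw [e1]
  nlinarith

lemma pp_ge_one {M κ d φ : ℝ} (hM : 1 ≤ M) (hκ : 0 ≤ κ) (hd : 0 < d)
    (h1 : -(1 / 8) ≤ φ) (h2 : φ ≤ π / 3) : 1 ≤ pp M κ d φ := by
  have hpi := pi_pos
  have hpi3 := pi_gt_three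
  have hp := plateau h1 h2
  have hs1 : -(π / 2) ≤ φ - π / 3 := by linarith
  have hcos : 0 ≤ cos (φ - π / 3) := cos_nonneg_of_mem_Icc ⟨hs1, by linarith⟩
  have hsin : sin (2 * (φ - π / 3)) ≤ 0 := sin_nonpos_of_nonpos_of_neg_pi_le (by linarith) (by linarith)
  have hxi : sin (2 * (φ - π / 3)) / (2 * d) ≤ 0 := div_nonpos_of_nonpos_of_nonneg hsin (by positivity)
  have a1 := stp_nonneg hcos
  have a2 := dchi_nonneg hxi
  have a3 := ddchi_nonneg hxi
  have a4 := chi_nonneg (sin (2 * (φ - π / 3)) / (2 * d))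
  have b1 : 0 ≤ spk d (φ - π / 3) := by unfold spk; positivity
  have b2 : 0 ≤ spk2 d (φ - π / 3) := by
    unfold spk2
    apply mul_nonneg a1
    have : 0 ≤ deriv (deriv chi) (sin (2 * (φ - π / 3)) / (2 * d)) * cos (2 * (φ - π / 3)) ^ 2 / d := by positivity
    nlinarith
  unfold pp psi2 psi
  rw [ddstp_one hp, dstp_one hp, stp_one hp]
  have c1 : cos φ ≤ 1 := cos_le_one φ
  have c2 : 0 ≤ κ * spk d (φ - π / 3) := mul_nonneg hκ b1
  have c3 : 0 ≤ M * (κ * spk2 d (φ - π / 3)) := mul_nonneg (by linarith) (mul_nonneg hκ b2)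
  nlinarith

lemma pp_spike {M κ d : ℝ} (hM : 1 ≤ M) (hκ : 0 ≤ κ) (hd : 0 < d) :
    κ * deriv (deriv chi) 0 / d ≤ pp M κ d (π / 3) := by
  have hpi := pi_pos
  have hp := plateau (φ := π / 3) (by linarith) le_rfl
  have a4 := chi_nonneg 0
  have a5 := ddchi_pos
  unfold pp psi2 psi
  rw [ddstp_one hp, dstp_one hp, stp_one hp]
  unfold spk spk2
  rw [sub_self]
  have e : (2 * (0:ℝ)) = 0 := by norm_num
  rw [e, sin_zero, cos_zero, zero_div, stp_one (by norm_num : (3:ℝ) / 4 ≤ 1)]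
  have c1 : cos (π / 3) ≤ 1 := cos_le_one _
  have c2 : 0 ≤ κ * (d * (1 * chi 0)) := by positivity
  have c3 : κ * deriv (deriv chi) 0 / d ≤ M * (κ * (1 * (deriv (deriv chi) 0 * 1 ^ 2 / d - 2 * deriv chi 0 * 0))) := by
    have : M * (κ * (1 * (deriv (deriv chi) 0 * 1 ^ 2 / d - 2 * deriv chi 0 * 0))) = M * (κ * deriv (deriv chi) 0 / d) := by
      ring
    rw [this]
    have h : 0 ≤ κ * deriv (deriv chi) 0 / d := by positivity
    nlinarith
  nlinarith

lemma prof_bounds (M κ : ℝ) (hM : 0 ≤ M) (hκ : 0 ≤ κ) : ∃ C : ℝ, 1 ≤ C ∧ ∀ d : ℝ, 0 < d → d ≤ 1 / 4 →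
    (∀ φ, |psi M κ d φ| ≤ C) ∧ (∀ φ, |psi1 M κ d φ| ≤ C) ∧ (∀ φ, |pp M κ d φ| ≤ C / d) ∧
    (∀ φ, -(π / 3) ≤ φ → φ ≤ 0 → |pp M κ d φ| ≤ C) := by
  obtain ⟨A1, hA1, hA1'⟩ := dstp_bdd
  obtain ⟨A2, hA2, hA2'⟩ := ddstp_bdd
  obtain ⟨B0, hB0, hB0'⟩ := chi_bdd
  obtain ⟨B1, hB1, hB1'⟩ := dchi_bdd
  obtain ⟨B2, hB2, hB2'⟩ := ddchi_bdd
  set C0 : ℝ := 1 + M with hC0
  set C1 : ℝ := 1 + M * A1 with hC1
  set C2 : ℝ := 1 + M * (A2 + A1) with hC2
  have hC0p : 0 < C0 := by positivity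
  have hC1p : 0 < C1 := by positivity
  have hC2p : 0 < C2 := by positivity
  -- smooth parts
  have s0 : ∀ φ, |cos φ + M * stp (cos (φ - π / 6))| ≤ C0 := by
    intro φ
    have h1 := abs_cos_le_one φ
    have h2 := abs_stp_le (cos (φ - π / 6))
    calc |cos φ + M * stp (cos (φ - π / 6))| ≤ |cos φ| + |M * stp (cos (φ - π / 6))| := abs_add_le _ _
      _ ≤ 1 + M * 1 := by
        rw [abs_mul, abs_of_nonneg hM]
        gcongr
      _ = C0 := by rw [hC0]; ring
  have s1 : ∀ φ, |-sin φ - M * (deriv stp (cos (φ - π / 6)) * sin (φ - π / 6))| ≤ C1 := by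
    intro φ
    have h1 := abs_sin_le_one φ
    have h2 := hA1' (cos (φ - π / 6))
    have h3 := abs_sin_le_one (φ - π / 6)
    calc |-sin φ - M * (deriv stp (cos (φ - π / 6)) * sin (φ - π / 6))|
        ≤ |-sin φ| + |M * (deriv stp (cos (φ - π / 6)) * sin (φ - π / 6))| := abs_sub _ _
      _ ≤ 1 + M * (A1 * 1) := by
        rw [abs_neg, abs_mul, abs_of_nonneg hM, abs_mul]
        gcongr
      _ = C1 := by rw [hC1]; ring
  have s2 : ∀ φ, |-cos φ + M * (deriv (deriv stp) (cos (φ - π / 6)) * sin (φ - π / 6) ^ 2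
    - deriv stp (cos (φ - π / 6)) * cos (φ - π / 6))| ≤ C2 := by
    intro φ
    have h1 := abs_cos_le_one φ
    have h2 := hA1' (cos (φ - π / 6))
    have h3 := abs_sin_le_one (φ - π / 6)
    have h4 := hA2' (cos (φ - π / 6))
    have h5 := abs_cos_le_one (φ - π / 6)
    have h6 : |sin (φ - π / 6) ^ 2| ≤ 1 := by
      rw [abs_pow]
      exact pow_le_one₀ (abs_nonneg _) h3
    calc _ ≤ |-cos φ| + |M * (deriv (deriv stp) (cos (φ - π / 6)) * sin (φ - π / 6) ^ 2
          - deriv stp (cos (φ - π / 6)) * cos (φ - π / 6))| := abs_add_le _ _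
      _ ≤ |-cos φ| + M * (|deriv (deriv stp) (cos (φ - π / 6)) * sin (φ - π / 6) ^ 2|
          + |deriv stp (cos (φ - π / 6)) * cos (φ - π / 6)|) := by
        rw [abs_mul, abs_of_nonneg hM]
        gcongr
        exact abs_sub _ _
      _ ≤ 1 + M * (A2 * 1 + A1 * 1) := by
        rw [abs_neg, abs_mul, abs_mul]
        gcongr
      _ = C2 := by rw [hC2]; ring
  refine ⟨(C0 + κ * B0) + (C1 + κ * B1) + (M * (C2 + κ * (B2 + 2 * B1)) + (C0 + κ * B0)) + 1, ?_, ?_⟩
  · have : 0 ≤ (C0 + κ * B0) + (C1 + κ * B1) + (M * (C2 + κ * (B2 + 2 * B1)) + (C0 + κ * B0)) := by positivity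
    linarith
  intro d hd hd'
  have q0 : ∀ s, |spk d s| ≤ B0 := by
    intro s
    unfold spk
    rw [abs_mul, abs_mul, abs_of_pos hd]
    have h1 := abs_stp_le (cos s)
    have h2 := hB0' (sin (2 * s) / (2 * d))
    calc d * (|stp (cos s)| * |chi (sin (2 * s) / (2 * d))|) ≤ 1 * (1 * B0) := by
          gcongr
          linarith
      _ = B0 := by ring
  have q1 : ∀ s, |spk1 d s| ≤ B1 := by
    intro s
    unfold spk1
    rw [abs_mul, abs_mul]
    have h1 := abs_stp_le (cos s)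
    have h2 := hB1' (sin (2 * s) / (2 * d))
    have h3 := abs_cos_le_one (2 * s)
    calc |stp (cos s)| * (|deriv chi (sin (2 * s) / (2 * d))| * |cos (2 * s)|) ≤ 1 * (B1 * 1) := by gcongr
      _ = B1 := by ring
  have q2 : ∀ s, |spk2 d s| ≤ (B2 + 2 * B1) / d := by
    intro s
    unfold spk2
    rw [abs_mul]
    have h1 := abs_stp_le (cos s)
    have h2 := hB1' (sin (2 * s) / (2 * d))
    have h3 := abs_cos_le_one (2 * s)
    have h4 := hB2' (sin (2 * s) / (2 * d))
    have h5 := abs_sin_le_one (2 * s)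
    have h6 : |cos (2 * s) ^ 2| ≤ 1 := by
      rw [abs_pow]
      exact pow_le_one₀ (abs_nonneg _) h3
    have h7 : |deriv (deriv chi) (sin (2 * s) / (2 * d)) * cos (2 * s) ^ 2 / d
      - 2 * deriv chi (sin (2 * s) / (2 * d)) * sin (2 * s)| ≤ (B2 + 2 * B1) / d := by
      calc _ ≤ |deriv (deriv chi) (sin (2 * s) / (2 * d)) * cos (2 * s) ^ 2 / d|
          + |2 * deriv chi (sin (2 * s) / (2 * d)) * sin (2 * s)| := abs_sub _ _
        _ ≤ B2 * 1 / d + 2 * B1 * 1 := by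
          rw [abs_div, abs_of_pos hd, abs_mul, abs_mul, abs_mul, abs_of_pos (by norm_num : (0:ℝ) < 2)]
          gcongr
        _ ≤ (B2 + 2 * B1) / d := by
          rw [add_div, mul_one, mul_one]
          gcongr
          rw [le_div_iff₀ hd]
          nlinarith
    calc _ ≤ 1 * ((B2 + 2 * B1) / d) := by gcongr
      _ = _ := one_mul _
  have r0 : ∀ φ, |psi M κ d φ| ≤ C0 + κ * B0 := by
    intro φ
    unfold psi
    calc _ ≤ |cos φ + M * stp (cos (φ - π / 6))| + |κ * spk d (φ - π / 3)| := abs_add_le _ _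
      _ ≤ C0 + κ * B0 := by
        rw [abs_mul, abs_of_nonneg hκ]
        have := s0 φ
        have := q0 (φ - π / 3)
        gcongr
  have r1 : ∀ φ, |psi1 M κ d φ| ≤ C1 + κ * B1 := by
    intro φ
    unfold psi1
    calc _ ≤ |-sin φ - M * (deriv stp (cos (φ - π / 6)) * sin (φ - π / 6))| + |κ * spk1 d (φ - π / 3)| := abs_add_le _ _
      _ ≤ C1 + κ * B1 := by
        rw [abs_mul, abs_of_nonneg hκ]
        have := s1 φ
        have := q1 (φ - π / 3)
        gcongr
  have r2 : ∀ φ, |psi2 M κ d φ| ≤ (C2 + κ * (B2 + 2 * B1)) / d := by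
    intro φ
    unfold psi2
    calc _ ≤ |-cos φ + M * (deriv (deriv stp) (cos (φ - π / 6)) * sin (φ - π / 6) ^ 2
          - deriv stp (cos (φ - π / 6)) * cos (φ - π / 6))| + |κ * spk2 d (φ - π / 3)| := abs_add_le _ _
      _ ≤ C2 + κ * ((B2 + 2 * B1) / d) := by
        rw [abs_mul, abs_of_nonneg hκ]
        have := s2 φ
        have := q2 (φ - π / 3)
        gcongr
      _ ≤ (C2 + κ * (B2 + 2 * B1)) / d := by
        have e : (C2 + κ * (B2 + 2 * B1)) / d = C2 / d + κ * ((B2 + 2 * B1) / d) := by ring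
        rw [e]
        apply add_le_add _ le_rfl
        rw [le_div_iff₀ hd]
        nlinarith
  have hd1 : 1 ≤ 1 / d := by rw [le_div_iff₀ hd]; linarith
  refine ⟨fun φ => ?_, fun φ => ?_, fun φ => ?_, fun φ h1 h2 => ?_⟩
  · have := r0 φ
    have : 0 ≤ (C1 + κ * B1) + (M * (C2 + κ * (B2 + 2 * B1)) + (C0 + κ * B0)) + 1 := by positivity
    linarith
  · have := r1 φ
    have : 0 ≤ (C0 + κ * B0) + (M * (C2 + κ * (B2 + 2 * B1)) + (C0 + κ * B0)) + 1 := by positivity
    linarith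
  · have h1 := r0 φ
    have h2 := r2 φ
    have h3 : |pp M κ d φ| ≤ M * ((C2 + κ * (B2 + 2 * B1)) / d) + (C0 + κ * B0) := by
      unfold pp
      calc _ ≤ |M * psi2 M κ d φ| + |psi M κ d φ| := abs_add_le _ _
        _ ≤ _ := by
          rw [abs_mul, abs_of_nonneg hM]
          gcongr
    refine h3.trans ?_
    rw [le_div_iff₀ hd]
    have e : (M * ((C2 + κ * (B2 + 2 * B1)) / d) + (C0 + κ * B0)) * d
        = M * (C2 + κ * (B2 + 2 * B1)) + (C0 + κ * B0) * d := by field_simp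
    rw [e]
    have p1 : 0 ≤ C0 + κ * B0 := by positivity
    have p2 : 0 ≤ C1 + κ * B1 := by positivity
    nlinarith
  · have hpi := pi_pos
    have h3 := sqrt3_ge
    have hs : 1 / 2 ≤ |sin (φ - π / 3)| := by
      have e1 : sin (φ - π / 3) = - sin (π / 3 - φ) := by rw [← sin_neg]; ring_nf
      rw [e1, abs_neg]
      have e2 : √3 / 2 ≤ sin (π / 3 - φ) := by
        rcases le_total (π / 3 - φ) (π / 2) with h | h
        · rw [← sin_pi_div_three]
          exact sin_le_sin_of_le_of_le_pi_div_two (by linarith) h (by linarith)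
        · rw [← sin_pi_div_three, ← sin_pi_sub (π / 3 - φ)]
          exact sin_le_sin_of_le_of_le_pi_div_two (by linarith) (by linarith) (by linarith)
      have e3 := le_abs_self (sin (π / 3 - φ))
      linarith
    obtain ⟨z0, z1, z2⟩ := spk_zero hd hd' hs
    unfold pp psi2 psi
    rw [z0, z2, mul_zero, add_zero, add_zero]
    have h4 := s0 φ
    have h5 := s2 φ
    calc _ ≤ |M * (-cos φ + M * (deriv (deriv stp) (cos (φ - π / 6)) * sin (φ - π / 6) ^ 2
          - deriv stp (cos (φ - π / 6)) * cos (φ - π / 6)))| + |cos φ + M * stp (cos (φ - π / 6))| := abs_add_le _ _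
      _ ≤ M * C2 + C0 := by
        rw [abs_mul, abs_of_nonneg hM]
        gcongr
      _ ≤ _ := by
        have p0 : 0 ≤ M * (κ * (B2 + 2 * B1)) := by positivity
        have p1 : 0 ≤ C0 + κ * B0 := by positivity
        have p2 : 0 ≤ C1 + κ * B1 := by positivity
        have p3 : 0 ≤ κ * B0 := by positivity
        nlinarith

end Pool.Agent.H803
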