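import Mathlib

set_option autoImplicit false

/-!
Derivative bounds with a small scale, and smooth series.
-/

namespace Pool.Agent.H803

open Filter Topology Set
open scoped ContDiff Nat

lemma nle (n : ℕ) : (n : ℕ∞ω) ≤ ∞ := by exact_mod_cast le_top

/-- bounds for finitely many derivatives on a compact set -/
lemma bound_compact {E : Type*} [NormedAddCommGroup E] [NormedSpace ℝ E] {f : E → ℝ}
    (hf : ContDiff ℝ ∞ f) {S : Set E} (hS : IsCompact S) (k : ℕ) :
    ∃ B : ℝ, 1 ≤ B ∧ ∀ i ≤ k, ∀ w ∈ S, ‖iteratedFDeriv ℝ i f w‖ ≤ B := by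
  have hc : ∀ i : ℕ, Continuous (fun w => iteratedFDeriv ℝ i f w) := fun i =>
    hf.continuous_iteratedFDeriv (by exact_mod_cast le_top)
  have hsum : Continuous (fun w => ∑ i ∈ Finset.range (k + 1), ‖iteratedFDeriv ℝ i f w‖) :=
    continuous_finsetSum _ (fun i _ => (hc i).norm)
  obtain ⟨B, hB⟩ := hS.exists_bound_of_continuousOn hsum.continuousOn
  refine ⟨max B 1, le_max_right _ _, fun i hi w hw => ?_⟩
  have h1 := hB w hw
  rw [Real.norm_eq_abs, abs_of_nonneg (Finset.sum_nonneg (fun i _ => norm_nonneg _))] at h1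
  have h2 : ‖iteratedFDeriv ℝ i f w‖ ≤ ∑ i ∈ Finset.range (k + 1), ‖iteratedFDeriv ℝ i f w‖ :=
    Finset.single_le_sum (f := fun i => ‖iteratedFDeriv ℝ i f w‖) (fun i _ => norm_nonneg _)
      (Finset.mem_range.2 (Nat.lt_succ_of_le hi))
  exact h2.trans (h1.trans (le_max_left _ _))

/-- global bounds for compactly supported functions -/
lemma bound_global {E : Type*} [NormedAddCommGroup E] [NormedSpace ℝ E] {f : E → ℝ}
    (hf : ContDiff ℝ ∞ f) (hs : HasCompactSupport f) (k : ℕ) :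
    ∃ B : ℝ, 1 ≤ B ∧ ∀ i ≤ k, ∀ w, ‖iteratedFDeriv ℝ i f w‖ ≤ B := by
  obtain ⟨B, hB, h⟩ := bound_compact hf hs k
  refine ⟨B, hB, fun i hi w => ?_⟩
  by_cases hw : w ∈ tsupport f
  · exact h i hi w hw
  · have : iteratedFDeriv ℝ i f w = 0 := by
      by_contra h0
      exact hw (support_iteratedFDeriv_subset i (Function.mem_support.2 h0))
    rw [this, norm_zero]
    linarith

lemma scale_bound {b ξ : ℂ → ℝ} {χ : ℝ → ℝ} (hb : ContDiff ℝ ∞ b) (hbs : HasCompactSupport b)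
    (hξ : ContDiff ℝ ∞ ξ) (hχ : ContDiff ℝ ∞ χ) (hχs : HasCompactSupport χ) (k : ℕ) :
    ∃ A : ℝ, 0 ≤ A ∧ ∀ d : ℝ, 0 < d → d ≤ 1 → ∀ w,
      ‖iteratedFDeriv ℝ k (fun w => b w * χ (ξ w / d)) w‖ ≤ A * (1 / d) ^ k := by
  obtain ⟨B, hB1, hB⟩ := bound_compact hb hbs k
  obtain ⟨X, hX1, hX⟩ := bound_compact hξ hbs k
  obtain ⟨C, hC1, hC⟩ := bound_global hχ hχs k
  refine ⟨∑ i ∈ Finset.range (k + 1), (k.choose i : ℝ) * B * ((k - i)! * C * X ^ (k - i)), by positivity, ?_⟩
  intro d hd hd1 w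
  have hd1' : 1 ≤ 1 / d := by rw [le_div_iff₀ hd]; linarith
  have hcomp : ContDiff ℝ ∞ (fun w => χ (ξ w / d)) := hχ.comp (hξ.div_const d)
  by_cases hw : w ∈ tsupport b
  · have h1 : ‖iteratedFDeriv ℝ k (fun w => b w * χ (ξ w / d)) w‖ ≤ _ :=
      norm_iteratedFDeriv_mul_le hb hcomp w (n := k) (by exact_mod_cast le_top)
    refine h1.trans ?_
    rw [Finset.sum_mul]
    apply Finset.sum_le_sum
    intro i hi
    have hik : i ≤ k := Nat.lt_succ_iff.1 (Finset.mem_range.1 hi)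
    have e1 : ‖iteratedFDeriv ℝ i b w‖ ≤ B := hB i hik w hw
    have e2 : ‖iteratedFDeriv ℝ (k - i) (χ ∘ fun w => ξ w / d) w‖ ≤ (k - i)! * C * (X * (1 / d)) ^ (k - i) := by
      refine norm_iteratedFDeriv_comp_le (N := ∞) hχ (hξ.div_const d) (nle (k - i)) w ?_ ?_
      · intro j hj
        exact hC j (by omega) _
      · intro j hj1 hj
        have e : (fun w => ξ w / d) = fun w => (1 / d) • ξ w := by
          funext w; rw [smul_eq_mul]; ring
        rw [e, iteratedFDeriv_const_smul_apply' (hξ.contDiffAt.of_le (by exact_mod_cast le_top)), norm_smul,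
          Real.norm_of_nonneg (by positivity)]
        have h2 := hX j (by omega) w hw
        calc 1 / d * ‖iteratedFDeriv ℝ j ξ w‖ ≤ 1 / d * X := by gcongr
          _ = X * (1 / d) := mul_comm _ _
          _ ≤ (X * (1 / d)) ^ j := by
            apply le_self_pow₀ _ (by omega)
            nlinarith
    have e3 : (X * (1 / d)) ^ (k - i) ≤ X ^ (k - i) * (1 / d) ^ k := by
      rw [mul_pow]
      apply mul_le_mul_of_nonneg_left _ (by positivity)
      exact pow_le_pow_right₀ hd1' (by omega)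
    calc (k.choose i : ℝ) * ‖iteratedFDeriv ℝ i b w‖ * ‖iteratedFDeriv ℝ (k - i) (fun w => χ (ξ w / d)) w‖
        ≤ (k.choose i : ℝ) * B * ((k - i)! * C * (X * (1 / d)) ^ (k - i)) := by
          have e2' : ‖iteratedFDeriv ℝ (k - i) (fun w => χ (ξ w / d)) w‖ ≤ (k - i)! * C * (X * (1 / d)) ^ (k - i) := e2
          gcongr
      _ ≤ (k.choose i : ℝ) * B * ((k - i)! * C * (X ^ (k - i) * (1 / d) ^ k)) := by gcongr
      _ = (k.choose i : ℝ) * B * ((k - i)! * C * X ^ (k - i)) * (1 / d) ^ k := by ring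
  · have hz : (fun w => b w * χ (ξ w / d)) =ᶠ[𝓝 w] fun _ => (0:ℝ) := by
      have : b =ᶠ[𝓝 w] 0 := notMem_tsupport_iff_eventuallyEq.1 hw
      filter_upwards [this] with y hy
      rw [hy]; simp
    have : iteratedFDeriv ℝ k (fun w => b w * χ (ξ w / d)) w = 0 := by
      rw [hz.iteratedFDeriv ℝ k |>.self_of_nhds]
      simp
    rw [this, norm_zero]
    positivity

end Pool.Agent.H803
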