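import Pool.Agent.H812.Tm.Spec2

/-!
Calculus of the difference of two slopes (leaf `SPair` of the project of helper812).
-/

set_option autoImplicit false

open Real Filter Topology
open scoped ContDiff

namespace Pool.Agent.H803.TmSPair

open Pool.Agent.W811.Stu Pool.Agent.H812.Tm

lemma two_le : (2 : ℕ∞ω) ≤ ∞ := WithTop.coe_le_coe.2 le_top

lemma isOpen_U : IsOpen U := by
  have : U = (fun v : ℝ × ℝ => |v.1|) ⁻¹' Set.Iio 1 := rfl
  rw [this]
  exact isOpen_Iio.preimage (by fun_prop)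

/-- derivative along a line -/
lemma line {φ : ℝ × ℝ → ℝ} {v : ℝ × ℝ} (h : DifferentiableAt ℝ φ v) (e : ℝ × ℝ) :
    HasDerivAt (fun t : ℝ => φ (v + t • e)) (fderiv ℝ φ v e) 0 := by
  have h1 : HasFDerivAt φ (fderiv ℝ φ v) (v + (0 : ℝ) • e) := by
    rw [zero_smul, add_zero]; exact h.hasFDerivAt
  have h2 : HasDerivAt (fun t : ℝ => v + t • e) e 0 := by
    have := ((hasDerivAt_id (0 : ℝ)).smul_const e).const_add v
    simpa using this
  exact h1.comp_hasDerivAt 0 h2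

lemma line_ev {v : ℝ × ℝ} {p : ℝ × ℝ → Prop} (h : ∀ᶠ w in 𝓝 v, p w) (e : ℝ × ℝ) :
    ∀ᶠ t : ℝ in 𝓝 0, p (v + t • e) := by
  have hc : ContinuousAt (fun t : ℝ => v + t • e) 0 := by fun_prop
  have : Tendsto (fun t : ℝ => v + t • e) (𝓝 0) (𝓝 v) := by
    have := hc.tendsto
    simpa using this
  exact this.eventually h

section
variable {f : ℝ × ℝ → ℝ} {v : ℝ × ℝ}

lemma cda (hf : ContDiffOn ℝ ∞ f U) (hv : v ∈ U) : ContDiffAt ℝ ∞ f v :=
  hf.contDiffAt (isOpen_U.mem_nhds hv)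

lemma dir_cda (hf : ContDiffAt ℝ ∞ f v) (e : ℝ × ℝ) :
    ContDiffAt ℝ ∞ (fun w => fderiv ℝ f w e) v :=
  (hf.fderiv_right (m := ∞) le_rfl).clm_apply contDiffAt_const

lemma dz_cda (hf : ContDiffAt ℝ ∞ f v) : ContDiffAt ℝ ∞ (dz f) v := dir_cda hf _
lemma dt_cda (hf : ContDiffAt ℝ ∞ f v) : ContDiffAt ℝ ∞ (dt f) v := dir_cda hf _

lemma cda_da (hf : ContDiffAt ℝ ∞ f v) : DifferentiableAt ℝ f v := hf.differentiableAt (by decide)

lemma symm (hf : ContDiffAt ℝ ∞ f v) : dz (dt f) v = dt (dz f) v := by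
  have h2 : ContDiffAt ℝ 2 f v := hf.of_le two_le
  have hs : IsSymmSndFDerivAt ℝ f v := h2.isSymmSndFDerivAt (by simp)
  have h1 : ContDiffAt ℝ 1 (fderiv ℝ f) v := h2.fderiv_right (m := 1) (by norm_num)
  have h1' : HasFDerivAt (fderiv ℝ f) (fderiv ℝ (fderiv ℝ f) v) v :=
    (h1.differentiableAt (by norm_num)).hasFDerivAt
  have key : ∀ a b : ℝ × ℝ, fderiv ℝ (fun w => fderiv ℝ f w a) v b =
      fderiv ℝ (fderiv ℝ f) v b a := by
    intro a b
    have hA : HasFDerivAt (fun w => fderiv ℝ f w a)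
        ((ContinuousLinearMap.apply ℝ ℝ a).comp (fderiv ℝ (fderiv ℝ f) v)) v :=
      (ContinuousLinearMap.apply ℝ ℝ a).hasFDerivAt.comp v h1'
    rw [hA.fderiv]
    rfl
  show fderiv ℝ (fun w => fderiv ℝ f w (0, 1)) v (1, 0) =
    fderiv ℝ (fun w => fderiv ℝ f w (1, 0)) v (0, 1)
  rw [key, key, hs]

lemma ne_ev (hf : ContDiffAt ℝ ∞ f v) (h : dt f v ≠ 0) : ∀ᶠ w in 𝓝 v, dt f w ≠ 0 :=
  (dt_cda hf).continuousAt.eventually_ne h

lemma sl_cda (hf : ContDiffAt ℝ ∞ f v) (h : dt f v ≠ 0) : ContDiffAt ℝ ∞ (sl f) v :=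
  (dz_cda hf).neg.div (dt_cda hf) h

/-- mixed derivative -/
lemma mixed (hf : ContDiffAt ℝ ∞ f v) (h : dt f v ≠ 0) :
    dz (dt f) v = -(dt (sl f) v * dt f v + sl f v * dt (dt f) v) := by
  rw [symm hf]
  have h1 := line (cda_da (dz_cda hf)) (0, 1)
  have h2 := ((line (cda_da (sl_cda hf h)) (0, 1)).mul (line (cda_da (dt_cda hf)) (0, 1))).neg
  have h3 : (fun t : ℝ => dz f (v + t • ((0, 1) : ℝ × ℝ))) =ᶠ[𝓝 0]
      -((fun t : ℝ => sl f (v + t • ((0, 1) : ℝ × ℝ))) *
        fun t : ℝ => dt f (v + t • ((0, 1) : ℝ × ℝ))) := by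
    filter_upwards [line_ev (ne_ev hf h) (0, 1)] with t ht
    simp only [Pi.neg_apply, Pi.mul_apply, sl]
    field_simp
  have h4 := (h2.congr_of_eventuallyEq h3).unique h1
  rw [zero_smul, add_zero] at h4
  exact h4.symm

end

section
variable {f g : ℝ × ℝ → ℝ} {v : ℝ × ℝ}

lemma jac_cda (hf : ContDiffAt ℝ ∞ f v) (hg : ContDiffAt ℝ ∞ g v) : ContDiffAt ℝ ∞ (jac f g) v :=
  ((dz_cda hf).mul (dt_cda hg)).sub ((dt_cda hf).mul (dz_cda hg))

lemma slope_eq (hf : dt f v ≠ 0) (hg : dt g v ≠ 0) :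
    (sl g v - sl f v) * (dt f v * dt g v) = jac f g v := by
  unfold sl jac
  field_simp
  ring

/-- derivative of the identity for the Jacobian -/
lemma jderiv {δ : ℝ} (hf : ContDiffAt ℝ ∞ f v) (hg : ContDiffAt ℝ ∞ g v)
    (hJ : ∀ᶠ w in 𝓝 v, (jac f g w) ^ 2 * (1 - w.1 ^ 2) = δ ^ 2 + (1 - f w ^ 2) * (1 - g w ^ 2))
    (e : ℝ × ℝ) :
    2 * jac f g v * fderiv ℝ (jac f g) v e * (1 - v.1 ^ 2) - jac f g v ^ 2 * (2 * v.1 * e.1) =
      -(2 * f v * fderiv ℝ f v e) * (1 - g v ^ 2) - (1 - f v ^ 2) * (2 * g v * fderiv ℝ g v e) := by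
  have l1 := line (cda_da (jac_cda hf hg)) e
  have l2 := line (cda_da hf) e
  have l3 := line (cda_da hg) e
  have l4 : HasDerivAt (fun t : ℝ => (v + t • e).1) e.1 0 := by
    have := line (φ := fun w => w.1) (v := v) (by fun_prop) e
    have h5 : fderiv ℝ (fun w : ℝ × ℝ => w.1) v e = e.1 := by
      have : (fun w : ℝ × ℝ => w.1) = (ContinuousLinearMap.fst ℝ ℝ ℝ : ℝ × ℝ → ℝ) := rfl
      rw [this, ContinuousLinearMap.fderiv]
      rfl
    rwa [h5] at this
  have a1 := (l1.pow 2).mul ((l4.pow 2).const_sub 1)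
  have a2 := (((l2.pow 2).const_sub 1).mul ((l3.pow 2).const_sub 1)).const_add (δ ^ 2)
  have h3 := line_ev hJ e
  have h4 := (a2.congr_of_eventuallyEq h3).unique a1
  simp only [zero_smul, add_zero, Nat.cast_ofNat, Pi.pow_apply] at h4
  simp only [show (2 : ℕ) - 1 = 1 from rfl, pow_one] at h4
  linarith

/-- derivative of the difference of the slopes -/
lemma hderiv (hf : ContDiffAt ℝ ∞ f v) (hg : ContDiffAt ℝ ∞ g v) (nf : dt f v ≠ 0)
    (ng : dt g v ≠ 0) (e : ℝ × ℝ) :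
    fderiv ℝ (fun w => sl g w - sl f w) v e * (dt f v * dt g v) +
      (sl g v - sl f v) * (fderiv ℝ (dt f) v e * dt g v + dt f v * fderiv ℝ (dt g) v e) =
      fderiv ℝ (jac f g) v e := by
  have l1 := line (cda_da ((sl_cda hg ng).sub (sl_cda hf nf))) e
  have l2 := line (cda_da (dt_cda hf)) e
  have l3 := line (cda_da (dt_cda hg)) e
  have l4 := line (cda_da (jac_cda hf hg)) e
  have a1 := l1.mul (l2.mul l3)
  have h3 : (fun t : ℝ => jac f g (v + t • e)) =ᶠ[𝓝 0]
      ((fun t : ℝ => (sl g - sl f) (v + t • e)) *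
        ((fun t : ℝ => dt f (v + t • e)) * fun t : ℝ => dt g (v + t • e))) := by
    filter_upwards [line_ev (ne_ev hf nf) e, line_ev (ne_ev hg ng) e] with t h1 h2
    exact (slope_eq h1 h2).symm
  have h4 := (a1.congr_of_eventuallyEq h3).unique l4
  simp only [zero_smul, add_zero, Pi.mul_apply] at h4
  exact h4

end

lemma one_sub_sq_le {κ x : ℝ} (hκ : 1 ≤ κ) (hx : |x| ≤ κ) : |1 - x ^ 2| ≤ κ ^ 2 := by
  have h := sq_le_sq' (neg_le_of_abs_le hx) (le_of_abs_le hx)
  rw [abs_le]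
  constructor <;> nlinarith [sq_nonneg x]

lemma prod_ge {κ x y : ℝ} (hκ : 1 ≤ κ) (hx : |x| ≤ κ) (hy : |y| ≤ κ) :
    1 - κ ^ 2 ≤ (1 - x ^ 2) * (1 - y ^ 2) := by
  have h1 := sq_le_sq' (neg_le_of_abs_le hx) (le_of_abs_le hx)
  have h2 := sq_le_sq' (neg_le_of_abs_le hy) (le_of_abs_le hy)
  have h3 := sq_nonneg x
  have h4 := sq_nonneg y
  have h5 : 1 ≤ κ ^ 2 := by nlinarith
  rcases le_total (x ^ 2) 1 with h6 | h6
  · -- `0 ≤ 1 - x² ≤ 1`
    have : (1 - x ^ 2) * (1 - κ ^ 2) ≤ (1 - x ^ 2) * (1 - y ^ 2) :=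
      mul_le_mul_of_nonneg_left (by linarith) (by linarith)
    nlinarith
  · rcases le_total (y ^ 2) 1 with h7 | h7
    · have : (1 - y ^ 2) * (1 - κ ^ 2) ≤ (1 - y ^ 2) * (1 - x ^ 2) :=
        mul_le_mul_of_nonneg_left (by linarith) (by linarith)
      nlinarith
    · have : 0 ≤ (x ^ 2 - 1) * (y ^ 2 - 1) := mul_nonneg (by linarith) (by linarith)
      nlinarith

lemma abs_le_sq_add_one (x : ℝ) : |x| ≤ x ^ 2 + 1 := by
  rw [← sq_abs x]
  nlinarith [abs_nonneg x, sq_nonneg (|x| - 1)]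

lemma main : SPair := by
  intro δ κ r L hδ hκ1 hκ hr hL
  rcases lt_or_ge r 0 with hr0 | hr0
  · refine ⟨1, one_pos, fun f g _ _ _ v hv => ?_⟩
    exact absurd (lt_of_le_of_lt hv hr0) (not_lt.2 (abs_nonneg _))
  have hκ0 : 0 < κ := by linarith
  have hη : 0 < cc δ ^ 2 - κ ^ 2 := by nlinarith
  set η := cc δ ^ 2 - κ ^ 2 with hηd
  set s := √η with hs
  have hs0 : 0 < s := Real.sqrt_pos.2 hη
  have hs2 : s ^ 2 = η := Real.sq_sqrt hη.le
  have hρ : 0 < 1 - r ^ 2 := by nlinarith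
  set ρ := 1 - r ^ 2 with hρd
  set C0 := (δ ^ 2 + κ ^ 4) / ρ + 1 with hC0
  have hC0p : 0 < C0 := by positivity
  set C1 := κ ^ 3 / (s * ρ) with hC1
  have hC1p : 0 < C1 := by positivity
  refine ⟨C0 + C0 / ρ + 2 * L * C0 + C1 * L + C0 * L ^ 2 + C1 + L * C0, by positivity, ?_⟩
  set C := C0 + C0 / ρ + 2 * L * C0 + C1 * L + C0 * L ^ 2 + C1 + L * C0 with hC
  intro f g hf hg hJ v hv hfv hgv pf pg
  have hvU : v ∈ U := lt_of_le_of_lt hv hr
  have cf := cda hf hvU
  have cg := cda hg hvU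
  have hJe : ∀ᶠ w in 𝓝 v, (jac f g w) ^ 2 * (1 - w.1 ^ 2) =
      δ ^ 2 + (1 - f w ^ 2) * (1 - g w ^ 2) := by
    filter_upwards [isOpen_U.mem_nhds hvU] with w hw using hJ w hw
  set J := jac f g v with hJd
  set E := 1 - v.1 ^ 2 with hE
  have hz := sq_le_sq' (neg_le_of_abs_le hv) (le_of_abs_le hv)
  have hE1 : ρ ≤ E := by rw [hE, hρd]; linarith
  have hE2 : E ≤ 1 := by rw [hE]; linarith [sq_nonneg v.1]
  have hE0 : 0 < E := lt_of_lt_of_le hρ hE1
  have hq := hJ v hvU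
  rw [← hJd, ← hE] at hq
  have bf := one_sub_sq_le hκ1 hfv
  have bg := one_sub_sq_le hκ1 hgv
  have hlow : η ≤ J ^ 2 := by
    have h1 := prod_ge hκ1 hfv hgv
    have h2 := cc_sq δ
    have h3 : η ≤ J ^ 2 * E := by rw [hq, hηd, h2]; linarith
    exact h3.trans (mul_le_of_le_one_right (sq_nonneg J) hE2)
  have hJs : s ≤ |J| := by
    have h1 : s ^ 2 ≤ |J| ^ 2 := by rw [hs2, sq_abs]; exact hlow
    exact le_of_sq_le_sq h1 (abs_nonneg _)
  have hJ0 : 0 < |J| := lt_of_lt_of_le hs0 hJs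
  have hJC : |J| ≤ C0 := by
    have h1 : J ^ 2 * ρ ≤ δ ^ 2 + κ ^ 4 := by
      have h2 : J ^ 2 * ρ ≤ J ^ 2 * E := mul_le_mul_of_nonneg_left hE1 (sq_nonneg _)
      have h3 : (1 - f v ^ 2) * (1 - g v ^ 2) ≤ κ ^ 2 * κ ^ 2 := by
        calc _ ≤ |(1 - f v ^ 2) * (1 - g v ^ 2)| := le_abs_self _
          _ = |1 - f v ^ 2| * |1 - g v ^ 2| := abs_mul _ _
          _ ≤ κ ^ 2 * κ ^ 2 := by gcongr
      have h4 : κ ^ 2 * κ ^ 2 = κ ^ 4 := by ring
      linarith
    have h2 : J ^ 2 ≤ (δ ^ 2 + κ ^ 4) / ρ := by rw [le_div_iff₀ hρ]; exact h1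
    have h3 : |J| ≤ J ^ 2 + 1 := by
      exact abs_le_sq_add_one J
    linarith
  set F := dt f v with hF
  set G := dt g v with hG
  set a := |F| with ha
  set b := |G| with hb
  have ha0 : 0 < a := abs_pos.2 pf.ne
  have hb0 : 0 < b := abs_pos.2 pg.ne
  have hab0 : 0 < a * b := mul_pos ha0 hb0
  set h := sl g v - sl f v with hh
  have hhJ : h * (F * G) = J := slope_eq pf.ne pg.ne
  have habJ : |h| * (a * b) = |J| := by rw [← hhJ, abs_mul, abs_mul]
  -- the derivative of the Jacobian in the direction `ϑ`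
  have j1 : |dt (jac f g) v| ≤ C1 * (a + b) := by
    have h1 := jderiv cf cg hJe (0, 1)
    change 2 * J * dt (jac f g) v * E - J ^ 2 * (2 * v.1 * 0) =
      -(2 * f v * F) * (1 - g v ^ 2) - (1 - f v ^ 2) * (2 * g v * G) at h1
    have h2 : J * dt (jac f g) v * E = -(f v * F * (1 - g v ^ 2) + (1 - f v ^ 2) * (g v * G)) := by
      linarith
    have h3 : |J| * |dt (jac f g) v| * E ≤ κ ^ 3 * (a + b) := by
      have h4 : |J| * |dt (jac f g) v| * E = |J * dt (jac f g) v * E| := by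
        rw [abs_mul, abs_mul, abs_of_pos hE0]
      rw [h4, h2, abs_neg]
      refine (abs_add_le _ _).trans ?_
      have h5 : |f v * F * (1 - g v ^ 2)| ≤ κ * a * κ ^ 2 := by
        rw [abs_mul, abs_mul]
        gcongr
      have h6 : |(1 - f v ^ 2) * (g v * G)| ≤ κ ^ 2 * (κ * b) := by
        rw [abs_mul, abs_mul]
        gcongr
      exact (add_le_add h5 h6).trans (le_of_eq (by ring))
    rw [hC1, div_mul_eq_mul_div, le_div_iff₀ (by positivity)]
    have h7 : |dt (jac f g) v| * (s * ρ) ≤ |dt (jac f g) v| * (|J| * E) := by gcongr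
    calc _ ≤ |dt (jac f g) v| * (|J| * E) := h7
      _ = |J| * |dt (jac f g) v| * E := by ring
      _ ≤ _ := h3
  -- the derivative of the Jacobian in the direction `z`
  have j2 : |dz (jac f g) v| ≤ C0 / ρ + C1 * L * (a + b) := by
    have h1 := jderiv cf cg hJe (1, 0)
    change 2 * J * dz (jac f g) v * E - J ^ 2 * (2 * v.1 * 1) =
      -(2 * f v * dz f v) * (1 - g v ^ 2) - (1 - f v ^ 2) * (2 * g v * dz g v) at h1
    have h2 : J * dz (jac f g) v * E = J ^ 2 * v.1 +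
        -(f v * dz f v * (1 - g v ^ 2) + (1 - f v ^ 2) * (g v * dz g v)) := by
      linarith
    have h3 : |J| * E * |dz (jac f g) v| ≤ |J| * |J| + κ ^ 3 * L * (a + b) := by
      have h4 : |J| * E * |dz (jac f g) v| = |J * dz (jac f g) v * E| := by
        rw [abs_mul, abs_mul, abs_of_pos hE0]; ring
      rw [h4, h2]
      refine (abs_add_le _ _).trans ?_
      rw [abs_neg]
      have h7 : |J ^ 2 * v.1| ≤ |J| * |J| := by
        rw [abs_mul, abs_pow]
        have : |v.1| ≤ 1 := by linarith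
        calc |J| ^ 2 * |v.1| ≤ |J| ^ 2 * 1 := by gcongr
          _ = |J| * |J| := by ring
      have h8 := abs_add_le (f v * dz f v * (1 - g v ^ 2)) ((1 - f v ^ 2) * (g v * dz g v))
      have h5 : |f v * dz f v * (1 - g v ^ 2)| ≤ κ * (L * a) * κ ^ 2 := by
        rw [abs_mul, abs_mul]
        have := pf.zz
        gcongr
      have h6 : |(1 - f v ^ 2) * (g v * dz g v)| ≤ κ ^ 2 * (κ * (L * b)) := by
        rw [abs_mul, abs_mul]
        have := pg.zz
        gcongr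
      exact add_le_add h7 (h8.trans ((add_le_add h5 h6).trans (le_of_eq (by ring))))
    have hJE : 0 < |J| * E := mul_pos hJ0 hE0
    refine le_of_mul_le_mul_left (h3.trans ?_) hJE
    have h9 : |J| * |J| ≤ |J| * E * (C0 / ρ) := by
      have : C0 ≤ E * (C0 / ρ) := by
        rw [mul_div_assoc', le_div_iff₀ hρ]
        rw [mul_comm]
        exact mul_le_mul_of_nonneg_right hE1 hC0p.le
      calc |J| * |J| ≤ |J| * C0 := by gcongr
        _ ≤ |J| * (E * (C0 / ρ)) := by gcongr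
        _ = _ := by ring
    have h10 : κ ^ 3 * L * (a + b) ≤ |J| * E * (C1 * L * (a + b)) := by
      have h11 : κ ^ 3 ≤ |J| * E * C1 := by
        rw [hC1, mul_div_assoc', le_div_iff₀ (by positivity)]
        have : s * ρ ≤ |J| * E := by gcongr
        have h12 : 0 ≤ κ ^ 3 := by positivity
        rw [mul_comm (κ ^ 3)]
        exact mul_le_mul_of_nonneg_right this h12
      have h13 : 0 ≤ L * (a + b) := by positivity
      calc κ ^ 3 * L * (a + b) = κ ^ 3 * (L * (a + b)) := by ring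
        _ ≤ (|J| * E * C1) * (L * (a + b)) := mul_le_mul_of_nonneg_right h11 h13
        _ = _ := by ring
    exact (add_le_add h9 h10).trans (le_of_eq (by ring))
  have hS : 1 / a + 1 / b = (a + b) / (a * b) := by field_simp; ring
  have tf := pf.tt
  have tg := pg.tt
  rw [← hF, ← sq_abs F, ← ha] at tf
  rw [← hG, ← sq_abs G, ← hb] at tg
  refine ⟨?_, ?_, ?_⟩
  · rw [habJ]
    refine hJC.trans ?_
    rw [hC]
    have : 0 ≤ C0 / ρ + 2 * L * C0 + C1 * L + C0 * L ^ 2 + C1 + L * C0 := by positivity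
    linarith
  · have h1 := hderiv cf cg pf.ne pg.ne (0, 1)
    change dt (fun w => sl g w - sl f w) v * (F * G) +
      h * (dt (dt f) v * G + F * dt (dt g) v) = dt (jac f g) v at h1
    set X := dt (fun w => sl g w - sl f w) v with hX
    have h2 : X * (F * G) = dt (jac f g) v - h * (dt (dt f) v * G + F * dt (dt g) v) := by linarith
    have h3 : |X| * (a * b) ≤ (C1 + L * C0) * (a + b) := by
      have h4 : |X| * (a * b) = |X * (F * G)| := by rw [abs_mul, abs_mul]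
      rw [h4, h2]
      refine (abs_sub _ _).trans ?_
      have h5 : |h * (dt (dt f) v * G + F * dt (dt g) v)| ≤ L * C0 * (a + b) := by
        rw [abs_mul]
        have h6 : |dt (dt f) v * G + F * dt (dt g) v| ≤ L * (a * b) * (a + b) := by
          refine (abs_add_le _ _).trans ?_
          rw [abs_mul, abs_mul]
          have h7 : |dt (dt f) v| * b ≤ L * a ^ 2 * b := by gcongr
          have h8 : a * |dt (dt g) v| ≤ a * (L * b ^ 2) := by gcongr
          exact (add_le_add h7 h8).trans (le_of_eq (by ring))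
        calc |h| * |dt (dt f) v * G + F * dt (dt g) v| ≤ |h| * (L * (a * b) * (a + b)) := by gcongr
          _ = L * (|h| * (a * b)) * (a + b) := by ring
          _ ≤ L * C0 * (a + b) := by rw [habJ]; gcongr
      exact (add_le_add j1 h5).trans (le_of_eq (by ring))
    rw [hS, mul_div_assoc', le_div_iff₀ hab0]
    refine h3.trans ?_
    have h9 : C1 + L * C0 ≤ C := by
      rw [hC]
      have : 0 ≤ C0 + C0 / ρ + 2 * L * C0 + C1 * L + C0 * L ^ 2 := by positivity
      linarith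
    gcongr
  · intro c0 hc0 hca hcb sf sg
    change c0 ≤ a at hca
    change c0 ≤ b at hcb
    have h1 := hderiv cf cg pf.ne pg.ne (1, 0)
    change dz (fun w => sl g w - sl f w) v * (F * G) +
      h * (dz (dt f) v * G + F * dz (dt g) v) = dz (jac f g) v at h1
    set X := dz (fun w => sl g w - sl f w) v with hX
    have mf : |dz (dt f) v| ≤ L * a + L ^ 2 * a ^ 2 := by
      rw [mixed cf pf.ne, abs_neg]
      refine (abs_add_le _ _).trans ?_
      rw [abs_mul, abs_mul]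
      have e1 : |sl f v| ≤ L := by
        unfold sl
        rw [abs_div, abs_neg, div_le_iff₀ ha0]
        exact pf.zz
      have e2 : |dt (sl f) v| * |dt f v| ≤ L * a := by gcongr
      have e3 : |sl f v| * |dt (dt f) v| ≤ L * (L * a ^ 2) := by gcongr
      exact (add_le_add e2 e3).trans (le_of_eq (by ring))
    have mg : |dz (dt g) v| ≤ L * b + L ^ 2 * b ^ 2 := by
      rw [mixed cg pg.ne, abs_neg]
      refine (abs_add_le _ _).trans ?_
      rw [abs_mul, abs_mul]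
      have e1 : |sl g v| ≤ L := by
        unfold sl
        rw [abs_div, abs_neg, div_le_iff₀ hb0]
        exact pg.zz
      have e2 : |dt (sl g) v| * |dt g v| ≤ L * b := by gcongr
      have e3 : |sl g v| * |dt (dt g) v| ≤ L * (L * b ^ 2) := by gcongr
      exact (add_le_add e2 e3).trans (le_of_eq (by ring))
    have h2 : X * (F * G) = dz (jac f g) v - h * (dz (dt f) v * G + F * dz (dt g) v) := by linarith
    have h3 : |X| * (a * b) ≤ (C0 / ρ + 2 * L * C0) + (C1 * L + C0 * L ^ 2) * (a + b) := by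
      have h4 : |X| * (a * b) = |X * (F * G)| := by rw [abs_mul, abs_mul]
      rw [h4, h2]
      refine (abs_sub _ _).trans ?_
      have h5 : |h * (dz (dt f) v * G + F * dz (dt g) v)| ≤ C0 * (2 * L + L ^ 2 * (a + b)) := by
        rw [abs_mul]
        have h6 : |dz (dt f) v * G + F * dz (dt g) v| ≤ (a * b) * (2 * L + L ^ 2 * (a + b)) := by
          refine (abs_add_le _ _).trans ?_
          rw [abs_mul, abs_mul]
          have h7 : |dz (dt f) v| * b ≤ (L * a + L ^ 2 * a ^ 2) * b := by gcongr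
          have h8 : a * |dz (dt g) v| ≤ a * (L * b + L ^ 2 * b ^ 2) := by gcongr
          exact (add_le_add h7 h8).trans (le_of_eq (by ring))
        calc |h| * |dz (dt f) v * G + F * dz (dt g) v| ≤
              |h| * ((a * b) * (2 * L + L ^ 2 * (a + b))) := by gcongr
          _ = (|h| * (a * b)) * (2 * L + L ^ 2 * (a + b)) := by ring
          _ ≤ C0 * (2 * L + L ^ 2 * (a + b)) := by rw [habJ]; gcongr
      exact (add_le_add j2 h5).trans (le_of_eq (by ring))
    rw [hS, mul_div_assoc', le_div_iff₀ hab0]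
    refine h3.trans ?_
    have k1 : 1 ≤ (1 / c0) * (a + b) := by
      rw [one_div, ← div_eq_inv_mul, le_div_iff₀ hc0]
      linarith
    have k2 : C0 / ρ + 2 * L * C0 ≤ (C0 / ρ + 2 * L * C0) * ((1 / c0) * (a + b)) :=
      le_mul_of_one_le_right (by positivity) k1
    have k3 : (C0 / ρ + 2 * L * C0) * (1 / c0) + (C1 * L + C0 * L ^ 2) ≤ C * (1 + 1 / c0) := by
      have e1 : C0 / ρ + 2 * L * C0 ≤ C := by
        rw [hC]
        have : 0 ≤ C0 + C1 * L + C0 * L ^ 2 + C1 + L * C0 := by positivity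
        linarith
      have e2 : C1 * L + C0 * L ^ 2 ≤ C := by
        rw [hC]
        have : 0 ≤ C0 + C0 / ρ + 2 * L * C0 + C1 + L * C0 := by positivity
        linarith
      have e3 : (C0 / ρ + 2 * L * C0) * (1 / c0) ≤ C * (1 / c0) := by gcongr
      linarith
    calc C0 / ρ + 2 * L * C0 + (C1 * L + C0 * L ^ 2) * (a + b) ≤
          ((C0 / ρ + 2 * L * C0) * (1 / c0) + (C1 * L + C0 * L ^ 2)) * (a + b) := by linarith
      _ ≤ C * (1 + 1 / c0) * (a + b) := by gcongr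

end Pool.Agent.H803.TmSPair

namespace Pool.Agent.H803.Tm

theorem tSPair : Pool.Agent.H812.Tm.SPair := Pool.Agent.H803.TmSPair.main

end Pool.Agent.H803.Tm
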